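import Mathlib
import Pool.Agent.H997LT.Koenig

set_option autoImplicit false

/-! Colourings of the cells of a Young diagram whose initial segments are maximum unions of
independent sets: the cut criterion, transposition, and the filling of an outline. -/

open Finset

namespace Pool.Agent.H997LT

/-- a proper colouring of a set of cells for which every initial segment meets a cut bound -/
def Good (S : Finset (ℕ × ℕ)) (c : ℕ × ℕ → ℕ) : Prop :=
  (∀ a ∈ S, ∀ b ∈ S, a ≠ b → (a.1 = b.1 ∨ a.2 = b.2) → c a ≠ c b) ∧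
  ∀ k : ℕ, 0 < k → ∃ s t : ℕ,
    k * (s + t) + (S.filter (fun x => s ≤ x.1 ∧ t ≤ x.2)).card ≤
      (S.filter (fun x => c x < k)).card

theorem upper (S : Finset (ℕ × ℕ)) (k s t : ℕ) (f : Fin k → Finset (ℕ × ℕ))
    (hf : ∀ i, f i ⊆ S ∧ ∀ a ∈ f i, ∀ b ∈ f i, a ≠ b → a.1 ≠ b.1 ∧ a.2 ≠ b.2) :
    (Finset.univ.biUnion f).card ≤
      k * (s + t) + (S.filter (fun x => s ≤ x.1 ∧ t ≤ x.2)).card := by
  have hsub : Finset.univ.biUnion f ⊆
      (Finset.univ.biUnion fun i => (f i).filter (fun x => x.1 < s)) ∪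
      (Finset.univ.biUnion fun i => (f i).filter (fun x => x.2 < t)) ∪
      S.filter (fun x => s ≤ x.1 ∧ t ≤ x.2) := by
    intro x hx
    rw [Finset.mem_biUnion] at hx
    obtain ⟨i, _, hi⟩ := hx
    rw [Finset.mem_union, Finset.mem_union]
    by_cases h1 : x.1 < s
    · exact Or.inl (Or.inl (Finset.mem_biUnion.2 ⟨i, Finset.mem_univ _,
        Finset.mem_filter.2 ⟨hi, h1⟩⟩))
    · by_cases h2 : x.2 < t
      · exact Or.inl (Or.inr (Finset.mem_biUnion.2 ⟨i, Finset.mem_univ _,
          Finset.mem_filter.2 ⟨hi, h2⟩⟩))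
      · exact Or.inr (Finset.mem_filter.2 ⟨(hf i).1 hi, by omega, by omega⟩)
  have h1 : (Finset.univ.biUnion fun i => (f i).filter (fun x => x.1 < s)).card ≤ k * s := by
    refine le_trans Finset.card_biUnion_le ?_
    have : ∀ i ∈ (Finset.univ : Finset (Fin k)), ((f i).filter (fun x => x.1 < s)).card ≤ s := by
      intro i _
      have := Finset.card_le_card_of_injOn (s := (f i).filter (fun x => x.1 < s))
        (t := Finset.range s) Prod.fst (by
          intro x hx
          have := (Finset.mem_filter.1 (Finset.mem_coe.1 hx)).2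
          exact Finset.mem_coe.2 (Finset.mem_range.2 this)) (by
          intro x hx y hy hxy
          by_contra hne
          exact ((hf i).2 x (Finset.mem_filter.1 (Finset.mem_coe.1 hx)).1 y
            (Finset.mem_filter.1 (Finset.mem_coe.1 hy)).1 hne).1 hxy)
      rwa [Finset.card_range] at this
    have h := Finset.sum_le_card_nsmul _ _ _ this
    simpa using h
  have h2 : (Finset.univ.biUnion fun i => (f i).filter (fun x => x.2 < t)).card ≤ k * t := by
    refine le_trans Finset.card_biUnion_le ?_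
    have : ∀ i ∈ (Finset.univ : Finset (Fin k)), ((f i).filter (fun x => x.2 < t)).card ≤ t := by
      intro i _
      have := Finset.card_le_card_of_injOn (s := (f i).filter (fun x => x.2 < t))
        (t := Finset.range t) Prod.snd (by
          intro x hx
          have := (Finset.mem_filter.1 (Finset.mem_coe.1 hx)).2
          exact Finset.mem_coe.2 (Finset.mem_range.2 this)) (by
          intro x hx y hy hxy
          by_contra hne
          exact ((hf i).2 x (Finset.mem_filter.1 (Finset.mem_coe.1 hx)).1 y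
            (Finset.mem_filter.1 (Finset.mem_coe.1 hy)).1 hne).2 hxy)
      rwa [Finset.card_range] at this
    have h := Finset.sum_le_card_nsmul _ _ _ this
    simpa using h
  have h3 := Finset.card_le_card hsub
  have h4 := Finset.card_union_le
    ((Finset.univ.biUnion fun i => (f i).filter (fun x => x.1 < s)) ∪
      (Finset.univ.biUnion fun i => (f i).filter (fun x => x.2 < t)))
    (S.filter (fun x => s ≤ x.1 ∧ t ≤ x.2))
  have h5 := Finset.card_union_le
    (Finset.univ.biUnion fun i => (f i).filter (fun x => x.1 < s))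
    (Finset.univ.biUnion fun i => (f i).filter (fun x => x.2 < t))
  rw [Nat.mul_add]
  omega

/-- the cut criterion -/
theorem good_cds (S : Finset (ℕ × ℕ)) (c : ℕ × ℕ → ℕ) (h : Good S c) :
    (∀ a ∈ S, ∀ b ∈ S, a ≠ b → (a.1 = b.1 ∨ a.2 = b.2) → c a ≠ c b) ∧
    ∀ k : ℕ, 0 < k →
      (∃ f : Fin k → Finset (ℕ × ℕ),
        (∀ i, f i ⊆ S ∧ ∀ a ∈ f i, ∀ b ∈ f i, a ≠ b → a.1 ≠ b.1 ∧ a.2 ≠ b.2) ∧
        (Finset.univ.biUnion f).card = (S.filter (fun x => c x < k)).card) ∧
      (∀ f : Fin k → Finset (ℕ × ℕ),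
        (∀ i, f i ⊆ S ∧ ∀ a ∈ f i, ∀ b ∈ f i, a ≠ b → a.1 ≠ b.1 ∧ a.2 ≠ b.2) →
        (Finset.univ.biUnion f).card ≤ (S.filter (fun x => c x < k)).card) := by
  refine ⟨h.1, fun k hk => ⟨⟨fun i => S.filter (fun x => c x = i), ?_, ?_⟩, ?_⟩⟩
  · intro i
    refine ⟨Finset.filter_subset _ _, ?_⟩
    intro a ha b hb hab
    rw [Finset.mem_filter] at ha hb
    constructor
    · intro h1
      exact h.1 a ha.1 b hb.1 hab (Or.inl h1) (by rw [ha.2, hb.2])
    · intro h1
      exact h.1 a ha.1 b hb.1 hab (Or.inr h1) (by rw [ha.2, hb.2])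
  · congr 1
    ext x
    rw [Finset.mem_biUnion, Finset.mem_filter]
    constructor
    · rintro ⟨i, _, hi⟩
      rw [Finset.mem_filter] at hi
      exact ⟨hi.1, by rw [hi.2]; exact i.2⟩
    · rintro ⟨h1, h2⟩
      exact ⟨⟨c x, h2⟩, Finset.mem_univ _, Finset.mem_filter.2 ⟨h1, rfl⟩⟩
  · intro f hf
    obtain ⟨s, t, hst⟩ := h.2 k hk
    exact le_trans (upper S k s t f hf) hst

/-- transposition -/
theorem good_swap (S T : Finset (ℕ × ℕ)) (c : ℕ × ℕ → ℕ) (h : Good S c)
    (hT : ∀ x, x ∈ T ↔ x.swap ∈ S) : Good T (fun x => c x.swap) := by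
  have hcard : ∀ (P : ℕ × ℕ → Prop) [DecidablePred P] (Q : ℕ × ℕ → Prop) [DecidablePred Q],
      (∀ x, P x ↔ Q x.swap) → (T.filter P).card = (S.filter Q).card := by
    intro P _ Q _ hPQ
    refine Finset.card_bij (fun x _ => x.swap) ?_ ?_ ?_
    · intro x hx
      rw [Finset.mem_filter] at hx ⊢
      exact ⟨(hT x).1 hx.1, (hPQ x).1 hx.2⟩
    · intro x _ y _ hxy
      exact Prod.swap_injective hxy
    · intro y hy
      rw [Finset.mem_filter] at hy
      refine ⟨y.swap, ?_, Prod.swap_swap y⟩
      rw [Finset.mem_filter]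
      exact ⟨(hT _).2 (by rw [Prod.swap_swap]; exact hy.1),
        (hPQ _).2 (by rw [Prod.swap_swap]; exact hy.2)⟩
  refine ⟨?_, ?_⟩
  · intro a ha b hb hab hor
    refine h.1 a.swap ((hT a).1 ha) b.swap ((hT b).1 hb)
      (fun h' => hab (Prod.swap_injective h')) ?_
    rcases hor with h1 | h1
    · exact Or.inr h1
    · exact Or.inl h1
  · intro k hk
    obtain ⟨s, t, hst⟩ := h.2 k hk
    refine ⟨t, s, ?_⟩
    rw [hcard (fun x => t ≤ x.1 ∧ s ≤ x.2) (fun x => s ≤ x.1 ∧ t ≤ x.2)
      (fun x => by simp only [Prod.fst_swap, Prod.snd_swap]; tauto),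
      hcard (fun x => c x.swap < k) (fun x => c x < k) (fun x => Iff.rfl)]
    rw [add_comm t s]
    exact hst

/-! ### Filling an outline with three blocks -/

theorem fiber_le {E A : Type} (s : E → A) (a : A) (m : ℕ) (g : E → ℕ)
    (h1 : ∀ e, s e = a → g e < m) (h2 : ∀ e e', s e = a → s e' = a → g e = g e' → e = e') :
    Nat.card {e // s e = a} ≤ m := by
  have := Nat.card_le_card_of_injective
    (fun e : {e // s e = a} => (⟨g e.1, h1 e.1 e.2⟩ : Fin m)) (by
      intro e e' h
      exact Subtype.ext (h2 e.1 e'.1 e.2 e'.2 (congrArg Fin.val h)))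
  simpa using this

theorem card_sig (n : ℕ) (x : ℕ → ℕ) (k : ℕ) (hk : k ≤ n) :
    ((Finset.univ : Finset (Σ i : Fin n, Fin (x i))).filter (fun e => (e.1 : ℕ) < k)).card =
      ∑ j ∈ range k, x j := by
  have h1 : ((Finset.univ : Finset (Σ i : Fin n, Fin (x i))).filter (fun e => (e.1 : ℕ) < k)) =
      ((Finset.univ : Finset (Fin n)).filter (fun i : Fin n => (i : ℕ) < k)).sigma
        (fun i => (Finset.univ : Finset (Fin (x i)))) := by
    ext e
    simp
  rw [h1, Finset.card_sigma]
  simp only [Finset.card_univ, Fintype.card_fin]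
  rw [Finset.sum_filter, Fin.sum_univ_eq_sum_range (fun i => if i < k then x i else 0) n,
    ← Finset.sum_filter]
  congr 1
  ext i
  simp only [Finset.mem_filter, Finset.mem_range]
  omega

theorem card_sig' (n : ℕ) (x : ℕ → ℕ) :
    Fintype.card (Σ i : Fin n, Fin (x i)) = ∑ j ∈ range n, x j := by
  rw [Fintype.card_sigma]
  simp only [Fintype.card_fin]
  exact Fin.sum_univ_eq_sum_range (fun i => x i) n

/-- the cells of the diagram with `p` rows of length `b + d` and then `q` rows of length `b` -/
def hook (p q b d : ℕ) : Finset (ℕ × ℕ) :=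
  ((range (p + q)) ×ˢ (range (b + d))).filter (fun x => x.1 < p ∨ x.2 < b)

theorem mem_hook (p q b d : ℕ) (x : ℕ × ℕ) :
    x ∈ hook p q b d ↔ x.1 < p + q ∧ x.2 < b + d ∧ (x.1 < p ∨ x.2 < b) := by
  unfold hook
  rw [Finset.mem_filter, Finset.mem_product, Finset.mem_range, Finset.mem_range]
  tauto

theorem card_hook_le (p q b d : ℕ) : (hook p q b d).card ≤ p * d + (p * b + q * b) := by
  have h1 : hook p q b d ⊆ ((range p) ×ˢ (Ico b (b + d))) ∪
      (((range p) ×ˢ (range b)) ∪ ((Ico p (p + q)) ×ˢ (range b))) := by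
    intro x hx
    rw [mem_hook] at hx
    simp only [Finset.mem_union, Finset.mem_product, Finset.mem_range, Finset.mem_Ico]
    omega
  refine le_trans (Finset.card_le_card h1) ?_
  refine le_trans (Finset.card_union_le _ _) ?_
  refine Nat.add_le_add ?_ (le_trans (Finset.card_union_le _ _) ?_)
  · simp
  · simp

theorem fill (p q b d n : ℕ) (x y z : ℕ → ℕ) (hxy : ∀ k < n, x k + y k ≤ p)
    (hz : ∀ k < n, z k ≤ q) (hyz : ∀ k < n, y k + z k ≤ b) (hx : ∀ k < n, x k ≤ d)
    (Sx : ∑ k ∈ range n, x k = p * d) (Sy : ∑ k ∈ range n, y k = p * b)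
    (Sz : ∑ k ∈ range n, z k = q * b) :
    ∃ c : ℕ × ℕ → ℕ,
      (∀ u ∈ hook p q b d, ∀ v ∈ hook p q b d, u ≠ v → (u.1 = v.1 ∨ u.2 = v.2) → c u ≠ c v) ∧
      (∀ u ∈ hook p q b d, c u < n) ∧
      ∀ k ≤ n, ((hook p q b d).filter (fun u => c u < k)).card =
        ∑ j ∈ range k, x j + (∑ j ∈ range k, y j + ∑ j ∈ range k, z j) := by
  classical
  let EX : Type := Σ k : Fin n, Fin (x k)
  let EY : Type := Σ k : Fin n, Fin (y k)
  let EZ : Type := Σ k : Fin n, Fin (z k)
  let eX : EX ≃ Fin d × Fin p := Fintype.equivOfCardEq (by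
    rw [card_sig' n x, Sx]; simp [mul_comm])
  let eY : EY ≃ Fin b × Fin p := Fintype.equivOfCardEq (by
    rw [card_sig' n y, Sy]; simp [mul_comm])
  let eZ : EZ ≃ Fin b × Fin q := Fintype.equivOfCardEq (by
    rw [card_sig' n z, Sz]; simp [mul_comm])
  -- rows of the first group
  obtain ⟨c1, hc1s, hc1t⟩ := koenig_le (E := EX ⊕ EY) (A := Fin n) (B := Fin d ⊕ Fin b)
    (Sum.elim (fun e => e.1) (fun e => e.1))
    (Sum.elim (fun e => Sum.inl (eX e).1) (fun e => Sum.inr (eY e).1)) p
    (by
      intro a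
      refine fiber_le _ a p (Sum.elim (fun e => (e.2 : ℕ)) (fun e => x e.1 + (e.2 : ℕ))) ?_ ?_
      · rintro (⟨k, i⟩ | ⟨k, i⟩) h
        · have := hxy k k.2
          have := i.2
          simp only [Sum.elim_inl]
          omega
        · have := hxy k k.2
          have := i.2
          simp only [Sum.elim_inr]
          omega
      · rintro (⟨k, i⟩ | ⟨k, i⟩) (⟨k', i'⟩ | ⟨k', i'⟩) h h' hg
        · simp only [Sum.elim_inl] at h h' hg
          subst h
          subst h'
          rw [Fin.ext hg]
        · simp only [Sum.elim_inl, Sum.elim_inr] at h h' hg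
          subst h
          subst h'
          have := i.2
          omega
        · simp only [Sum.elim_inl, Sum.elim_inr] at h h' hg
          subst h
          subst h'
          have := i'.2
          omega
        · simp only [Sum.elim_inr] at h h' hg
          subst h
          subst h'
          have : i = i' := Fin.ext (by omega)
          rw [this])
    (by
      intro v
      refine fiber_le _ v p (Sum.elim (fun e => ((eX e).2 : ℕ)) (fun e => ((eY e).2 : ℕ))) ?_ ?_
      · rintro (e | e) h
        · exact (eX e).2.2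
        · exact (eY e).2.2
      · rintro (e | e) (e' | e') h h' hg
        · simp only [Sum.elim_inl] at h h' hg
          rw [← h'] at h
          have h3 := Sum.inl_injective h
          rw [eX.injective (Prod.ext h3 (Fin.ext hg))]
        · simp only [Sum.elim_inl, Sum.elim_inr] at h h'
          rw [← h'] at h
          exact absurd h (by simp)
        · simp only [Sum.elim_inl, Sum.elim_inr] at h h'
          rw [← h'] at h
          exact absurd h (by simp)
        · simp only [Sum.elim_inr] at h h' hg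
          rw [← h'] at h
          have h3 := Sum.inr_injective h
          rw [eY.injective (Prod.ext h3 (Fin.ext hg))])
  -- rows of the second group
  obtain ⟨c2, hc2s, hc2t⟩ := koenig_le (E := EZ) (A := Fin n) (B := Fin b)
    (fun e => e.1) (fun e => (eZ e).1) q
    (by
      intro a
      refine fiber_le _ a q (fun e => (e.2 : ℕ)) ?_ ?_
      · rintro ⟨k, i⟩ h
        have := hz k k.2
        have := i.2
        show (i : ℕ) < q
        omega
      · rintro ⟨k, i⟩ ⟨k', i'⟩ h h' hg
        simp only at h h' hg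
        subst h
        subst h'
        rw [Fin.ext hg])
    (by
      intro v
      refine fiber_le _ v q (fun e => ((eZ e).2 : ℕ)) (fun e _ => (eZ e).2.2) ?_
      intro e e' h h' hg
      exact eZ.injective (Prod.ext (h.trans h'.symm) (Fin.ext hg)))
  -- columns of the first group
  obtain ⟨c3, hc3s, hc3t⟩ := koenig_le (E := EY ⊕ EZ) (A := Fin p ⊕ Fin q) (B := Fin n)
    (Sum.elim (fun e => Sum.inl (c1 (Sum.inr e))) (fun e => Sum.inr (c2 e)))
    (Sum.elim (fun e => e.1) (fun e => e.1)) b
    (by
      intro v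
      refine fiber_le _ v b (Sum.elim (fun e => ((eY e).1 : ℕ)) (fun e => ((eZ e).1 : ℕ))) ?_ ?_
      · rintro (e | e) h
        · exact (eY e).1.2
        · exact (eZ e).1.2
      · rintro (e | e) (e' | e') h h' hg
        · simp only [Sum.elim_inl] at h h' hg
          rw [← h'] at h
          have h3 := Sum.inl_injective h
          have h4 := hc1t (Sum.inr e) (Sum.inr e') (by
            simp only [Sum.elim_inr]; rw [Fin.ext hg]) h3
          rw [Sum.inr_injective h4]
        · simp only [Sum.elim_inl, Sum.elim_inr] at h h'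
          rw [← h'] at h
          exact absurd h (by simp)
        · simp only [Sum.elim_inl, Sum.elim_inr] at h h'
          rw [← h'] at h
          exact absurd h (by simp)
        · simp only [Sum.elim_inr] at h h' hg
          rw [← h'] at h
          have h3 := Sum.inr_injective h
          have h4 := hc2t e e' (Fin.ext hg) h3
          rw [h4])
    (by
      intro a
      refine fiber_le _ a b (Sum.elim (fun e => (e.2 : ℕ)) (fun e => y e.1 + (e.2 : ℕ))) ?_ ?_
      · rintro (⟨k, i⟩ | ⟨k, i⟩) h
        · have := hyz k k.2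
          have := i.2
          simp only [Sum.elim_inl]
          omega
        · have := hyz k k.2
          have := i.2
          simp only [Sum.elim_inr]
          omega
      · rintro (⟨k, i⟩ | ⟨k, i⟩) (⟨k', i'⟩ | ⟨k', i'⟩) h h' hg
        · simp only [Sum.elim_inl] at h h' hg
          subst h
          subst h'
          rw [Fin.ext hg]
        · simp only [Sum.elim_inl, Sum.elim_inr] at h h' hg
          subst h
          subst h'
          have := i.2
          omega
        · simp only [Sum.elim_inl, Sum.elim_inr] at h h' hg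
          subst h
          subst h'
          have := i'.2
          omega
        · simp only [Sum.elim_inr] at h h' hg
          subst h
          subst h'
          have : i = i' := Fin.ext (by omega)
          rw [this])
  -- columns of the second group
  obtain ⟨c4, hc4s, hc4t⟩ := koenig_le (E := EX) (A := Fin p) (B := Fin n)
    (fun e => c1 (Sum.inl e)) (fun e => e.1) d
    (by
      intro v
      refine fiber_le _ v d (fun e => ((eX e).1 : ℕ)) (fun e _ => (eX e).1.2) ?_
      intro e e' h h' hg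
      have h4 := hc1t (Sum.inl e) (Sum.inl e') (by
        simp only [Sum.elim_inl]; rw [Fin.ext hg]) (h.trans h'.symm)
      exact Sum.inl_injective h4)
    (by
      intro a
      refine fiber_le _ a d (fun e => (e.2 : ℕ)) ?_ ?_
      · rintro ⟨k, i⟩ h
        have := hx k k.2
        have := i.2
        show (i : ℕ) < d
        omega
      · rintro ⟨k, i⟩ ⟨k', i'⟩ h h' hg
        simp only at h h' hg
        subst h
        subst h'
        rw [Fin.ext hg])
  -- the cells
  let cell : EX ⊕ (EY ⊕ EZ) → ℕ × ℕ := Sum.elim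
    (fun e => ((c1 (Sum.inl e) : ℕ), b + (c4 e : ℕ)))
    (Sum.elim (fun e => ((c1 (Sum.inr e) : ℕ), (c3 (Sum.inl e) : ℕ)))
      (fun e => (p + (c2 e : ℕ), (c3 (Sum.inr e) : ℕ))))
  let col : EX ⊕ (EY ⊕ EZ) → ℕ := Sum.elim (fun e => (e.1 : ℕ))
    (Sum.elim (fun e => (e.1 : ℕ)) (fun e => (e.1 : ℕ)))
  have hrow : ∀ e e', (cell e).1 = (cell e').1 → col e = col e' → e = e' := by
    rintro (e | e | e) (e' | e' | e') h h'
    · have := hc1s (Sum.inl e) (Sum.inl e') (Fin.ext h') (Fin.ext h)
      rw [Sum.inl_injective this]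
    · have := hc1s (Sum.inl e) (Sum.inr e') (Fin.ext h') (Fin.ext h)
      exact absurd this (by simp)
    · exfalso
      have h1 : ((c1 (Sum.inl e) : ℕ)) = p + (c2 e' : ℕ) := h
      have := (c1 (Sum.inl e)).2
      omega
    · have := hc1s (Sum.inr e) (Sum.inl e') (Fin.ext h') (Fin.ext h)
      exact absurd this (by simp)
    · have := hc1s (Sum.inr e) (Sum.inr e') (Fin.ext h') (Fin.ext h)
      rw [Sum.inr_injective this]
    · exfalso
      have h1 : ((c1 (Sum.inr e) : ℕ)) = p + (c2 e' : ℕ) := h
      have := (c1 (Sum.inr e)).2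
      omega
    · exfalso
      have h1 : p + (c2 e : ℕ) = ((c1 (Sum.inl e') : ℕ)) := h
      have := (c1 (Sum.inl e')).2
      omega
    · exfalso
      have h1 : p + (c2 e : ℕ) = ((c1 (Sum.inr e') : ℕ)) := h
      have := (c1 (Sum.inr e')).2
      omega
    · have h1 : p + (c2 e : ℕ) = p + (c2 e' : ℕ) := h
      have := hc2s e e' (Fin.ext h') (Fin.ext (by omega))
      rw [this]
  have hcol : ∀ e e', (cell e).2 = (cell e').2 → col e = col e' → e = e' := by
    rintro (e | e | e) (e' | e' | e') h h'
    · have h1 : b + (c4 e : ℕ) = b + (c4 e' : ℕ) := h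
      have := hc4t e e' (Fin.ext h') (Fin.ext (by omega))
      rw [this]
    · exfalso
      have h1 : b + (c4 e : ℕ) = (c3 (Sum.inl e') : ℕ) := h
      have := (c3 (Sum.inl e')).2
      omega
    · exfalso
      have h1 : b + (c4 e : ℕ) = (c3 (Sum.inr e') : ℕ) := h
      have := (c3 (Sum.inr e')).2
      omega
    · exfalso
      have h1 : (c3 (Sum.inl e) : ℕ) = b + (c4 e' : ℕ) := h
      have := (c3 (Sum.inl e)).2
      omega
    · have := hc3t (Sum.inl e) (Sum.inl e') (Fin.ext h') (Fin.ext h)
      rw [Sum.inl_injective this]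
    · have := hc3t (Sum.inl e) (Sum.inr e') (Fin.ext h') (Fin.ext h)
      exact absurd this (by simp)
    · exfalso
      have h1 : (c3 (Sum.inr e) : ℕ) = b + (c4 e' : ℕ) := h
      have := (c3 (Sum.inr e)).2
      omega
    · have := hc3t (Sum.inr e) (Sum.inl e') (Fin.ext h') (Fin.ext h)
      exact absurd this (by simp)
    · have := hc3t (Sum.inr e) (Sum.inr e') (Fin.ext h') (Fin.ext h)
      rw [Sum.inr_injective this]
  have hinj : Function.Injective cell := by
    rintro (e | e | e) (e' | e' | e') h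
    · have h1 : ((c1 (Sum.inl e) : ℕ)) = (c1 (Sum.inl e') : ℕ) := congrArg Prod.fst h
      have h2 : b + (c4 e : ℕ) = b + (c4 e' : ℕ) := congrArg Prod.snd h
      rw [hc4s e e' (Fin.ext h1) (Fin.ext (by omega))]
    · exfalso
      have h1 : b + (c4 e : ℕ) = (c3 (Sum.inl e') : ℕ) := congrArg Prod.snd h
      have := (c3 (Sum.inl e')).2
      omega
    · exfalso
      have h1 : b + (c4 e : ℕ) = (c3 (Sum.inr e') : ℕ) := congrArg Prod.snd h
      have := (c3 (Sum.inr e')).2
      omega
    · exfalso
      have h1 : (c3 (Sum.inl e) : ℕ) = b + (c4 e' : ℕ) := congrArg Prod.snd h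
      have := (c3 (Sum.inl e)).2
      omega
    · have h1 : ((c1 (Sum.inr e) : ℕ)) = (c1 (Sum.inr e') : ℕ) := congrArg Prod.fst h
      have h2 : (c3 (Sum.inl e) : ℕ) = (c3 (Sum.inl e') : ℕ) := congrArg Prod.snd h
      have := hc3s (Sum.inl e) (Sum.inl e') (by
        simp only [Sum.elim_inl]; rw [Fin.ext h1]) (Fin.ext h2)
      rw [Sum.inl_injective this]
    · exfalso
      have h1 : ((c1 (Sum.inr e) : ℕ)) = p + (c2 e' : ℕ) := congrArg Prod.fst h
      have := (c1 (Sum.inr e)).2
      omega
    · exfalso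
      have h1 : (c3 (Sum.inr e) : ℕ) = b + (c4 e' : ℕ) := congrArg Prod.snd h
      have := (c3 (Sum.inr e)).2
      omega
    · exfalso
      have h1 : p + (c2 e : ℕ) = ((c1 (Sum.inr e') : ℕ)) := congrArg Prod.fst h
      have := (c1 (Sum.inr e')).2
      omega
    · have h1 : p + (c2 e : ℕ) = p + (c2 e' : ℕ) := congrArg Prod.fst h
      have h2 : (c3 (Sum.inr e) : ℕ) = (c3 (Sum.inr e') : ℕ) := congrArg Prod.snd h
      have := hc3s (Sum.inr e) (Sum.inr e') (by
        simp only [Sum.elim_inr]
        have : c2 e = c2 e' := Fin.ext (by omega)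
        rw [this]) (Fin.ext h2)
      rw [Sum.inr_injective this]
  have hmem : ∀ e, cell e ∈ hook p q b d := by
    rintro (e | e | e)
    · rw [mem_hook]
      have h1 := (c1 (Sum.inl e)).2
      have h2 := (c4 e).2
      show (c1 (Sum.inl e) : ℕ) < p + q ∧ b + (c4 e : ℕ) < b + d ∧
        ((c1 (Sum.inl e) : ℕ) < p ∨ b + (c4 e : ℕ) < b)
      omega
    · rw [mem_hook]
      have h1 := (c1 (Sum.inr e)).2
      have h2 := (c3 (Sum.inl e)).2
      show (c1 (Sum.inr e) : ℕ) < p + q ∧ (c3 (Sum.inl e) : ℕ) < b + d ∧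
        ((c1 (Sum.inr e) : ℕ) < p ∨ (c3 (Sum.inl e) : ℕ) < b)
      omega
    · rw [mem_hook]
      have h1 := (c2 e).2
      have h2 := (c3 (Sum.inr e)).2
      show p + (c2 e : ℕ) < p + q ∧ (c3 (Sum.inr e) : ℕ) < b + d ∧
        (p + (c2 e : ℕ) < p ∨ (c3 (Sum.inr e) : ℕ) < b)
      omega
  have himg : (Finset.univ : Finset (EX ⊕ (EY ⊕ EZ))).image cell = hook p q b d := by
    refine Finset.eq_of_subset_of_card_le ?_ ?_
    · intro u hu
      rw [Finset.mem_image] at hu
      obtain ⟨e, _, rfl⟩ := hu
      exact hmem e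
    · rw [Finset.card_image_of_injective _ hinj, Finset.card_univ, Fintype.card_sum,
        Fintype.card_sum, card_sig' n x, card_sig' n y, card_sig' n z, Sx, Sy, Sz]
      exact card_hook_le p q b d
  have hsurj : ∀ u ∈ hook p q b d, ∃ e, cell e = u := by
    intro u hu
    rw [← himg, Finset.mem_image] at hu
    obtain ⟨e, _, he⟩ := hu
    exact ⟨e, he⟩
  let c : ℕ × ℕ → ℕ := fun u => if h : ∃ e, cell e = u then col h.choose else 0
  have hc : ∀ e, c (cell e) = col e := by
    intro e
    have h : ∃ e', cell e' = cell e := ⟨e, rfl⟩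
    show (if h : ∃ e', cell e' = cell e then col h.choose else 0) = col e
    rw [dif_pos h, hinj h.choose_spec]
  refine ⟨c, ?_, ?_, ?_⟩
  · intro u hu v hv huv hor hcuv
    obtain ⟨e, rfl⟩ := hsurj u hu
    obtain ⟨e', rfl⟩ := hsurj v hv
    rw [hc, hc] at hcuv
    rcases hor with h | h
    · exact huv (by rw [hrow e e' h hcuv])
    · exact huv (by rw [hcol e e' h hcuv])
  · intro u hu
    obtain ⟨e, rfl⟩ := hsurj u hu
    rw [hc]
    rcases e with e | e | e
    · exact e.1.2
    · exact e.1.2
    · exact e.1.2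
  · intro k hk
    have h1 : (hook p q b d).filter (fun u => c u < k) =
        ((Finset.univ : Finset (EX ⊕ (EY ⊕ EZ))).filter (fun e => col e < k)).image cell := by
      ext u
      rw [Finset.mem_filter, Finset.mem_image]
      constructor
      · rintro ⟨hu, h2⟩
        obtain ⟨e, rfl⟩ := hsurj u hu
        rw [hc] at h2
        exact ⟨e, Finset.mem_filter.2 ⟨Finset.mem_univ _, h2⟩, rfl⟩
      · rintro ⟨e, he, rfl⟩
        rw [Finset.mem_filter] at he
        exact ⟨hmem e, by rw [hc]; exact he.2⟩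
    rw [h1, Finset.card_image_of_injective _ hinj]
    rw [← card_sig n x k hk, ← card_sig n y k hk, ← card_sig n z k hk]
    simp only [Finset.card_filter]
    rw [Fintype.sum_sum_type, Fintype.sum_sum_type]
    rfl

end Pool.Agent.H997LT
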