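import Mathlib
import Pool.Agent.H997LT.Basic

set_option autoImplicit false

/-! Filling the outline of an arbitrary Young diagram. -/

open Finset

namespace Pool.Agent.H997LT

theorem koenig_le' {E S T : Type} [Fintype E] (s : E → S) (t : E → T)
    (m : ℕ) (hs : ∀ a, Nat.card {e // s e = a} ≤ m) (ht : ∀ b, Nat.card {e // t e = b} ≤ m) :
    ∃ c : E → Fin m, (∀ e e', s e = s e' → c e = c e' → e = e') ∧
      (∀ e e', t e = t e' → c e = c e' → e = e') := by
  classical
  haveI : Fintype (Set.range s) := Fintype.ofFinite _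
  haveI : Fintype (Set.range t) := Fintype.ofFinite _
  obtain ⟨c, h1, h2⟩ := koenig_le (A := Set.range s) (B := Set.range t)
    (fun e => ⟨s e, e, rfl⟩) (fun e => ⟨t e, e, rfl⟩) m
    (by
      intro a
      refine le_trans (le_of_eq (Nat.card_congr (Equiv.subtypeEquivRight ?_))) (hs a.1)
      intro e
      exact Subtype.ext_iff)
    (by
      intro a
      refine le_trans (le_of_eq (Nat.card_congr (Equiv.subtypeEquivRight ?_))) (ht a.1)
      intro e
      exact Subtype.ext_iff)
  exact ⟨c, fun e e' h => h1 e e' (Subtype.ext h), fun e e' h => h2 e e' (Subtype.ext h)⟩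

theorem koenig_family {E X S T : Type} [Fintype E] (g : E → X) (s : E → S) (t : E → T)
    (m : X → ℕ) (hs : ∀ x a, Nat.card {e // g e = x ∧ s e = a} ≤ m x)
    (ht : ∀ x b, Nat.card {e // g e = x ∧ t e = b} ≤ m x) :
    ∃ r : E → ℕ, (∀ e, r e < m (g e)) ∧
      (∀ e e', g e = g e' → s e = s e' → r e = r e' → e = e') ∧
      (∀ e e', g e = g e' → t e = t e' → r e = r e' → e = e') := by
  classical
  have h : ∀ x : X, ∃ c : {e // g e = x} → Fin (m x),
      (∀ e e', s e.1 = s e'.1 → c e = c e' → e = e') ∧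
      (∀ e e', t e.1 = t e'.1 → c e = c e' → e = e') := by
    intro x
    refine koenig_le' (fun e : {e // g e = x} => s e.1) (fun e => t e.1) (m x) ?_ ?_
    · intro a
      refine le_trans (Nat.card_le_card_of_injective
        (fun e : {e : {e // g e = x} // s e.1 = a} =>
          (⟨e.1.1, e.1.2, e.2⟩ : {e // g e = x ∧ s e = a})) ?_) (hs x a)
      intro e e' h
      exact Subtype.ext (Subtype.ext (congrArg (fun z => z.1) h))
    · intro a
      refine le_trans (Nat.card_le_card_of_injective
        (fun e : {e : {e // g e = x} // t e.1 = a} =>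
          (⟨e.1.1, e.1.2, e.2⟩ : {e // g e = x ∧ t e = a})) ?_) (ht x a)
      intro e e' h
      exact Subtype.ext (Subtype.ext (congrArg (fun z => z.1) h))
  choose c hc1 hc2 using h
  have key : ∀ x e (h : g e = x), ((c (g e) ⟨e, rfl⟩ : Fin (m (g e))) : ℕ) = (c x ⟨e, h⟩ : ℕ) := by
    rintro x e rfl
    rfl
  refine ⟨fun e => (c (g e) ⟨e, rfl⟩ : ℕ), fun e => (c (g e) ⟨e, rfl⟩).2, ?_, ?_⟩
  · intro e e' h1 h2 h3
    have h4 : ((c (g e') ⟨e, h1⟩ : Fin _) : ℕ) = (c (g e') ⟨e', rfl⟩ : ℕ) := by
      rw [← key (g e') e h1]; exact h3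
    exact congrArg Subtype.val (hc1 (g e') ⟨e, h1⟩ ⟨e', rfl⟩ h2 (Fin.ext h4))
  · intro e e' h1 h2 h3
    have h4 : ((c (g e') ⟨e, h1⟩ : Fin _) : ℕ) = (c (g e') ⟨e', rfl⟩ : ℕ) := by
      rw [← key (g e') e h1]; exact h3
    exact congrArg Subtype.val (hc2 (g e') ⟨e, h1⟩ ⟨e', rfl⟩ h2 (Fin.ext h4))

/-- offsets -/
def off (p : ℕ → ℕ) (i : ℕ) : ℕ := ∑ j ∈ range i, p j

theorem off_succ (p : ℕ → ℕ) (i : ℕ) : off p (i + 1) = off p i + p i := Finset.sum_range_succ p i

theorem off_mono (p : ℕ → ℕ) {i j : ℕ} (h : i ≤ j) : off p i ≤ off p j :=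
  Finset.sum_le_sum_of_subset (fun x hx => Finset.mem_range.2
    (lt_of_lt_of_le (Finset.mem_range.1 hx) h))

theorem off_inj (p : ℕ → ℕ) {i i' r r' : ℕ} (hr : r < p i) (hr' : r' < p i')
    (h : off p i + r = off p i' + r') : i = i' ∧ r = r' := by
  rcases lt_trichotomy i i' with h1 | h1 | h1
  · have := off_mono p (show i + 1 ≤ i' from h1)
    rw [off_succ] at this
    omega
  · subst h1
    exact ⟨rfl, by omega⟩
  · have := off_mono p (show i' + 1 ≤ i from h1)
    rw [off_succ] at this
    omega

/-- the diagram with row groups of sizes `p 0, …, p (m-1)` and column groups of sizes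
`c 0, …, c (m-1)`, row group `i` meeting the column groups `j` with `i + j < m` -/
def diag (m : ℕ) (p c : ℕ → ℕ) : Finset (ℕ × ℕ) :=
  (((range m) ×ˢ (range m)).filter (fun u => u.1 + u.2 < m)).biUnion
    (fun u => (Ico (off p u.1) (off p (u.1 + 1))) ×ˢ (Ico (off c u.2) (off c (u.2 + 1))))

theorem card_diag_le (m : ℕ) (p c : ℕ → ℕ) : (diag m p c).card ≤
    ∑ u ∈ ((range m) ×ˢ (range m)).filter (fun u => u.1 + u.2 < m), p u.1 * c u.2 := by
  refine le_trans Finset.card_biUnion_le (Finset.sum_le_sum ?_)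
  intro u _
  rw [Finset.card_product, Nat.card_Ico, Nat.card_Ico, off_succ, off_succ]
  simp

theorem card_sigma_filter {T : Type} [Fintype T] (N : T → ℕ) (P : T → Prop) [DecidablePred P] :
    ((Finset.univ : Finset (Σ t : T, Fin (N t))).filter (fun e => P e.1)).card =
      ∑ t ∈ (Finset.univ : Finset T).filter P, N t := by
  have h1 : ((Finset.univ : Finset (Σ t : T, Fin (N t))).filter (fun e => P e.1)) =
      ((Finset.univ : Finset T).filter P).sigma (fun t => (Finset.univ : Finset (Fin (N t)))) := by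
    ext e
    simp
  rw [h1, Finset.card_sigma]
  simp only [Finset.card_univ, Fintype.card_fin]

theorem fillG (m K : ℕ) (p c : ℕ → ℕ) (N : ℕ → ℕ → ℕ → ℕ)
    (h0 : ∀ k i j, m ≤ i + j → N k i j = 0)
    (h1 : ∀ k < K, ∀ i < m, ∑ j ∈ range m, N k i j ≤ p i)
    (h2 : ∀ k < K, ∀ j < m, ∑ i ∈ range m, N k i j ≤ c j)
    (h3 : ∀ i j, i + j < m → ∑ k ∈ range K, N k i j = p i * c j) :
    ∃ f : ℕ × ℕ → ℕ,
      (∀ u ∈ diag m p c, ∀ v ∈ diag m p c, u ≠ v → (u.1 = v.1 ∨ u.2 = v.2) → f u ≠ f v) ∧
      (∀ u ∈ diag m p c, f u < K) ∧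
      ∀ k ≤ K, ((diag m p c).filter (fun u => f u < k)).card =
        ∑ l ∈ range k, ∑ i ∈ range m, ∑ j ∈ range m, N l i j := by
  classical
  let T : Type := Fin K × Fin m × Fin m
  let E : Type := Σ t : T, Fin (N t.1 t.2.1 t.2.2)
  let col : E → ℕ := fun e => e.1.1
  let I : E → ℕ := fun e => e.1.2.1
  let J : E → ℕ := fun e => e.1.2.2
  -- sums over `T`
  have hsum : ∀ (F : ℕ → ℕ → ℕ → ℕ), ∑ t : T, F t.1 t.2.1 t.2.2 =
      ∑ l ∈ range K, ∑ i ∈ range m, ∑ j ∈ range m, F l i j := by
    intro F
    show ∑ t : Fin K × Fin m × Fin m, F t.1 t.2.1 t.2.2 = _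
    rw [Fintype.sum_prod_type]
    rw [← Fin.sum_univ_eq_sum_range (fun l => ∑ i ∈ range m, ∑ j ∈ range m, F l i j) K]
    refine Finset.sum_congr rfl (fun l _ => ?_)
    rw [Fintype.sum_prod_type]
    rw [← Fin.sum_univ_eq_sum_range (fun i => ∑ j ∈ range m, F l i j) m]
    refine Finset.sum_congr rfl (fun i _ => ?_)
    exact Fin.sum_univ_eq_sum_range (fun j => F l i j) m
  have hcard : ∀ (P : ℕ → ℕ → ℕ → Prop) [∀ a b c, Decidable (P a b c)],
      ((Finset.univ : Finset E).filter (fun e => P (col e) (I e) (J e))).card =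
      ∑ l ∈ range K, ∑ i ∈ range m, ∑ j ∈ range m, if P l i j then N l i j else 0 := by
    intro P _
    have := card_sigma_filter (T := T) (fun t => N t.1 t.2.1 t.2.2)
      (fun t => P t.1 t.2.1 t.2.2)
    rw [← hsum (fun l i j => if P l i j then N l i j else 0), ← Finset.sum_filter]
    exact this
  have hnc : ∀ (P : ℕ → ℕ → ℕ → Prop) [∀ a b c, Decidable (P a b c)],
      Nat.card {e : E // P (col e) (I e) (J e)} =
      ∑ l ∈ range K, ∑ i ∈ range m, ∑ j ∈ range m, if P l i j then N l i j else 0 := by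
    intro P _
    rw [← hcard P, Nat.card_eq_fintype_card, Fintype.card_subtype]
  -- a labelling of the entries of each block
  have hAB : ∀ x : ℕ × ℕ, ∃ g : {e : E // I e = x.1 ∧ J e = x.2} → Fin (p x.1) × Fin (c x.2),
      Function.Injective g := by
    rintro ⟨i, j⟩
    by_cases hij : i + j < m
    · have h4 : Fintype.card {e : E // I e = i ∧ J e = j} ≤
          Fintype.card (Fin (p i) × Fin (c j)) := by
        rw [← Nat.card_eq_fintype_card, hnc (fun _ a b => a = i ∧ b = j)]
        rw [Fintype.card_prod, Fintype.card_fin, Fintype.card_fin, ← h3 i j hij]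
        refine Finset.sum_le_sum (fun l _ => ?_)
        have : ∀ a ∈ range m, (∑ b ∈ range m, if a = i ∧ b = j then N l a b else 0) =
            if a = i then N l i j else 0 := by
          intro a _
          by_cases ha : a = i
          · subst ha
            simp only [true_and]
            rw [Finset.sum_ite_eq' (range m) j (fun b => N l a b),
              if_pos (Finset.mem_range.2 (by omega))]
            simp
          · simp [ha]
        rw [Finset.sum_congr rfl this, Finset.sum_ite_eq' (range m) i (fun _ => N l i j),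
          if_pos (Finset.mem_range.2 (by omega))]
      obtain ⟨g⟩ := Function.Embedding.nonempty_of_card_le h4
      exact ⟨g, g.injective⟩
    · refine ⟨fun e => absurd e.1.2.2 (by
        have h5 : N e.1.1.1 e.1.1.2.1 e.1.1.2.2 = 0 := by
          refine h0 _ _ _ ?_
          have e1 : ((e.1.1.2.1 : Fin m) : ℕ) = i := e.2.1
          have e2 : ((e.1.1.2.2 : Fin m) : ℕ) = j := e.2.2
          rw [e1, e2]
          omega
        omega), ?_⟩
      intro e
      exact absurd e.1.2.2 (by
        have h5 : N e.1.1.1 e.1.1.2.1 e.1.1.2.2 = 0 := by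
          refine h0 _ _ _ ?_
          have e1 : ((e.1.1.2.1 : Fin m) : ℕ) = i := e.2.1
          have e2 : ((e.1.1.2.2 : Fin m) : ℕ) = j := e.2.2
          rw [e1, e2]
          omega
        omega)
  choose g hg using hAB
  let B : E → ℕ := fun e => ((g (I e, J e) ⟨e, rfl, rfl⟩).1 : ℕ)
  let A : E → ℕ := fun e => ((g (I e, J e) ⟨e, rfl, rfl⟩).2 : ℕ)
  have hB : ∀ e, B e < p (I e) := fun e => (g (I e, J e) ⟨e, rfl, rfl⟩).1.2
  have hA : ∀ e, A e < c (J e) := fun e => (g (I e, J e) ⟨e, rfl, rfl⟩).2.2
  have hgen : ∀ e e', I e = I e' → J e = J e' → B e = B e' → A e = A e' → e = e' := by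
    have key : ∀ (i j : ℕ) (e : E) (h : I e = i ∧ J e = j),
        B e = ((g (i, j) ⟨e, h⟩).1 : ℕ) ∧ A e = ((g (i, j) ⟨e, h⟩).2 : ℕ) := by
      rintro i j e ⟨rfl, rfl⟩
      exact ⟨rfl, rfl⟩
    intro e e' hI hJ hBB hAA
    obtain ⟨k1, k2⟩ := key (I e') (J e') e ⟨hI, hJ⟩
    obtain ⟨k3, k4⟩ := key (I e') (J e') e' ⟨rfl, rfl⟩
    have h5 := hg (I e', J e') (a₁ := ⟨e, hI, hJ⟩) (a₂ := ⟨e', rfl, rfl⟩)
      (Prod.ext (Fin.ext (by rw [← k1, ← k3, hBB])) (Fin.ext (by rw [← k2, ← k4, hAA])))
    exact congrArg Subtype.val h5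
  have hI : ∀ e, I e < m := fun e => e.1.2.1.2
  have hJ : ∀ e, J e < m := fun e => e.1.2.2.2
  have hcolK : ∀ e, col e < K := fun e => e.1.1.2
  have hIJ : ∀ e, I e + J e < m := by
    intro e
    by_contra hcon
    have h5 : N e.1.1 e.1.2.1 e.1.2.2 = 0 := h0 _ _ _ (by
      show m ≤ I e + J e
      omega)
    have := e.2.2
    omega
  -- rows
  obtain ⟨r, hr0, hr1, hr2⟩ := koenig_family I col (fun e => (J e, A e)) p
    (by
      intro i k
      rw [hnc (fun l a _ => a = i ∧ l = k)]
      by_cases hik : i < m ∧ k < K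
      · refine le_trans (le_of_eq ?_) (h1 k hik.2 i hik.1)
        have : ∀ l ∈ range K, (∑ a ∈ range m, ∑ b ∈ range m,
            if a = i ∧ l = k then N l a b else 0) =
            if l = k then ∑ b ∈ range m, N k i b else 0 := by
          intro l _
          by_cases hl : l = k
          · subst hl
            simp only [and_true, if_true]
            have h6 : ∀ a ∈ range m, (∑ b ∈ range m, if a = i then N l a b else 0) =
                if a = i then ∑ b ∈ range m, N l i b else 0 := by
              intro a _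
              by_cases ha : a = i
              · subst ha; simp
              · simp [ha]
            rw [Finset.sum_congr rfl h6, Finset.sum_ite_eq' (range m) i
              (fun _ => ∑ b ∈ range m, N l i b), if_pos (Finset.mem_range.2 hik.1)]
          · simp [hl]
        rw [Finset.sum_congr rfl this, Finset.sum_ite_eq' (range K) k
          (fun _ => ∑ b ∈ range m, N k i b), if_pos (Finset.mem_range.2 hik.2)]
      · refine le_trans (le_of_eq ?_) (Nat.zero_le _)
        refine Finset.sum_eq_zero (fun l hl => Finset.sum_eq_zero (fun a ha =>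
          Finset.sum_eq_zero (fun b _ => ?_)))
        rw [if_neg]
        rintro ⟨h7, h8⟩
        exact hik ⟨h7 ▸ Finset.mem_range.1 ha, h8 ▸ Finset.mem_range.1 hl⟩)
    (by
      rintro i ⟨j, a⟩
      have := Nat.card_le_card_of_injective
        (fun e : {e // I e = i ∧ (J e, A e) = (j, a)} =>
          (⟨B e.1, by have := hB e.1; rw [e.2.1] at this; exact this⟩ : Fin (p i))) (by
          intro e e' h
          have h1 : B e.1 = B e'.1 := congrArg Fin.val h
          have h2 := e.2.2.trans e'.2.2.symm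
          have h3 : J e.1 = J e'.1 := congrArg Prod.fst h2
          have h4 : A e.1 = A e'.1 := congrArg Prod.snd h2
          exact Subtype.ext (hgen _ _ (e.2.1.trans e'.2.1.symm) h3 h1 h4))
      simpa using this)
  let row : E → ℕ := fun e => off p (I e) + r e
  have hrow : ∀ e e', row e = row e' → I e = I e' ∧ r e = r e' :=
    fun e e' h => off_inj p (hr0 e) (hr0 e') h
  -- columns
  obtain ⟨q, hq0, hq1, hq2⟩ := koenig_family J row col c
    (by
      intro j a
      have := Nat.card_le_card_of_injective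
        (fun e : {e // J e = j ∧ row e = a} =>
          (⟨A e.1, by have := hA e.1; rw [e.2.1] at this; exact this⟩ : Fin (c j))) (by
          intro e e' h
          have h1 : A e.1 = A e'.1 := congrArg Fin.val h
          obtain ⟨h2, h3⟩ := hrow _ _ (e.2.2.trans e'.2.2.symm)
          have h4 : J e.1 = J e'.1 := e.2.1.trans e'.2.1.symm
          exact Subtype.ext (hr2 _ _ h2 (by rw [h4, h1]) h3))
      simpa using this)
    (by
      intro j k
      rw [hnc (fun l _ b => b = j ∧ l = k)]
      by_cases hjk : j < m ∧ k < K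
      · refine le_trans (le_of_eq ?_) (h2 k hjk.2 j hjk.1)
        have : ∀ l ∈ range K, (∑ a ∈ range m, ∑ b ∈ range m,
            if b = j ∧ l = k then N l a b else 0) =
            if l = k then ∑ a ∈ range m, N k a j else 0 := by
          intro l _
          by_cases hl : l = k
          · subst hl
            simp only [and_true, if_true]
            refine Finset.sum_congr rfl (fun a _ => ?_)
            rw [Finset.sum_ite_eq' (range m) j (fun b => N l a b),
              if_pos (Finset.mem_range.2 hjk.1)]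
          · simp [hl]
        rw [Finset.sum_congr rfl this, Finset.sum_ite_eq' (range K) k
          (fun _ => ∑ a ∈ range m, N k a j), if_pos (Finset.mem_range.2 hjk.2)]
      · refine le_trans (le_of_eq ?_) (Nat.zero_le _)
        refine Finset.sum_eq_zero (fun l hl => Finset.sum_eq_zero (fun a _ =>
          Finset.sum_eq_zero (fun b hb => ?_)))
        rw [if_neg]
        rintro ⟨h7, h8⟩
        exact hjk ⟨h7 ▸ Finset.mem_range.1 hb, h8 ▸ Finset.mem_range.1 hl⟩)
  let cl : E → ℕ := fun e => off c (J e) + q e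
  have hcl : ∀ e e', cl e = cl e' → J e = J e' ∧ q e = q e' :=
    fun e e' h => off_inj c (hq0 e) (hq0 e') h
  let cell : E → ℕ × ℕ := fun e => (row e, cl e)
  have hinj : Function.Injective cell := by
    intro e e' h
    have h5 : row e = row e' := congrArg Prod.fst h
    have h6 : cl e = cl e' := congrArg Prod.snd h
    obtain ⟨h7, h8⟩ := hcl e e' h6
    exact hq1 e e' h7 h5 h8
  have hmem : ∀ e, cell e ∈ diag m p c := by
    intro e
    unfold diag
    rw [Finset.mem_biUnion]
    refine ⟨(I e, J e), ?_, ?_⟩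
    · rw [Finset.mem_filter, Finset.mem_product, Finset.mem_range, Finset.mem_range]
      exact ⟨⟨hI e, hJ e⟩, hIJ e⟩
    · rw [Finset.mem_product, Finset.mem_Ico, Finset.mem_Ico, off_succ, off_succ]
      have := hr0 e
      have := hq0 e
      show (off p (I e) ≤ off p (I e) + r e ∧ off p (I e) + r e < off p (I e) + p (I e)) ∧
        (off c (J e) ≤ off c (J e) + q e ∧ off c (J e) + q e < off c (J e) + c (J e))
      omega
  have hcardE : Fintype.card E = ∑ u ∈ ((range m) ×ˢ (range m)).filter (fun u => u.1 + u.2 < m),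
      p u.1 * c u.2 := by
    have h5 := hcard (fun _ _ _ => True)
    simp only [Finset.filter_true, if_true] at h5
    rw [← Finset.card_univ, h5, Finset.sum_filter, Finset.sum_product]
    rw [Finset.sum_comm]
    refine Finset.sum_congr rfl (fun i hi => ?_)
    rw [Finset.sum_comm]
    refine Finset.sum_congr rfl (fun j hj => ?_)
    by_cases hij : i + j < m
    · rw [if_pos hij]
      exact h3 i j hij
    · rw [if_neg hij]
      exact Finset.sum_eq_zero (fun l _ => h0 l i j (by omega))
  have himg : (Finset.univ : Finset E).image cell = diag m p c := by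
    refine Finset.eq_of_subset_of_card_le ?_ ?_
    · intro u hu
      rw [Finset.mem_image] at hu
      obtain ⟨e, _, rfl⟩ := hu
      exact hmem e
    · rw [Finset.card_image_of_injective _ hinj, Finset.card_univ, hcardE]
      exact card_diag_le m p c
  have hsurj : ∀ u ∈ diag m p c, ∃ e, cell e = u := by
    intro u hu
    rw [← himg, Finset.mem_image] at hu
    obtain ⟨e, _, he⟩ := hu
    exact ⟨e, he⟩
  let f : ℕ × ℕ → ℕ := fun u => if h : ∃ e, cell e = u then col h.choose else 0
  have hf : ∀ e, f (cell e) = col e := by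
    intro e
    have h : ∃ e', cell e' = cell e := ⟨e, rfl⟩
    show (if h : ∃ e', cell e' = cell e then col h.choose else 0) = col e
    rw [dif_pos h, hinj h.choose_spec]
  refine ⟨f, ?_, ?_, ?_⟩
  · intro u hu v hv huv hor hcuv
    obtain ⟨e, rfl⟩ := hsurj u hu
    obtain ⟨e', rfl⟩ := hsurj v hv
    rw [hf, hf] at hcuv
    rcases hor with h | h
    · obtain ⟨h5, h6⟩ := hrow e e' h
      exact huv (by rw [hr1 e e' h5 hcuv h6])
    · obtain ⟨h5, h6⟩ := hcl e e' h
      exact huv (by rw [hq2 e e' h5 hcuv h6])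
  · intro u hu
    obtain ⟨e, rfl⟩ := hsurj u hu
    rw [hf]
    exact hcolK e
  · intro k hk
    have h5 : (diag m p c).filter (fun u => f u < k) =
        ((Finset.univ : Finset E).filter (fun e => col e < k)).image cell := by
      ext u
      rw [Finset.mem_filter, Finset.mem_image]
      constructor
      · rintro ⟨hu, h2⟩
        obtain ⟨e, rfl⟩ := hsurj u hu
        rw [hf] at h2
        exact ⟨e, Finset.mem_filter.2 ⟨Finset.mem_univ _, h2⟩, rfl⟩
      · rintro ⟨e, he, rfl⟩
        rw [Finset.mem_filter] at he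
        exact ⟨hmem e, by rw [hf]; exact he.2⟩
    rw [h5, Finset.card_image_of_injective _ hinj, hcard (fun l _ _ => l < k)]
    have h6 : range k = (range K).filter (fun l => l < k) := by
      ext l
      simp only [Finset.mem_filter, Finset.mem_range]
      omega
    rw [h6, Finset.sum_filter]
    refine Finset.sum_congr rfl (fun l _ => ?_)
    by_cases hl : l < k
    · simp [hl]
    · simp [hl]

end Pool.Agent.H997LT
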