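import Mathlib

set_option autoImplicit false

/-! Minima of finitely many affine functions, and the inequalities for three row lengths. -/

open Finset

namespace Pool.Agent.H997LT

/-- the minimum of finitely many affine functions -/
noncomputable def lin (S : Finset (ℤ × ℤ)) (h : S.Nonempty) (j : ℕ) : ℤ :=
  S.inf' h (fun t => t.1 * j + t.2)

theorem lin_le (S : Finset (ℤ × ℤ)) (h : S.Nonempty) (j : ℕ) (t : ℤ × ℤ) (ht : t ∈ S) :
    lin S h j ≤ t.1 * j + t.2 := Finset.inf'_le _ ht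

theorem lin_ex (S : Finset (ℤ × ℤ)) (h : S.Nonempty) (j : ℕ) :
    ∃ t ∈ S, lin S h j = t.1 * j + t.2 := Finset.exists_mem_eq_inf' h _

theorem le_lin (S : Finset (ℤ × ℤ)) (h : S.Nonempty) (j : ℕ) (v : ℤ)
    (hv : ∀ t ∈ S, v ≤ t.1 * j + t.2) : v ≤ lin S h j := Finset.le_inf' _ _ hv

theorem lin_conc (S : Finset (ℤ × ℤ)) (h : S.Nonempty) (j : ℕ) :
    lin S h j + lin S h (j + 2) ≤ 2 * lin S h (j + 1) := by
  obtain ⟨t, ht, e⟩ := lin_ex S h (j + 1)
  have h1 := lin_le S h j t ht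
  have h2 := lin_le S h (j + 2) t ht
  rw [e]
  push_cast at h1 h2 ⊢
  linarith

theorem lin_mono (S : Finset (ℤ × ℤ)) (h : S.Nonempty) (n : ℕ) (B : ℤ)
    (hB : ∀ j, lin S h j ≤ B)
    (hS : ∀ t ∈ S, 0 ≤ t.1 ∨ ∀ j : ℕ, j ≤ n → B ≤ t.1 * j + t.2) :
    ∀ j, j < n → lin S h j ≤ lin S h (j + 1) := by
  intro j hj
  refine le_lin S h (j + 1) _ (fun t ht => ?_)
  rcases hS t ht with h1 | h1
  · have := lin_le S h j t ht
    push_cast
    linarith
  · exact le_trans (hB j) (h1 (j + 1) (by omega))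

theorem lin_zero (S : Finset (ℤ × ℤ)) (h : S.Nonempty) (h1 : ∀ t ∈ S, 0 ≤ t.2)
    (h2 : ∃ t ∈ S, t.2 = 0) : lin S h 0 = 0 := by
  refine le_antisymm ?_ (le_lin S h 0 0 (fun t ht => by simpa using h1 t ht))
  obtain ⟨t, ht, e⟩ := h2
  have := lin_le S h 0 t ht
  simpa [e] using this

theorem pairs (p1 p2 p3 c1 c2 c3 j x : ℤ) (hp1 : 0 ≤ p1) (hp2 : 0 ≤ p2) (hp3 : 0 ≤ p3)
    (hc1 : 0 ≤ c1) (hc2 : 0 ≤ c2) (hc3 : 0 ≤ c3) (hj : 0 ≤ j) (hR : c1 + c2 + c3 ≤ p1 + p2 + p3)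
    (hjR : j ≤ p1 + p2 + p3)
    (X1 : x ≤ p1 * (c2 + c3) + p2 * c2) (X2 : x ≤ j * c2 + p1 * c3) (X3 : x ≤ j * (c2 + c3))
    (X4 : x ≤ j * (p1 - c1) + (p2 * (c1 + c2) + p3 * c1)) (X5 : x ≤ j * p1 + p2 * c2)
    (X6 : x ≤ j * (p1 + c2)) (X7 : x ≤ j * (p1 + p2 - c1) + p3 * c1)
    (X8 : x ≤ j * (p1 + p2)) :
    ∀ a ∈ ({(p1, 0), (p1 - c1, c1 * (p2 + p3)), (p1 + p3 - c1, c1 * p2), (c3, p1 * c2),
      (0, p1 * (c2 + c3))} : Finset (ℤ × ℤ)),
    ∀ b ∈ ({(p2, 0), (c2, 0), (p2 - c1, c1 * (p1 + p3)), (p2 + p3 - c1, c1 * p1),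
      (0, p2 * c2)} : Finset (ℤ × ℤ)), x ≤ (a.1 * j + a.2) + (b.1 * j + b.2) := by
  have hD : 0 ≤ p1 + p2 + p3 - c1 - c2 - c3 := by linarith
  have hRj : 0 ≤ p1 + p2 + p3 - j := by linarith
  have m1 : 0 ≤ c1 * p1 := mul_nonneg hc1 hp1
  have m2 : 0 ≤ c1 * p2 := mul_nonneg hc1 hp2
  have m3 : 0 ≤ c1 * p3 := mul_nonneg hc1 hp3
  have m4 : 0 ≤ j * (p1 + p2 + p3 - c1 - c2 - c3) := mul_nonneg hj hD
  have m5 : 0 ≤ c1 * (p1 + p2 + p3 - j) := mul_nonneg hc1 hRj
  have m6 : 0 ≤ p1 * c2 := mul_nonneg hp1 hc2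
  have m7 : 0 ≤ j * p3 := mul_nonneg hj hp3
  have m8 : 0 ≤ j * c3 := mul_nonneg hj hc3
  have m9 : 0 ≤ j * p2 := mul_nonneg hj hp2
  have m10 : 0 ≤ j * c2 := mul_nonneg hj hc2
  have m11 : 0 ≤ p1 * c3 := mul_nonneg hp1 hc3
  have m12 : 0 ≤ p2 * c2 := mul_nonneg hp2 hc2
  have m13 : 0 ≤ p2 * c3 := mul_nonneg hp2 hc3
  have m14 : 0 ≤ c1 * c3 := mul_nonneg hc1 hc3
  have m15 : 0 ≤ c2 * p3 := mul_nonneg hc2 hp3
  have m16 : 0 ≤ c1 * (p1 + p2 + p3 - c1 - c2 - c3) := mul_nonneg hc1 hD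
  have m17 : 0 ≤ (p2 + p3) * (p1 + p2 + p3 - c1 - c2 - c3) := mul_nonneg (by linarith) hD
  have m18 : 0 ≤ (p2 + p3) * c3 := mul_nonneg (by linarith) hc3
  -- the bracket used twice
  have br : c1 + c2 ≤ j → 0 ≤ j * (p2 + p3 - c1) + c1 * p1 - p2 * c2 := by
    intro h
    rcases le_total c1 (p2 + p3) with h1 | h1
    · have n1 : 0 ≤ (j - c1 - c2) * (p2 + p3 - c1) := mul_nonneg (by linarith) (by linarith)
      nlinarith [n1]
    · have n1 : 0 ≤ (p1 + p2 + p3 - j) * (c1 - p2 - p3) := mul_nonneg hRj (by linarith)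
      nlinarith [n1]
  intro a ha b hb
  simp only [Finset.mem_insert, Finset.mem_singleton] at ha hb
  rcases ha with rfl | rfl | rfl | rfl | rfl <;> rcases hb with rfl | rfl | rfl | rfl | rfl <;>
    simp only
  · linarith
  · linarith
  · linarith
  · linarith
  · linarith
  · linarith
  · rcases le_total j p2 with h | h
    · have n1 : 0 ≤ c1 * (p2 - j) := mul_nonneg hc1 (by linarith)
      linarith
    · have n1 : 0 ≤ c2 * (j - p2) := mul_nonneg hc2 (by linarith)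
      linarith
  · linarith
  · linarith
  · linarith
  · linarith
  · rcases le_total j p2 with h | h
    · have n1 : 0 ≤ c1 * (p2 - j) := mul_nonneg hc1 (by linarith)
      linarith
    · rcases le_total c1 j with h' | h'
      · have n1 : 0 ≤ c2 * (j - p2) := mul_nonneg hc2 (by linarith)
        have n2 : 0 ≤ p3 * (j - c1) := mul_nonneg hp3 (by linarith)
        linarith
      · have n1 : 0 ≤ p2 * (c1 - j) := mul_nonneg hp2 (by linarith)
        linarith
  · linarith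
  · rcases le_total j (p1 + p2) with h | h
    · have n1 : 0 ≤ c1 * (p1 + p2 - j) := mul_nonneg hc1 (by linarith)
      linarith
    · have n1 : 0 ≤ (j - p1 - p2) * (p1 + p2 + p3 - c1) := mul_nonneg (by linarith) (by linarith)
      have n2 : 0 ≤ (p1 + p2) * (p1 + p2 + p3 - j) := mul_nonneg (by linarith) (by linarith)
      nlinarith [n1, n2]
  · rcases le_total c1 j with h | h
    · have n1 : 0 ≤ p3 * (j - c1) := mul_nonneg hp3 (by linarith)
      linarith
    · have n1 : 0 ≤ p2 * (c1 - j) := mul_nonneg hp2 (by linarith)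
      linarith
  · rcases le_total j c2 with h | h
    · have n1 : 0 ≤ p1 * (c2 - j) := mul_nonneg hp1 (by linarith)
      linarith
    · rcases le_total j p1 with h' | h'
      · have n1 : 0 ≤ c2 * (p1 - j) := mul_nonneg hc2 (by linarith)
        linarith
      · have n1 : 0 ≤ c3 * (j - p1) := mul_nonneg hc3 (by linarith)
        have n2 : 0 ≤ p2 * (j - c2) := mul_nonneg hp2 (by linarith)
        linarith
  · linarith
  · rcases le_total j (c1 + c2) with h | h
    · have n1 : 0 ≤ p1 * (c1 + c2 - j) := mul_nonneg hp1 (by linarith)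
      linarith
    · rcases le_total j p1 with h' | h'
      · have n1 : 0 ≤ (p1 - j) * (c1 + c2) := mul_nonneg (by linarith) (by linarith)
        linarith
      · have n1 : 0 ≤ c3 * (j - p1) := mul_nonneg hc3 (by linarith)
        have n2 : 0 ≤ p2 * (j - c1 - c2) := mul_nonneg hp2 (by linarith)
        linarith
  · rcases le_total j (c1 + c2) with h | h
    · have n1 : 0 ≤ p1 * (c1 + c2 - j) := mul_nonneg hp1 (by linarith)
      linarith
    · rcases le_total j p1 with h' | h'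
      · have n1 : 0 ≤ (p1 - j) * (c1 + c2) := mul_nonneg (by linarith) (by linarith)
        linarith
      · have n1 : 0 ≤ c3 * (j - p1) := mul_nonneg hc3 (by linarith)
        have n2 := br h
        linarith
  · rcases le_total j (p1 + p2) with h | h
    · have n1 : 0 ≤ c2 * (p1 + p2 - j) := mul_nonneg hc2 (by linarith)
      linarith
    · have n1 : 0 ≤ c3 * (j - p1) := mul_nonneg hc3 (by linarith)
      linarith
  · rcases le_total j c2 with h | h
    · have n1 : 0 ≤ p1 * (c2 - j) := mul_nonneg hp1 (by linarith)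
      linarith
    · have n2 : 0 ≤ p2 * (j - c2) := mul_nonneg hp2 (by linarith)
      linarith
  · linarith
  · rcases le_total j (c1 + c2 + c3) with h | h
    · have n1 : 0 ≤ p1 * (c1 + c2 + c3 - j) := mul_nonneg hp1 (by linarith)
      linarith
    · have n1 : 0 ≤ p2 * (j - c1 - c2) := mul_nonneg hp2 (by linarith)
      linarith
  · rcases le_total j (c1 + c2 + c3) with h | h
    · have n1 : 0 ≤ p1 * (c1 + c2 + c3 - j) := mul_nonneg hp1 (by linarith)
      linarith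
    · have n2 := br (by linarith)
      linarith
  · linarith

end Pool.Agent.H997LT
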