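import Mathlib

set_option autoImplicit false

/-! Integral sums of symmetric polymatroids, a three-row transportation lemma, and auxiliary
facts about sequences. -/

open Finset

namespace Pool.Agent.H997LT

/-- increments of a concave sequence decrease -/
theorem conc_gen (n : ℕ) (a : ℕ → ℤ) (h : ∀ j, j + 2 ≤ n → a j + a (j + 2) ≤ 2 * a (j + 1)) :
    ∀ i j, i ≤ j → j + 1 ≤ n → a (j + 1) - a j ≤ a (i + 1) - a i := by
  intro i j hij
  induction j, hij using Nat.le_induction with
  | base => intro _; exact le_rfl
  | succ j hij ih =>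
    intro hj
    have h1 := ih (by omega)
    have h2 := h j (by omega)
    have e : j + 1 + 1 = j + 2 := rfl
    rw [e]
    linarith

theorem mono_gen (n : ℕ) (a : ℕ → ℤ) (h : ∀ j, j < n → a j ≤ a (j + 1)) :
    ∀ i j, i ≤ j → j ≤ n → a i ≤ a j := by
  intro i j hij
  induction j, hij using Nat.le_induction with
  | base => intro _; exact le_rfl
  | succ j hij ih =>
    intro hj
    exact le_trans (ih (by omega)) (h j (by omega))

/-- an integral vector in the sum of two symmetric polymatroids is a sum of integral vectors -/
theorem ps : ∀ (n : ℕ) (a b s : ℕ → ℤ), a 0 = 0 → b 0 = 0 →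
    (∀ j, j + 2 ≤ n → a j + a (j + 2) ≤ 2 * a (j + 1)) →
    (∀ j, j + 2 ≤ n → b j + b (j + 2) ≤ 2 * b (j + 1)) →
    (∀ j, j < n → a j ≤ a (j + 1)) → (∀ j, j < n → b j ≤ b (j + 1)) →
    (∀ j, j + 1 < n → s (j + 1) ≤ s j) → (∀ j, j < n → 0 ≤ s j) →
    (∀ j, j ≤ n → ∑ k ∈ range j, s k ≤ a j + b j) →
    ∃ f w : ℕ → ℤ, (∀ k < n, 0 ≤ f k ∧ 0 ≤ w k ∧ f k + w k = s k) ∧
      (∀ A ⊆ range n, ∑ k ∈ A, f k ≤ a A.card) ∧
      (∀ A ⊆ range n, ∑ k ∈ A, w k ≤ b A.card) := by
  intro n
  induction n with
  | zero =>
    intro a b s ha hb _ _ _ _ _ _ _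
    refine ⟨fun _ => 0, fun _ => 0, fun k hk => absurd hk (by omega), ?_, ?_⟩
    · intro A hA
      have : A = ∅ := Finset.subset_empty.1 (by simpa using hA)
      subst this
      simp [ha]
    · intro A hA
      have : A = ∅ := Finset.subset_empty.1 (by simpa using hA)
      subst this
      simp [hb]
  | succ n ih =>
    intro a b s ha hb hca hcb hma hmb hs hs0 hξ
    have gca := conc_gen (n + 1) a hca
    have gcb := conc_gen (n + 1) b hcb
    set ξ : ℕ → ℤ := fun j => ∑ k ∈ range j, s k with hξdef
    have hξ0 : ξ 0 = 0 := by simp [hξdef]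
    have hξ1 : ξ 1 = s 0 := by simp [hξdef]
    have hξs : ∀ j, ξ (j + 1) = ξ j + s j := fun j => Finset.sum_range_succ s j
    have hss : ∀ j, j < n + 1 → s j ≤ s 0 := by
      intro j
      induction j with
      | zero => intro _; exact le_rfl
      | succ j ihj =>
        intro hj
        exact le_trans (hs j (by omega)) (ihj (by omega))
    -- the main inequality
    have hmain : ∀ i j, i ≤ n → j ≤ n →
        ξ (j + 1) + ξ (i + 1) ≤ s 0 + a (j + 1) + a i + b j + b (i + 1) := by
      intro i j hi hj
      have e1 := hξs i
      have e2 := hξs j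
      have e3 := hss i (by omega)
      have e4 := hss j (by omega)
      have x1 := hξ i (by omega)
      have x2 := hξ j (by omega)
      have x3 := hξ (i + 1) (by omega)
      have x4 := hξ (j + 1) (by omega)
      change ξ i ≤ _ at x1
      change ξ j ≤ _ at x2
      change ξ (i + 1) ≤ _ at x3
      change ξ (j + 1) ≤ _ at x4
      rcases le_total i j with hij | hij
      · have c2 := gcb i j hij (by omega)
        linarith
      · have c1 := gca j i hij (by omega)
        linarith
    -- the choice of the first coordinate
    set S : Finset ℤ := insert 0 ((range (n + 1)).image (fun j => ξ (j + 1) - a (j + 1) - b j))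
      with hS
    have hSne : S.Nonempty := ⟨0, by rw [hS]; exact Finset.mem_insert_self _ _⟩
    set w0 : ℤ := S.max' hSne with hw0
    have hw0mem : w0 ∈ S := Finset.max'_mem _ _
    have hw0le : ∀ x ∈ S, x ≤ w0 := fun x hx => Finset.le_max' _ _ hx
    have hw0nn : 0 ≤ w0 := hw0le 0 (by rw [hS]; exact Finset.mem_insert_self _ _)
    have hw0lb : ∀ j ≤ n, ξ (j + 1) - a (j + 1) - b j ≤ w0 := by
      intro j hj
      refine hw0le _ ?_
      rw [hS]
      exact Finset.mem_insert_of_mem (Finset.mem_image.2 ⟨j, Finset.mem_range.2 (by omega), rfl⟩)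
    have hw0ub : ∀ i ≤ n, w0 ≤ s 0 - ξ (i + 1) + a i + b (i + 1) := by
      intro i hi
      rw [hS, Finset.mem_insert, Finset.mem_image] at hw0mem
      rcases hw0mem with h | ⟨j, hj, h⟩
      · rw [h]
        have e1 := hξs i
        have e3 := hss i (by omega)
        have x1 := hξ i (by omega)
        change ξ i ≤ _ at x1
        have := hmb i (by omega)
        linarith
      · rw [← h]
        have := hmain i j hi (by have := Finset.mem_range.1 hj; omega)
        linarith
    have hw0s : w0 ≤ s 0 := by
      rw [hS, Finset.mem_insert, Finset.mem_image] at hw0mem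
      rcases hw0mem with h | ⟨j, hj, h⟩
      · rw [h]; exact hs0 0 (by omega)
      · rw [← h]
        have hj' := Finset.mem_range.1 hj
        have e1 := hξs j
        have e3 := hss j (by omega)
        have x1 := hξ j (by omega)
        change ξ j ≤ _ at x1
        have := hma j (by omega)
        linarith
    set f0 : ℤ := s 0 - w0 with hf0
    -- the reduced problem
    obtain ⟨f, w, h1, h2, h3⟩ := ih (fun j => min (a j) (a (j + 1) - f0))
      (fun j => min (b j) (b (j + 1) - w0)) (fun j => s (j + 1))
      (by
        have := hw0lb 0 (by omega)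
        simp only [Nat.zero_add, hξ1, hb] at this
        simp only [Nat.zero_add, ha]
        rw [min_eq_left (by linarith)])
      (by
        have := hw0ub 0 (by omega)
        simp only [Nat.zero_add, hξ1, ha] at this
        simp only [Nat.zero_add, hb]
        rw [min_eq_left (by linarith)])
      (by
        intro j hj
        have e1 := hca j (by omega)
        have e2 := hca (j + 1) (by omega)
        have e : j + 1 + 2 = j + 2 + 1 := rfl
        have e' : j + 1 + 1 = j + 2 := rfl
        rw [e, e'] at e2
        simp only [e']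
        omega)
      (by
        intro j hj
        have e1 := hcb j (by omega)
        have e2 := hcb (j + 1) (by omega)
        have e : j + 1 + 2 = j + 2 + 1 := rfl
        have e' : j + 1 + 1 = j + 2 := rfl
        rw [e, e'] at e2
        simp only [e']
        omega)
      (by
        intro j hj
        have e1 := hma j (by omega)
        have e2 := hma (j + 1) (by omega)
        exact min_le_min e1 (by linarith))
      (by
        intro j hj
        have e1 := hmb j (by omega)
        have e2 := hmb (j + 1) (by omega)
        exact min_le_min e1 (by linarith))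
      (fun j hj => hs (j + 1) (by omega)) (fun j hj => hs0 (j + 1) (by omega))
      (by
        intro j hj
        have e0 : ∑ k ∈ range j, s (k + 1) = ξ (j + 1) - s 0 := by
          have := Finset.sum_range_succ' s j
          show ∑ k ∈ range j, s (k + 1) = ∑ k ∈ range (j + 1), s k - s 0
          rw [this]
          ring
        rw [e0]
        have x1 := hξ j (by omega)
        have x2 := hξ (j + 1) (by omega)
        change ξ j ≤ _ at x1
        change ξ (j + 1) ≤ _ at x2
        have e1 := hξs j
        have e3 := hss j (by omega)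
        have e4 := hw0lb j (by omega)
        have e5 := hw0ub j (by omega)
        show ξ (j + 1) - s 0 ≤ min (a j) (a (j + 1) - f0) + min (b j) (b (j + 1) - w0)
        omega)
    refine ⟨fun k => if k = 0 then f0 else f (k - 1), fun k => if k = 0 then w0 else w (k - 1),
      ?_, ?_, ?_⟩
    · intro k hk
      by_cases hk0 : k = 0
      · subst hk0
        simp only [if_true]
        refine ⟨by linarith, hw0nn, by linarith⟩
      · simp only [if_neg hk0]
        have := h1 (k - 1) (by omega)
        have e : k - 1 + 1 = k := by omega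
        rw [e] at this
        exact this
    · intro A hA
      have key : ∀ (g : ℕ → ℤ) (g0 : ℤ), ∑ k ∈ A, (if k = 0 then g0 else g (k - 1)) =
          (if 0 ∈ A then g0 else 0) + ∑ k ∈ (range n).filter (fun k => k + 1 ∈ A), g k := by
        intro g g0
        have hA0 : A.filter (fun k => ¬ k = 0) =
            ((range n).filter (fun k => k + 1 ∈ A)).map ⟨Nat.succ, Nat.succ_injective⟩ := by
          ext k
          simp only [Finset.mem_filter, Finset.mem_map, Finset.mem_range,
            Function.Embedding.coeFn_mk]
          constructor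
          · rintro ⟨hk, hk0⟩
            have := Finset.mem_range.1 (hA hk)
            exact ⟨k - 1, ⟨by omega, by rwa [show k - 1 + 1 = k by omega]⟩, by omega⟩
          · rintro ⟨m, ⟨_, hm⟩, rfl⟩
            exact ⟨hm, by omega⟩
        rw [← Finset.sum_filter_add_sum_filter_not A (fun k => k = 0), hA0, Finset.sum_map]
        congr 1
        by_cases h0 : 0 ∈ A
        · rw [if_pos h0]
          have : A.filter (fun k => k = 0) = {0} := by
            ext k
            simp only [Finset.mem_filter, Finset.mem_singleton]
            constructor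
            · exact fun h => h.2
            · rintro rfl; exact ⟨h0, rfl⟩
          rw [this, Finset.sum_singleton, if_pos rfl]
        · rw [if_neg h0]
          have : A.filter (fun k => k = 0) = ∅ := by
            rw [Finset.filter_eq_empty_iff]
            rintro k hk rfl
            exact h0 hk
          rw [this, Finset.sum_empty]
      have hcard : ((A.card : ℕ) : ℤ) = (if 0 ∈ A then 1 else 0) +
          (((range n).filter (fun k => k + 1 ∈ A)).card : ℤ) := by
        have := key (fun _ => 1) 1
        simp only [ite_self, Finset.sum_const, mul_one, nsmul_eq_mul] at this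
        exact_mod_cast this
      rw [key f f0]
      have hB := h2 _ (Finset.filter_subset (fun k => k + 1 ∈ A) (range n))
      by_cases h0 : 0 ∈ A
      · rw [if_pos h0] at hcard ⊢
        have e : A.card = ((range n).filter (fun k => k + 1 ∈ A)).card + 1 := by
          have : ((A.card : ℕ) : ℤ) =
            ((((range n).filter (fun k => k + 1 ∈ A)).card + 1 : ℕ) : ℤ) := by
            push_cast; linarith
          exact_mod_cast this
        rw [e]
        have := le_trans hB (min_le_right _ _)
        linarith
      · rw [if_neg h0] at hcard ⊢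
        have e : A.card = ((range n).filter (fun k => k + 1 ∈ A)).card := by
          have : ((A.card : ℕ) : ℤ) =
            ((((range n).filter (fun k => k + 1 ∈ A)).card : ℕ) : ℤ) := by
            linarith
          exact_mod_cast this
        rw [e]
        have := le_trans hB (min_le_left _ _)
        linarith
    · intro A hA
      have key : ∀ (g : ℕ → ℤ) (g0 : ℤ), ∑ k ∈ A, (if k = 0 then g0 else g (k - 1)) =
          (if 0 ∈ A then g0 else 0) + ∑ k ∈ (range n).filter (fun k => k + 1 ∈ A), g k := by
        intro g g0
        have hA0 : A.filter (fun k => ¬ k = 0) =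
            ((range n).filter (fun k => k + 1 ∈ A)).map ⟨Nat.succ, Nat.succ_injective⟩ := by
          ext k
          simp only [Finset.mem_filter, Finset.mem_map, Finset.mem_range,
            Function.Embedding.coeFn_mk]
          constructor
          · rintro ⟨hk, hk0⟩
            have := Finset.mem_range.1 (hA hk)
            exact ⟨k - 1, ⟨by omega, by rwa [show k - 1 + 1 = k by omega]⟩, by omega⟩
          · rintro ⟨m, ⟨_, hm⟩, rfl⟩
            exact ⟨hm, by omega⟩
        rw [← Finset.sum_filter_add_sum_filter_not A (fun k => k = 0), hA0, Finset.sum_map]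
        congr 1
        by_cases h0 : 0 ∈ A
        · rw [if_pos h0]
          have : A.filter (fun k => k = 0) = {0} := by
            ext k
            simp only [Finset.mem_filter, Finset.mem_singleton]
            constructor
            · exact fun h => h.2
            · rintro rfl; exact ⟨h0, rfl⟩
          rw [this, Finset.sum_singleton, if_pos rfl]
        · rw [if_neg h0]
          have : A.filter (fun k => k = 0) = ∅ := by
            rw [Finset.filter_eq_empty_iff]
            rintro k hk rfl
            exact h0 hk
          rw [this, Finset.sum_empty]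
      have hcard : ((A.card : ℕ) : ℤ) = (if 0 ∈ A then 1 else 0) +
          (((range n).filter (fun k => k + 1 ∈ A)).card : ℤ) := by
        have := key (fun _ => 1) 1
        simp only [ite_self, Finset.sum_const, mul_one, nsmul_eq_mul] at this
        exact_mod_cast this
      rw [key w w0]
      have hB := h3 _ (Finset.filter_subset (fun k => k + 1 ∈ A) (range n))
      by_cases h0 : 0 ∈ A
      · rw [if_pos h0] at hcard ⊢
        have e : A.card = ((range n).filter (fun k => k + 1 ∈ A)).card + 1 := by
          have : ((A.card : ℕ) : ℤ) =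
            ((((range n).filter (fun k => k + 1 ∈ A)).card + 1 : ℕ) : ℤ) := by
            push_cast; linarith
          exact_mod_cast this
        rw [e]
        have := le_trans hB (min_le_right _ _)
        linarith
      · rw [if_neg h0] at hcard ⊢
        have e : A.card = ((range n).filter (fun k => k + 1 ∈ A)).card := by
          have : ((A.card : ℕ) : ℤ) =
            ((((range n).filter (fun k => k + 1 ∈ A)).card : ℕ) : ℤ) := by
            linarith
          exact_mod_cast this
        rw [e]
        have := le_trans hB (min_le_left _ _)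
        linarith

/-- excess over a threshold -/
theorem excess (n : ℕ) (f a : ℕ → ℤ) (hf : ∀ A ⊆ range n, ∑ k ∈ A, f k ≤ a A.card) (θ r : ℤ)
    (h : ∀ j ≤ n, a j ≤ j * θ + r) : ∑ k ∈ range n, max 0 (f k - θ) ≤ r := by
  have h1 : ∑ k ∈ range n, max 0 (f k - θ) =
      ∑ k ∈ (range n).filter (fun k => θ < f k), (f k - θ) := by
    rw [Finset.sum_filter]
    refine Finset.sum_congr rfl (fun k _ => ?_)
    by_cases hk : θ < f k
    · rw [if_pos hk]; exact max_eq_right (by linarith)
    · rw [if_neg hk]; exact max_eq_left (by linarith [not_lt.1 hk])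
  rw [h1, Finset.sum_sub_distrib, Finset.sum_const, nsmul_eq_mul]
  have h2 := hf _ (Finset.filter_subset (fun k => θ < f k) (range n))
  have h3 := h _ (le_trans (Finset.card_filter_le (range n) (fun k => θ < f k))
    (le_of_eq (Finset.card_range n)))
  linarith

/-- excess over a threshold for a decreasing sequence with given initial sums -/
theorem excess_anti (n : ℕ) (s ξ : ℕ → ℤ) (h0 : ξ 0 = 0) (hs : ∀ j, ξ (j + 1) = ξ j + s j)
    (hanti : Antitone s) (θ r : ℤ) (h : ∀ j ≤ n, ξ j ≤ j * θ + r) :
    ∑ k ∈ range n, max 0 (s k - θ) ≤ r := by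
  have hmax : ∀ m : ℕ, ∃ j ≤ m, ∑ k ∈ range m, max 0 (s k - θ) = ξ j - j * θ := by
    intro m
    induction m with
    | zero => exact ⟨0, le_rfl, by simp [h0]⟩
    | succ m ih =>
      obtain ⟨j, hj, hsum⟩ := ih
      rw [Finset.sum_range_succ, hsum]
      rcases le_or_gt (s m) θ with hm | hm
      · refine ⟨j, by omega, ?_⟩
        rw [max_eq_left (by linarith)]
        ring
      · refine ⟨m + 1, le_rfl, ?_⟩
        have hall : ∀ k ∈ range m, max 0 (s k - θ) = s k - θ := by
          intro k hk
          have := hanti (le_of_lt (Finset.mem_range.1 hk))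
          exact max_eq_right (by linarith)
        rw [max_eq_right (by linarith), ← hsum, Finset.sum_congr rfl hall,
          Finset.sum_sub_distrib, Finset.sum_const, Finset.card_range, nsmul_eq_mul]
        have : ∀ m : ℕ, ∑ k ∈ range m, s k = ξ m := by
          intro m
          induction m with
          | zero => simp [h0]
          | succ m ihm => rw [Finset.sum_range_succ, ihm, hs]
        rw [this, hs]
        push_cast
        ring
  obtain ⟨j, hj, hsum⟩ := hmax n
  rw [hsum]
  have := h j hj
  linarith

theorem three_between (c l1 l2 l3 u1 u2 u3 : ℤ) (h1 : l1 ≤ u1) (h2 : l2 ≤ u2) (h3 : l3 ≤ u3)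
    (hl : l1 + l2 + l3 ≤ c) (hu : c ≤ u1 + u2 + u3) :
    ∃ y1 y2 y3 : ℤ, l1 ≤ y1 ∧ y1 ≤ u1 ∧ l2 ≤ y2 ∧ y2 ≤ u2 ∧ l3 ≤ y3 ∧ y3 ≤ u3 ∧
      y1 + y2 + y3 = c := by
  refine ⟨min u1 (c - l2 - l3), min u2 (c - min u1 (c - l2 - l3) - l3),
    c - min u1 (c - l2 - l3) - min u2 (c - min u1 (c - l2 - l3) - l3), ?_, ?_, ?_, ?_, ?_, ?_, ?_⟩
  all_goals omega

/-- a transportation problem with three rows and constant column sums -/
theorem transport (c : ℤ) (hc : 0 ≤ c) : ∀ (n : ℕ) (r1 r2 r3 : ℕ → ℤ) (T1 T2 T3 : ℤ),
    (∀ k < n, 0 ≤ r1 k ∧ 0 ≤ r2 k ∧ 0 ≤ r3 k ∧ c ≤ r1 k + r2 k + r3 k) →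
    0 ≤ T1 → 0 ≤ T2 → 0 ≤ T3 → T1 + T2 + T3 = n * c →
    T1 ≤ ∑ k ∈ range n, min c (r1 k) → T2 ≤ ∑ k ∈ range n, min c (r2 k) →
    T3 ≤ ∑ k ∈ range n, min c (r3 k) →
    T1 + T2 ≤ ∑ k ∈ range n, min c (r1 k + r2 k) →
    T1 + T3 ≤ ∑ k ∈ range n, min c (r1 k + r3 k) →
    T2 + T3 ≤ ∑ k ∈ range n, min c (r2 k + r3 k) →
    ∃ y1 y2 y3 : ℕ → ℤ, (∀ k < n, 0 ≤ y1 k ∧ 0 ≤ y2 k ∧ 0 ≤ y3 k ∧ y1 k ≤ r1 k ∧ y2 k ≤ r2 k ∧
      y3 k ≤ r3 k ∧ y1 k + y2 k + y3 k = c) ∧ ∑ k ∈ range n, y1 k = T1 ∧
      ∑ k ∈ range n, y2 k = T2 ∧ ∑ k ∈ range n, y3 k = T3 := by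
  intro n
  induction n with
  | zero =>
    intro r1 r2 r3 T1 T2 T3 _ h1 h2 h3 hT _ _ _ _ _ _
    refine ⟨fun _ => 0, fun _ => 0, fun _ => 0, fun k hk => absurd hk (by omega), ?_, ?_, ?_⟩
    all_goals simp at hT ⊢; linarith
  | succ n ih =>
    intro r1 r2 r3 T1 T2 T3 hr hT1 hT2 hT3 hT g1 g2 g3 g12 g13 g23
    rw [Finset.sum_range_succ] at g1 g2 g3 g12 g13 g23
    have hn := hr n (by omega)
    -- facts on the sums
    have sum_le : ∀ (u v : ℕ → ℤ), (∀ k < n, u k ≤ v k) →
        ∑ k ∈ range n, u k ≤ ∑ k ∈ range n, v k := fun u v h =>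
      Finset.sum_le_sum (fun k hk => h k (Finset.mem_range.1 hk))
    have hconst : ∑ k ∈ range n, c = n * c := by simp
    have a1 : 0 ≤ ∑ k ∈ range n, min c (r1 k) :=
      Finset.sum_nonneg (fun k hk => by
        have := hr k (by have := Finset.mem_range.1 hk; omega); omega)
    have a2 : 0 ≤ ∑ k ∈ range n, min c (r2 k) :=
      Finset.sum_nonneg (fun k hk => by
        have := hr k (by have := Finset.mem_range.1 hk; omega); omega)
    have a3 : 0 ≤ ∑ k ∈ range n, min c (r3 k) :=
      Finset.sum_nonneg (fun k hk => by
        have := hr k (by have := Finset.mem_range.1 hk; omega); omega)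
    have b1 := sum_le (fun k => min c (r1 k)) (fun _ => c) (fun k hk => min_le_left _ _)
    have b2 := sum_le (fun k => min c (r2 k)) (fun _ => c) (fun k hk => min_le_left _ _)
    have b3 := sum_le (fun k => min c (r3 k)) (fun _ => c) (fun k hk => min_le_left _ _)
    have b12 := sum_le (fun k => min c (r1 k + r2 k)) (fun _ => c) (fun k hk => min_le_left _ _)
    have b13 := sum_le (fun k => min c (r1 k + r3 k)) (fun _ => c) (fun k hk => min_le_left _ _)
    have b23 := sum_le (fun k => min c (r2 k + r3 k)) (fun _ => c) (fun k hk => min_le_left _ _)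
    -- subadditivity
    have p1 := sum_le (fun _ => c) (fun k => min c (r1 k) + min c (r2 k + r3 k)) (fun k hk => by
      have := hr k (by omega)
      show c ≤ min c (r1 k) + min c (r2 k + r3 k)
      omega)
    have p2 := sum_le (fun _ => c) (fun k => min c (r2 k) + min c (r1 k + r3 k)) (fun k hk => by
      have := hr k (by omega)
      show c ≤ min c (r2 k) + min c (r1 k + r3 k)
      omega)
    have p3 := sum_le (fun _ => c) (fun k => min c (r3 k) + min c (r1 k + r2 k)) (fun k hk => by
      have := hr k (by omega)
      show c ≤ min c (r3 k) + min c (r1 k + r2 k)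
      omega)
    have q12 := sum_le (fun k => min c (r1 k + r2 k)) (fun k => min c (r1 k) + min c (r2 k))
      (fun k hk => by
      have := hr k (by omega)
      show min c (r1 k + r2 k) ≤ min c (r1 k) + min c (r2 k)
      omega)
    have q13 := sum_le (fun k => min c (r1 k + r3 k)) (fun k => min c (r1 k) + min c (r3 k))
      (fun k hk => by
      have := hr k (by omega)
      show min c (r1 k + r3 k) ≤ min c (r1 k) + min c (r3 k)
      omega)
    have q23 := sum_le (fun k => min c (r2 k + r3 k)) (fun k => min c (r2 k) + min c (r3 k))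
      (fun k hk => by
      have := hr k (by omega)
      show min c (r2 k + r3 k) ≤ min c (r2 k) + min c (r3 k)
      omega)
    have m1 := sum_le (fun k => c + min c (r1 k))
      (fun k => min c (r1 k + r2 k) + min c (r1 k + r3 k)) (fun k hk => by
      have := hr k (by omega)
      show c + min c (r1 k) ≤ min c (r1 k + r2 k) + min c (r1 k + r3 k)
      omega)
    have m2 := sum_le (fun k => c + min c (r2 k))
      (fun k => min c (r1 k + r2 k) + min c (r2 k + r3 k)) (fun k hk => by
      have := hr k (by omega)
      show c + min c (r2 k) ≤ min c (r1 k + r2 k) + min c (r2 k + r3 k)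
      omega)
    have m3 := sum_le (fun k => c + min c (r3 k))
      (fun k => min c (r1 k + r3 k) + min c (r2 k + r3 k)) (fun k hk => by
      have := hr k (by omega)
      show c + min c (r3 k) ≤ min c (r1 k + r3 k) + min c (r2 k + r3 k)
      omega)
    have n1 := sum_le (fun k => min c (r1 k)) (fun k => min c (r1 k + r2 k)) (fun k hk => by
      have := hr k (by omega)
      show min c (r1 k) ≤ min c (r1 k + r2 k)
      omega)
    have n2 := sum_le (fun k => min c (r1 k)) (fun k => min c (r1 k + r3 k)) (fun k hk => by
      have := hr k (by omega)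
      show min c (r1 k) ≤ min c (r1 k + r3 k)
      omega)
    have n3 := sum_le (fun k => min c (r2 k)) (fun k => min c (r1 k + r2 k)) (fun k hk => by
      have := hr k (by omega)
      show min c (r2 k) ≤ min c (r1 k + r2 k)
      omega)
    have n4 := sum_le (fun k => min c (r2 k)) (fun k => min c (r2 k + r3 k)) (fun k hk => by
      have := hr k (by omega)
      show min c (r2 k) ≤ min c (r2 k + r3 k)
      omega)
    have n5 := sum_le (fun k => min c (r3 k)) (fun k => min c (r1 k + r3 k)) (fun k hk => by
      have := hr k (by omega)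
      show min c (r3 k) ≤ min c (r1 k + r3 k)
      omega)
    have n6 := sum_le (fun k => min c (r3 k)) (fun k => min c (r2 k + r3 k)) (fun k hk => by
      have := hr k (by omega)
      show min c (r3 k) ≤ min c (r2 k + r3 k)
      omega)
    simp only [Finset.sum_add_distrib, hconst] at b1 b2 b3 b12 b13 b23 p1 p2 p3
    simp only [Finset.sum_add_distrib, hconst] at q12 q13 q23 m1 m2 m3
    have hT' : T1 + T2 + T3 = n * c + c := by rw [hT]; push_cast; ring
    set G1 := ∑ k ∈ range n, min c (r1 k) with hG1
    set G2 := ∑ k ∈ range n, min c (r2 k) with hG2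
    set G3 := ∑ k ∈ range n, min c (r3 k) with hG3
    set G12 := ∑ k ∈ range n, min c (r1 k + r2 k) with hG12
    set G13 := ∑ k ∈ range n, min c (r1 k + r3 k) with hG13
    set G23 := ∑ k ∈ range n, min c (r2 k + r3 k) with hG23
    set N : ℤ := n * c with hN
    have i12 : T1 + T2 ≤ G12 + c := le_trans g12 (by linarith [min_le_left c (r1 n + r2 n)])
    have i13 : T1 + T3 ≤ G13 + c := le_trans g13 (by linarith [min_le_left c (r1 n + r3 n)])
    have i23 : T2 + T3 ≤ G23 + c := le_trans g23 (by linarith [min_le_left c (r2 n + r3 n)])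
    have j12 : T1 + T2 ≤ G12 + (r1 n + r2 n) :=
      le_trans g12 (by linarith [min_le_right c (r1 n + r2 n)])
    have j13 : T1 + T3 ≤ G13 + (r1 n + r3 n) :=
      le_trans g13 (by linarith [min_le_right c (r1 n + r3 n)])
    have j23 : T2 + T3 ≤ G23 + (r2 n + r3 n) :=
      le_trans g23 (by linarith [min_le_right c (r2 n + r3 n)])
    have k1 : T1 ≤ G1 + c := le_trans g1 (by linarith [min_le_left c (r1 n)])
    have k2 : T2 ≤ G2 + c := le_trans g2 (by linarith [min_le_left c (r2 n)])
    have k3 : T3 ≤ G3 + c := le_trans g3 (by linarith [min_le_left c (r3 n)])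
    have l1 : T1 ≤ G1 + r1 n := le_trans g1 (by linarith [min_le_right c (r1 n)])
    have l2 : T2 ≤ G2 + r2 n := le_trans g2 (by linarith [min_le_right c (r2 n)])
    have l3 : T3 ≤ G3 + r3 n := le_trans g3 (by linarith [min_le_right c (r3 n)])
    obtain ⟨hn1, hn2, hn3, hn4⟩ := hn
    clear g1 g2 g3 g12 g13 g23 hT hG1 hG2 hG3 hG12 hG13 hG23 sum_le hconst
    obtain ⟨y1, y2, y3, v1, v2, v3, v4, v5, v6, v7⟩ := three_between c
      (max 0 (T1 - G1)) (max 0 (T2 - G2)) (max 0 (T3 - G3))
      (min (r1 n) (min T1 (c - (T2 + T3 - G23)))) (min (r2 n) (min T2 (c - (T1 + T3 - G13))))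
      (min (r3 n) (min T3 (c - (T1 + T2 - G12))))
      (max_le (le_min (by linarith) (le_min (by linarith) (by linarith)))
        (le_min (by linarith) (le_min (by linarith) (by linarith))))
      (max_le (le_min (by linarith) (le_min (by linarith) (by linarith)))
        (le_min (by linarith) (le_min (by linarith) (by linarith))))
      (max_le (le_min (by linarith) (le_min (by linarith) (by linarith)))
        (le_min (by linarith) (le_min (by linarith) (by linarith))))
      (by
        rcases max_choice 0 (T1 - G1) with e1 | e1 <;> rcases max_choice 0 (T2 - G2) with e2 | e2 <;>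
          rcases max_choice 0 (T3 - G3) with e3 | e3 <;> rw [e1, e2, e3] <;> linarith)
      (by
        rcases min_choice (r1 n) (min T1 (c - (T2 + T3 - G23))) with e1 | e1 <;>
        rcases min_choice T1 (c - (T2 + T3 - G23)) with e1' | e1' <;>
        rcases min_choice (r2 n) (min T2 (c - (T1 + T3 - G13))) with e2 | e2 <;>
        rcases min_choice T2 (c - (T1 + T3 - G13)) with e2' | e2' <;>
        rcases min_choice (r3 n) (min T3 (c - (T1 + T2 - G12))) with e3 | e3 <;>
        rcases min_choice T3 (c - (T1 + T2 - G12)) with e3' | e3' <;>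
        rw [e1, e2, e3] <;> (try rw [e1']) <;> (try rw [e2']) <;> (try rw [e3']) <;> linarith)
    have w1 := le_trans v2 (min_le_left _ _)
    have w2 := le_trans v4 (min_le_left _ _)
    have w3 := le_trans v6 (min_le_left _ _)
    have w1' := le_trans v2 (le_trans (min_le_right _ _) (min_le_left _ _))
    have w2' := le_trans v4 (le_trans (min_le_right _ _) (min_le_left _ _))
    have w3' := le_trans v6 (le_trans (min_le_right _ _) (min_le_left _ _))
    have w1'' := le_trans v2 (le_trans (min_le_right _ _) (min_le_right _ _))
    have w2'' := le_trans v4 (le_trans (min_le_right _ _) (min_le_right _ _))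
    have w3'' := le_trans v6 (le_trans (min_le_right _ _) (min_le_right _ _))
    have z1 := le_trans (le_max_left _ _) v1
    have z2 := le_trans (le_max_left _ _) v3
    have z3 := le_trans (le_max_left _ _) v5
    have z1' := le_trans (le_max_right _ _) v1
    have z2' := le_trans (le_max_right _ _) v3
    have z3' := le_trans (le_max_right _ _) v5
    obtain ⟨Y1, Y2, Y3, h1, h2, h3, h4⟩ := ih r1 r2 r3 (T1 - y1) (T2 - y2) (T3 - y3)
      (fun k hk => hr k (by omega)) (by linarith) (by linarith) (by linarith) (by linarith)
      (by linarith) (by linarith) (by linarith) (by linarith) (by linarith) (by linarith)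
    refine ⟨fun k => if k < n then Y1 k else y1, fun k => if k < n then Y2 k else y2,
      fun k => if k < n then Y3 k else y3, ?_, ?_, ?_, ?_⟩
    · intro k hk
      by_cases h : k < n
      · simp only [if_pos h]
        exact h1 k h
      · simp only [if_neg h]
        have : k = n := by omega
        subst this
        exact ⟨z1, z2, z3, w1, w2, w3, v7⟩
    · rw [Finset.sum_range_succ, if_neg (by omega), Finset.sum_congr rfl
        (fun k hk => if_pos (Finset.mem_range.1 hk)), h2]
      ring
    · rw [Finset.sum_range_succ, if_neg (by omega), Finset.sum_congr rfl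
        (fun k hk => if_pos (Finset.mem_range.1 hk)), h3]
      ring
    · rw [Finset.sum_range_succ, if_neg (by omega), Finset.sum_congr rfl
        (fun k hk => if_pos (Finset.mem_range.1 hk)), h4]
      ring

end Pool.Agent.H997LT
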