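import Mathlib
import Pool.Agent.H997LT.Poly
import Pool.Agent.H997LT.Lin

set_option autoImplicit false

/-! The numbers of cells of each colour in the six blocks of a diagram with three row lengths. -/

open Finset

namespace Pool.Agent.H997LT

/-- the eight cuts, as pairs slope and constant -/
def SX (p1 p2 p3 c1 c2 c3 : ℤ) : Finset (ℤ × ℤ) :=
  {(0, p1 * (c2 + c3) + p2 * c2), (c2, p1 * c3), (c2 + c3, 0),
    (p1 - c1, p2 * (c1 + c2) + p3 * c1), (p1, p2 * c2), (p1 + c2, 0),
    (p1 + p2 - c1, p3 * c1), (p1 + p2, 0)}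

def SA (p1 p2 p3 c1 c2 c3 : ℤ) : Finset (ℤ × ℤ) :=
  {(p1, 0), (p1 - c1, c1 * (p2 + p3)), (p1 + p3 - c1, c1 * p2), (c3, p1 * c2),
      (0, p1 * (c2 + c3))}

def SB (p1 p2 p3 c1 c2 : ℤ) : Finset (ℤ × ℤ) :=
  {(p2, 0), (c2, 0), (p2 - c1, c1 * (p1 + p3)), (p2 + p3 - c1, c1 * p1),
      (0, p2 * c2)}

theorem exists_betweenZ (n : ℕ) (L U : ℕ → ℤ) (Y : ℤ) (hL : ∀ k < n, 0 ≤ L k)
    (hLU : ∀ k < n, L k ≤ U k) (h1 : ∑ k ∈ range n, L k ≤ Y) (h2 : Y ≤ ∑ k ∈ range n, U k) :
    ∃ y : ℕ → ℤ, (∀ k < n, L k ≤ y k ∧ y k ≤ U k) ∧ ∑ k ∈ range n, y k = Y := by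
  induction n generalizing Y with
  | zero =>
    refine ⟨fun _ => 0, fun k hk => absurd hk (by omega), ?_⟩
    simp only [Finset.range_zero, Finset.sum_empty] at h1 h2 ⊢
    omega
  | succ n ih =>
    rw [Finset.sum_range_succ] at h1 h2
    have hn := hLU n (by omega)
    set A := ∑ k ∈ range n, L k with hA
    set B := ∑ k ∈ range n, U k with hB
    have hAB : A ≤ B := Finset.sum_le_sum (fun k hk => hLU k (by
      have := Finset.mem_range.1 hk; omega))
    obtain ⟨y, hy1, hy2⟩ := ih (Y - min (U n) (Y - A)) (fun k hk => hL k (by omega))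
      (fun k hk => hLU k (by omega)) (by omega) (by omega)
    refine ⟨fun k => if k < n then y k else min (U n) (Y - A), ?_, ?_⟩
    · intro k hk
      show L k ≤ (if k < n then y k else min (U n) (Y - A)) ∧
        (if k < n then y k else min (U n) (Y - A)) ≤ U k
      by_cases h : k < n
      · rw [if_pos h]; exact hy1 k h
      · rw [if_neg h]
        have : k = n := by omega
        subst this
        constructor <;> omega
    · rw [Finset.sum_range_succ, if_neg (by omega)]
      have : ∑ k ∈ range n, (if k < n then y k else min (U n) (Y - A)) = ∑ k ∈ range n, y k :=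
        Finset.sum_congr rfl (fun k hk => if_pos (Finset.mem_range.1 hk))
      rw [this, hy2]
      omega

/-- `min` in terms of the excess -/
theorem sum_min (n : ℕ) (f : ℕ → ℤ) (c q r : ℤ)
    (h : ∑ k ∈ range n, max 0 (f k - (q - c)) ≤ r) :
    n * c - r ≤ ∑ k ∈ range n, min c (q - f k) := by
  have : ∀ k ∈ range n, min c (q - f k) = c - max 0 (f k - (q - c)) := by
    intro k _
    omega
  rw [Finset.sum_congr rfl this, Finset.sum_sub_distrib]
  simp only [Finset.sum_const, Finset.card_range, nsmul_eq_mul]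
  linarith

set_option maxHeartbeats 4000000 in
theorem seqs3 (P1 P2 P3 C1 C2 C3 : ℤ) (n : ℕ) (p1n : 0 ≤ P1) (p2n : 0 ≤ P2) (p3n : 0 ≤ P3)
    (c1n : 0 ≤ C1) (c2n : 0 ≤ C2) (c3n : 0 ≤ C3) (hRZ : C1 + C2 + C3 ≤ P1 + P2 + P3)
    (hnZ : (n : ℤ) = P1 + P2 + P3) (hX : (SX P1 P2 P3 C1 C2 C3).Nonempty) :
    ∃ y1 y2 y3 u v w : ℕ → ℤ,
      (∀ k < n, 0 ≤ y1 k ∧ 0 ≤ y2 k ∧ 0 ≤ y3 k ∧ 0 ≤ u k ∧ 0 ≤ v k ∧ 0 ≤ w k ∧
        y1 k + u k + v k ≤ P1 ∧ y2 k + w k ≤ P2 ∧ y3 k ≤ P3 ∧ y1 k + y2 k + y3 k = C1 ∧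
        u k + w k ≤ C2 ∧ v k ≤ C3) ∧
      ∑ k ∈ range n, y1 k = P1 * C1 ∧ ∑ k ∈ range n, y2 k = P2 * C1 ∧
      ∑ k ∈ range n, y3 k = P3 * C1 ∧ ∑ k ∈ range n, u k = P1 * C2 ∧
      ∑ k ∈ range n, v k = P1 * C3 ∧ ∑ k ∈ range n, w k = P2 * C2 ∧
      ∀ k ≤ n, ∑ j ∈ range k, (u j + v j + w j) = lin (SX P1 P2 P3 C1 C2 C3) hX k := by
  set ξ : ℕ → ℤ := lin (SX P1 P2 P3 C1 C2 C3) hX with hξ
  -- products
  have hD : 0 ≤ P1 + P2 + P3 - C1 - C2 - C3 := by linarith
  have g1 : 0 ≤ P1 * C1 := mul_nonneg p1n c1n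
  have g2 : 0 ≤ P1 * C2 := mul_nonneg p1n c2n
  have g3 : 0 ≤ P1 * C3 := mul_nonneg p1n c3n
  have g4 : 0 ≤ P2 * C1 := mul_nonneg p2n c1n
  have g5 : 0 ≤ P2 * C2 := mul_nonneg p2n c2n
  have g6 : 0 ≤ P2 * C3 := mul_nonneg p2n c3n
  have g7 : 0 ≤ P3 * C1 := mul_nonneg p3n c1n
  have g8 : 0 ≤ P3 * C2 := mul_nonneg p3n c2n
  have g9 : 0 ≤ P3 * C3 := mul_nonneg p3n c3n
  have d1 : 0 ≤ P1 * (P1 + P2 + P3 - C1 - C2 - C3) := mul_nonneg p1n hD
  have d2 : 0 ≤ P2 * (P1 + P2 + P3 - C1 - C2 - C3) := mul_nonneg p2n hD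
  have d3 : 0 ≤ P3 * (P1 + P2 + P3 - C1 - C2 - C3) := mul_nonneg p3n hD
  have hjn : ∀ j : ℕ, j ≤ n → (j : ℤ) ≤ P1 + P2 + P3 := by
    intro j hj
    rw [← hnZ]
    exact_mod_cast hj
  -- the cuts
  have x1 : ∀ j : ℕ, ξ j ≤ P1 * (C2 + C3) + P2 * C2 := fun j => by
    have := lin_le _ hX j (0, P1 * (C2 + C3) + P2 * C2) (by simp [SX])
    simpa using this
  have x2 : ∀ j : ℕ, ξ j ≤ j * C2 + P1 * C3 := fun j => by
    have := lin_le _ hX j (C2, P1 * C3) (by simp [SX])
    simp only at this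
    rw [hξ]; linarith
  have x3 : ∀ j : ℕ, ξ j ≤ j * (C2 + C3) := fun j => by
    have := lin_le _ hX j (C2 + C3, 0) (by simp [SX])
    simp only at this
    rw [hξ]; linarith
  have x4 : ∀ j : ℕ, ξ j ≤ j * (P1 - C1) + (P2 * (C1 + C2) + P3 * C1) := fun j => by
    have := lin_le _ hX j (P1 - C1, P2 * (C1 + C2) + P3 * C1) (by simp [SX])
    simp only at this
    rw [hξ]; linarith
  have x5 : ∀ j : ℕ, ξ j ≤ j * P1 + P2 * C2 := fun j => by
    have := lin_le _ hX j (P1, P2 * C2) (by simp [SX])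
    simp only at this
    rw [hξ]; linarith
  have x6 : ∀ j : ℕ, ξ j ≤ j * (P1 + C2) := fun j => by
    have := lin_le _ hX j (P1 + C2, 0) (by simp [SX])
    simp only at this
    rw [hξ]; linarith
  have x7 : ∀ j : ℕ, ξ j ≤ j * (P1 + P2 - C1) + P3 * C1 := fun j => by
    have := lin_le _ hX j (P1 + P2 - C1, P3 * C1) (by simp [SX])
    simp only at this
    rw [hξ]; linarith
  have x8 : ∀ j : ℕ, ξ j ≤ j * (P1 + P2) := fun j => by
    have := lin_le _ hX j (P1 + P2, 0) (by simp [SX])
    simp only at this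
    rw [hξ]; linarith
  have hξ0 : ξ 0 = 0 := by
    refine lin_zero _ hX ?_ ⟨(C2 + C3, 0), by simp [SX], rfl⟩
    intro t ht
    simp only [SX, Finset.mem_insert, Finset.mem_singleton] at ht
    rcases ht with rfl | rfl | rfl | rfl | rfl | rfl | rfl | rfl <;> simp only <;> nlinarith
  have hξc : ∀ j, ξ j + ξ (j + 2) ≤ 2 * ξ (j + 1) := lin_conc _ hX
  have hξm : ∀ j, j < n → ξ j ≤ ξ (j + 1) := by
    refine lin_mono _ hX n (P1 * (C2 + C3) + P2 * C2) x1 ?_
    intro t ht
    simp only [SX, Finset.mem_insert, Finset.mem_singleton] at ht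
    rcases ht with rfl | rfl | rfl | rfl | rfl | rfl | rfl | rfl
    · exact Or.inl le_rfl
    · exact Or.inl c2n
    · exact Or.inl (by simp only; linarith)
    · rcases le_total C1 P1 with h | h
      · exact Or.inl (by simp only; linarith)
      · refine Or.inr (fun j hj => ?_)
        have := mul_nonneg (sub_nonneg.2 (hjn j hj)) (sub_nonneg.2 h)
        simp only
        linarith
    · exact Or.inl p1n
    · exact Or.inl (by simp only; linarith)
    · rcases le_total C1 (P1 + P2) with h | h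
      · exact Or.inl (by simp only; linarith)
      · refine Or.inr (fun j hj => ?_)
        have := mul_nonneg (sub_nonneg.2 (hjn j hj)) (sub_nonneg.2 h)
        simp only
        linarith
    · exact Or.inl (by simp only; linarith)
  have hξn : ξ n = P1 * (C2 + C3) + P2 * C2 := by
    refine le_antisymm (x1 n) (le_lin _ hX n _ ?_)
    intro t ht
    rw [hnZ]
    simp only [SX, Finset.mem_insert, Finset.mem_singleton] at ht
    rcases ht with rfl | rfl | rfl | rfl | rfl | rfl | rfl | rfl <;> simp only <;> nlinarith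
  -- the sequence of increments
  set s : ℕ → ℤ := fun k => ξ (k + 1) - ξ k with hs
  have hss : ∀ j, ξ (j + 1) = ξ j + s j := fun j => by rw [hs]; simp only; ring
  have hsum : ∀ j, ∑ k ∈ range j, s k = ξ j := by
    intro j
    have : ∑ k ∈ range j, s k = ξ j - ξ 0 := by rw [hs]; exact Finset.sum_range_sub ξ j
    rw [this, hξ0, sub_zero]
  have hsanti : Antitone s := by
    refine antitone_nat_of_succ_le (fun k => ?_)
    have := hξc k
    show ξ (k + 1 + 1) - ξ (k + 1) ≤ ξ (k + 1) - ξ k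
    have e : k + 1 + 1 = k + 2 := rfl
    rw [e]
    linarith
  have hs0 : ∀ j, j < n → 0 ≤ s j := fun j hj => by
    show 0 ≤ ξ (j + 1) - ξ j
    linarith [hξm j hj]
  have hsC : ∀ j, s j ≤ C2 + C3 := by
    intro j
    refine le_trans (hsanti (Nat.zero_le j)) ?_
    show ξ (0 + 1) - ξ 0 ≤ C2 + C3
    rw [hξ0]
    have := x3 1
    push_cast at this
    rw [Nat.zero_add]
    linarith
  -- the two polymatroids
  have hAne : (SA P1 P2 P3 C1 C2 C3).Nonempty := ⟨(P1, 0), by simp [SA]⟩
  have hBne : (SB P1 P2 P3 C1 C2).Nonempty := ⟨(P2, 0), by simp [SB]⟩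
  set a : ℕ → ℤ := lin (SA P1 P2 P3 C1 C2 C3) hAne with ha
  set b : ℕ → ℤ := lin (SB P1 P2 P3 C1 C2) hBne with hb
  have a1 : ∀ j : ℕ, a j ≤ j * P1 := fun j => by
    have := lin_le _ hAne j (P1, 0) (by simp [SA])
    simp only at this
    rw [ha]; linarith
  have a2 : ∀ j : ℕ, a j ≤ j * (P1 - C1) + C1 * (P2 + P3) := fun j => by
    have := lin_le _ hAne j (P1 - C1, C1 * (P2 + P3)) (by simp [SA])
    simp only at this
    rw [ha]; linarith
  have a3 : ∀ j : ℕ, a j ≤ j * (P1 + P3 - C1) + C1 * P2 := fun j => by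
    have := lin_le _ hAne j (P1 + P3 - C1, C1 * P2) (by simp [SA])
    simp only at this
    rw [ha]; linarith
  have a4 : ∀ j : ℕ, a j ≤ j * C3 + P1 * C2 := fun j => by
    have := lin_le _ hAne j (C3, P1 * C2) (by simp [SA])
    simp only at this
    rw [ha]; linarith
  have a5 : ∀ j : ℕ, a j ≤ P1 * (C2 + C3) := fun j => by
    have := lin_le _ hAne j (0, P1 * (C2 + C3)) (by simp [SA])
    simp only at this
    rw [ha]; linarith
  have b1 : ∀ j : ℕ, b j ≤ j * P2 := fun j => by
    have := lin_le _ hBne j (P2, 0) (by simp [SB])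
    simp only at this
    rw [hb]; linarith
  have b2 : ∀ j : ℕ, b j ≤ j * C2 := fun j => by
    have := lin_le _ hBne j (C2, 0) (by simp [SB])
    simp only at this
    rw [hb]; linarith
  have b3 : ∀ j : ℕ, b j ≤ j * (P2 - C1) + C1 * (P1 + P3) := fun j => by
    have := lin_le _ hBne j (P2 - C1, C1 * (P1 + P3)) (by simp [SB])
    simp only at this
    rw [hb]; linarith
  have b4 : ∀ j : ℕ, b j ≤ j * (P2 + P3 - C1) + C1 * P1 := fun j => by
    have := lin_le _ hBne j (P2 + P3 - C1, C1 * P1) (by simp [SB])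
    simp only at this
    rw [hb]; linarith
  have b5 : ∀ j : ℕ, b j ≤ P2 * C2 := fun j => by
    have := lin_le _ hBne j (0, P2 * C2) (by simp [SB])
    simp only at this
    rw [hb]; linarith
  have ha0 : a 0 = 0 := by
    refine lin_zero _ hAne ?_ ⟨(P1, 0), by simp [SA], rfl⟩
    intro t ht
    simp only [SA, Finset.mem_insert, Finset.mem_singleton] at ht
    rcases ht with rfl | rfl | rfl | rfl | rfl <;> simp only <;> nlinarith
  have hb0 : b 0 = 0 := by
    refine lin_zero _ hBne ?_ ⟨(P2, 0), by simp [SB], rfl⟩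
    intro t ht
    simp only [SB, Finset.mem_insert, Finset.mem_singleton] at ht
    rcases ht with rfl | rfl | rfl | rfl | rfl <;> simp only <;> nlinarith
  have ham : ∀ j, j < n → a j ≤ a (j + 1) := by
    refine lin_mono _ hAne n (P1 * (C2 + C3)) a5 ?_
    intro t ht
    simp only [SA, Finset.mem_insert, Finset.mem_singleton] at ht
    rcases ht with rfl | rfl | rfl | rfl | rfl
    · exact Or.inl p1n
    · rcases le_total C1 P1 with h | h
      · exact Or.inl (by simp only; linarith)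
      · refine Or.inr (fun j hj => ?_)
        have := mul_nonneg (sub_nonneg.2 (hjn j hj)) (sub_nonneg.2 h)
        simp only
        linarith
    · rcases le_total C1 (P1 + P3) with h | h
      · exact Or.inl (by simp only; linarith)
      · refine Or.inr (fun j hj => ?_)
        have := mul_nonneg (sub_nonneg.2 (hjn j hj)) (sub_nonneg.2 h)
        simp only
        linarith
    · exact Or.inl c3n
    · exact Or.inl le_rfl
  have hbm : ∀ j, j < n → b j ≤ b (j + 1) := by
    refine lin_mono _ hBne n (P2 * C2) b5 ?_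
    intro t ht
    simp only [SB, Finset.mem_insert, Finset.mem_singleton] at ht
    rcases ht with rfl | rfl | rfl | rfl | rfl
    · exact Or.inl p2n
    · exact Or.inl c2n
    · rcases le_total C1 P2 with h | h
      · exact Or.inl (by simp only; linarith)
      · refine Or.inr (fun j hj => ?_)
        have := mul_nonneg (sub_nonneg.2 (hjn j hj)) (sub_nonneg.2 h)
        simp only
        linarith
    · rcases le_total C1 (P2 + P3) with h | h
      · exact Or.inl (by simp only; linarith)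
      · refine Or.inr (fun j hj => ?_)
        have := mul_nonneg (sub_nonneg.2 (hjn j hj)) (sub_nonneg.2 h)
        simp only
        linarith
    · exact Or.inl le_rfl
  have hab : ∀ j, j ≤ n → ∑ k ∈ range j, s k ≤ a j + b j := by
    intro j hj
    rw [hsum j]
    obtain ⟨t, ht, et⟩ := lin_ex _ hAne j
    obtain ⟨t', ht', et'⟩ := lin_ex _ hBne j
    rw [ha, hb, et, et']
    exact pairs P1 P2 P3 C1 C2 C3 j (ξ j) p1n p2n p3n c1n c2n c3n (by positivity) hRZ (hjn j hj)
      (x1 j) (x2 j) (x3 j) (x4 j) (x5 j) (x6 j) (x7 j) (x8 j) t ht t' ht'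
  obtain ⟨f, w, hfw, hfA, hwA⟩ := ps n a b s ha0 hb0 (fun j _ => lin_conc _ hAne j)
    (fun j _ => lin_conc _ hBne j) ham hbm (fun j _ => hsanti (Nat.le_succ j)) hs0 hab
  -- consequences
  have hfsum : ∑ k ∈ range n, f k = P1 * (C2 + C3) ∧ ∑ k ∈ range n, w k = P2 * C2 := by
    have e1 : ∑ k ∈ range n, f k ≤ P1 * (C2 + C3) :=
      le_trans (hfA (range n) (Finset.Subset.refl _)) (a5 _)
    have e2 : ∑ k ∈ range n, w k ≤ P2 * C2 :=
      le_trans (hwA (range n) (Finset.Subset.refl _)) (b5 _)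
    have e3 : ∑ k ∈ range n, f k + ∑ k ∈ range n, w k = P1 * (C2 + C3) + P2 * C2 := by
      rw [← Finset.sum_add_distrib, ← hξn, ← hsum n]
      exact Finset.sum_congr rfl (fun k hk => (hfw k (Finset.mem_range.1 hk)).2.2)
    constructor <;> linarith
  obtain ⟨hfs, hws⟩ := hfsum
  have hfp : ∀ k < n, f k ≤ P1 := by
    intro k hk
    have := hfA {k} (by simpa using hk)
    rw [Finset.sum_singleton, Finset.card_singleton] at this
    have h2 := a1 1
    push_cast at h2
    linarith
  have hwp : ∀ k < n, w k ≤ P2 ∧ w k ≤ C2 := by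
    intro k hk
    have := hwA {k} (by simpa using hk)
    rw [Finset.sum_singleton, Finset.card_singleton] at this
    have h2 := b1 1
    have h3 := b2 1
    push_cast at h2 h3
    constructor <;> linarith
  have E1 := excess n f a hfA (P1 - C1) (C1 * (P2 + P3)) (fun j _ => a2 j)
  have E2 := excess n f a hfA (P1 + P3 - C1) (C1 * P2) (fun j _ => a3 j)
  have E3 := excess n f a hfA C3 (P1 * C2) (fun j _ => a4 j)
  have E4 := excess n w b hwA (P2 - C1) (C1 * (P1 + P3)) (fun j _ => b3 j)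
  have E5 := excess n w b hwA (P2 + P3 - C1) (C1 * P1) (fun j _ => b4 j)
  have E6 := excess_anti n s ξ hξ0 hss hsanti C2 (P1 * C3) (fun j _ => x2 j)
  have E7 := excess_anti n s ξ hξ0 hss hsanti (P1 + P2 - C1) (P3 * C1) (fun j _ => x7 j)
  -- the block of the longest rows and the last columns
  obtain ⟨v, hv1, hv2⟩ := exists_betweenZ n (fun k => max 0 (s k - C2)) (fun k => min C3 (f k))
    (P1 * C3) (fun k _ => le_max_left _ _)
    (by
      intro k hk
      obtain ⟨h1, h2, h3⟩ := hfw k hk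
      have h4 := hwp k hk
      have h5 := hsC k
      show max 0 (s k - C2) ≤ min C3 (f k)
      omega)
    E6
    (by
      have e1 : ∀ k ∈ range n, min C3 (f k) = f k - max 0 (f k - C3) := by
        intro k _
        omega
      rw [Finset.sum_congr rfl e1, Finset.sum_sub_distrib, hfs]
      linarith)
  -- the first group of columns
  obtain ⟨y1, y2, y3, hy, hy1, hy2, hy3⟩ := transport C1 c1n n (fun k => P1 - f k)
    (fun k => P2 - w k) (fun _ => P3) (P1 * C1) (P2 * C1) (P3 * C1)
    (by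
      intro k hk
      have h1 := hfp k hk
      have h2 := hwp k hk
      have h3 := hfw k hk
      have h4 := hsC k
      refine ⟨by linarith, by linarith, p3n, ?_⟩
      show C1 ≤ P1 - f k + (P2 - w k) + P3
      linarith)
    g1 g4 g7 (by rw [hnZ]; ring)
    (by
      have := sum_min n f C1 P1 _ E1
      rw [hnZ] at this
      linarith)
    (by
      have := sum_min n w C1 P2 _ E4
      rw [hnZ] at this
      linarith)
    (by
      simp only [Finset.sum_const, Finset.card_range, nsmul_eq_mul]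
      rw [hnZ]
      rcases le_total C1 P3 with h | h
      · rw [min_eq_left h]; nlinarith
      · rw [min_eq_right h]; nlinarith)
    (by
      have e1 : ∀ k ∈ range n, min C1 (P1 - f k + (P2 - w k)) = min C1 (P1 + P2 - s k) := by
        intro k hk
        have := (hfw k (Finset.mem_range.1 hk)).2.2
        congr 1
        linarith
      rw [Finset.sum_congr rfl e1]
      have := sum_min n s C1 (P1 + P2) _ E7
      rw [hnZ] at this
      linarith)
    (by
      have e1 : ∀ k ∈ range n, min C1 (P1 - f k + P3) = min C1 (P1 + P3 - f k) := by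
        intro k _
        congr 1
        ring
      rw [Finset.sum_congr rfl e1]
      have := sum_min n f C1 (P1 + P3) _ E2
      rw [hnZ] at this
      linarith)
    (by
      have e1 : ∀ k ∈ range n, min C1 (P2 - w k + P3) = min C1 (P2 + P3 - w k) := by
        intro k _
        congr 1
        ring
      rw [Finset.sum_congr rfl e1]
      have := sum_min n w C1 (P2 + P3) _ E5
      rw [hnZ] at this
      linarith)
  refine ⟨y1, y2, y3, fun k => f k - v k, v, w, ?_, hy1, hy2, hy3, ?_, hv2, hws, ?_⟩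
  · intro k hk
    obtain ⟨z1, z2, z3, z4, z5, z6, z7⟩ := hy k hk
    obtain ⟨t1, t2⟩ := hv1 k hk
    obtain ⟨q1, q2, q3⟩ := hfw k hk
    have q4 := hwp k hk
    have t3 := le_trans (le_max_left _ _) t1
    have t4 := le_trans (le_max_right _ _) t1
    have t5 := le_trans t2 (min_le_left _ _)
    have t6 := le_trans t2 (min_le_right _ _)
    refine ⟨z1, z2, z3, ?_, t3, q2, ?_, ?_, z6, z7, ?_, t5⟩
    · show 0 ≤ f k - v k
      linarith
    · show y1 k + (f k - v k) + v k ≤ P1
      linarith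
    · linarith
    · show f k - v k + w k ≤ C2
      linarith
  · rw [Finset.sum_sub_distrib, hfs, hv2]
    ring
  · intro k hk
    rw [← hsum k]
    refine Finset.sum_congr rfl (fun j hj => ?_)
    have := (hfw j (by have := Finset.mem_range.1 hj; omega)).2.2
    show f j - v j + v j + w j = s j
    linarith

end Pool.Agent.H997LT
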