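import Mathlib
import Pool.Agent.H997LT.Seqs3
import Pool.Agent.H997LT.FillG

set_option autoImplicit false

/-! Diagrams with three row lengths. -/

open Finset

namespace Pool.Agent.H997LT

/-- three values as a function on the naturals -/
def tri (a b c : ℕ) (i : ℕ) : ℕ := if i = 0 then a else if i = 1 then b else if i = 2 then c else 0

theorem off_tri0 (a b c : ℕ) : off (tri a b c) 0 = 0 := by simp [off]
theorem off_tri1 (a b c : ℕ) : off (tri a b c) 1 = a := by simp [off, tri]
theorem off_tri2 (a b c : ℕ) : off (tri a b c) 2 = a + b := by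
  simp [off, tri, Finset.sum_range_succ]
theorem off_tri3 (a b c : ℕ) : off (tri a b c) 3 = a + b + c := by
  simp [off, tri, Finset.sum_range_succ]

/-- the cells of the diagram with `p1` rows of length `c1 + c2 + c3`, `p2` rows of length
`c1 + c2` and `p3` rows of length `c1` -/
def hook3 (p1 p2 p3 c1 c2 c3 : ℕ) : Finset (ℕ × ℕ) :=
  ((range (p1 + p2 + p3)) ×ˢ (range (c1 + c2 + c3))).filter
    (fun x => x.1 < p1 ∨ (x.1 < p1 + p2 ∧ x.2 < c1 + c2) ∨ x.2 < c1)

theorem mem_hook3 (p1 p2 p3 c1 c2 c3 : ℕ) (x : ℕ × ℕ) :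
    x ∈ hook3 p1 p2 p3 c1 c2 c3 ↔ x.1 < p1 + p2 + p3 ∧ x.2 < c1 + c2 + c3 ∧
      (x.1 < p1 ∨ (x.1 < p1 + p2 ∧ x.2 < c1 + c2) ∨ x.2 < c1) := by
  unfold hook3
  rw [Finset.mem_filter, Finset.mem_product, Finset.mem_range, Finset.mem_range]
  tauto

theorem diag_eq (p1 p2 p3 c1 c2 c3 : ℕ) :
    diag 3 (tri p1 p2 p3) (tri c1 c2 c3) = hook3 p1 p2 p3 c1 c2 c3 := by
  ext ⟨a, b⟩
  rw [mem_hook3]
  unfold diag
  rw [Finset.mem_biUnion]
  constructor
  · rintro ⟨⟨i, j⟩, hij, hab⟩
    rw [Finset.mem_filter, Finset.mem_product, Finset.mem_range, Finset.mem_range] at hij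
    rw [Finset.mem_product, Finset.mem_Ico, Finset.mem_Ico] at hab
    obtain ⟨⟨hi, hj⟩, hs⟩ := hij
    simp only at hi hj hs hab ⊢
    interval_cases i <;> interval_cases j <;>
      simp only [off_tri0, off_tri1, off_tri2, off_tri3, Nat.zero_add, Nat.reduceAdd] at hab hs <;>
      omega
  · intro h
    simp only at h
    have hP : ∀ (i j : ℕ), i < 3 → j < 3 → i + j < 3 →
        (off (tri p1 p2 p3) i ≤ a ∧ a < off (tri p1 p2 p3) (i + 1)) →
        (off (tri c1 c2 c3) j ≤ b ∧ b < off (tri c1 c2 c3) (j + 1)) →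
        ∃ u ∈ ((range 3) ×ˢ (range 3)).filter (fun u => u.1 + u.2 < 3),
          (a, b) ∈ (Ico (off (tri p1 p2 p3) u.1) (off (tri p1 p2 p3) (u.1 + 1))) ×ˢ
            (Ico (off (tri c1 c2 c3) u.2) (off (tri c1 c2 c3) (u.2 + 1))) := by
      intro i j hi hj hij h1 h2
      refine ⟨(i, j), ?_, ?_⟩
      · rw [Finset.mem_filter, Finset.mem_product, Finset.mem_range, Finset.mem_range]
        exact ⟨⟨hi, hj⟩, hij⟩
      · rw [Finset.mem_product, Finset.mem_Ico, Finset.mem_Ico]
        exact ⟨h1, h2⟩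
    have o0 := off_tri0 p1 p2 p3
    have o1 := off_tri1 p1 p2 p3
    have o2 := off_tri2 p1 p2 p3
    have o3 := off_tri3 p1 p2 p3
    have q0 := off_tri0 c1 c2 c3
    have q1 := off_tri1 c1 c2 c3
    have q2 := off_tri2 c1 c2 c3
    have q3 := off_tri3 c1 c2 c3
    rcases lt_or_ge a p1 with ha | ha
    · rcases lt_or_ge b c1 with hb | hb
      · exact hP 0 0 (by omega) (by omega) (by omega) ⟨by omega, by rw [o1]; omega⟩
          ⟨by omega, by rw [q1]; omega⟩
      · rcases lt_or_ge b (c1 + c2) with hb' | hb'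
        · exact hP 0 1 (by omega) (by omega) (by omega) ⟨by omega, by rw [o1]; omega⟩
            ⟨by omega, by rw [q2]; omega⟩
        · exact hP 0 2 (by omega) (by omega) (by omega) ⟨by omega, by rw [o1]; omega⟩
            ⟨by omega, by rw [q3]; omega⟩
    · rcases lt_or_ge a (p1 + p2) with ha' | ha'
      · rcases lt_or_ge b c1 with hb | hb
        · exact hP 1 0 (by omega) (by omega) (by omega) ⟨by omega, by rw [o2]; omega⟩
            ⟨by omega, by rw [q1]; omega⟩
        · exact hP 1 1 (by omega) (by omega) (by omega) ⟨by omega, by rw [o2]; omega⟩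
            ⟨by omega, by rw [q2]; omega⟩
      · exact hP 2 0 (by omega) (by omega) (by omega) ⟨by omega, by rw [o3]; omega⟩
          ⟨by omega, by rw [q1]; omega⟩

theorem card_two (S : Finset (ℕ × ℕ)) (a b c d a' b' c' d' : ℕ)
    (h : ∀ x ∈ S, (a ≤ x.1 ∧ x.1 < a + b ∧ c ≤ x.2 ∧ x.2 < c + d) ∨
      (a' ≤ x.1 ∧ x.1 < a' + b' ∧ c' ≤ x.2 ∧ x.2 < c' + d')) : S.card ≤ b * d + b' * d' := by
  have h1 : S ⊆ ((Ico a (a + b)) ×ˢ (Ico c (c + d))) ∪ ((Ico a' (a' + b')) ×ˢ (Ico c' (c' + d'))) := by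
    intro x hx
    rw [Finset.mem_union, Finset.mem_product, Finset.mem_product, Finset.mem_Ico, Finset.mem_Ico,
      Finset.mem_Ico, Finset.mem_Ico]
    rcases h x hx with h | h
    · left; omega
    · right; omega
  refine le_trans (Finset.card_le_card h1) (le_trans (Finset.card_union_le _ _) ?_)
  rw [Finset.card_product, Finset.card_product, Nat.card_Ico, Nat.card_Ico, Nat.card_Ico,
    Nat.card_Ico]
  simp

set_option maxHeartbeats 4000000 in
theorem good_hook3_aux (p1 p2 p3 c1 c2 c3 : ℕ) (h : c1 + c2 + c3 ≤ p1 + p2 + p3) :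
    ∃ c, Good (hook3 p1 p2 p3 c1 c2 c3) c := by
  have hX : (SX (p1 : ℤ) p2 p3 c1 c2 c3).Nonempty := ⟨(c2 + c3, 0), by simp [SX]⟩
  obtain ⟨y1, y2, y3, u, v, w, hk, s1, s2, s3, s4, s5, s6, hxi⟩ := seqs3 (p1 : ℤ) p2 p3 c1 c2 c3
    (p1 + p2 + p3) (by positivity) (by positivity) (by positivity) (by positivity)
    (by positivity) (by positivity) (by exact_mod_cast h) (by push_cast; rfl) hX
  set n := p1 + p2 + p3 with hn
  -- natural numbers
  have conv : ∀ (g : ℕ → ℤ) (T : ℕ), (∀ k < n, 0 ≤ g k) → ∑ k ∈ range n, g k = T →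
      ∑ k ∈ range n, (g k).toNat = T := by
    intro g T hg hT
    have : ((∑ k ∈ range n, (g k).toNat : ℕ) : ℤ) = T := by
      rw [← hT, Nat.cast_sum]
      exact Finset.sum_congr rfl (fun k hk' => Int.toNat_of_nonneg (hg k (Finset.mem_range.1 hk')))
    exact_mod_cast this
  have r1 := conv y1 (p1 * c1) (fun k h' => (hk k h').1) (by push_cast; exact s1)
  have r2 := conv y2 (p2 * c1) (fun k h' => (hk k h').2.1) (by push_cast; exact s2)
  have r3 := conv y3 (p3 * c1) (fun k h' => (hk k h').2.2.1) (by push_cast; exact s3)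
  have r4 := conv u (p1 * c2) (fun k h' => (hk k h').2.2.2.1) (by push_cast; exact s4)
  have r5 := conv v (p1 * c3) (fun k h' => (hk k h').2.2.2.2.1) (by push_cast; exact s5)
  have r6 := conv w (p2 * c2) (fun k h' => (hk k h').2.2.2.2.2.1) (by push_cast; exact s6)
  let N : ℕ → ℕ → ℕ → ℕ := fun k i j =>
    if i = 0 then (if j = 0 then (y1 k).toNat else if j = 1 then (u k).toNat
      else if j = 2 then (v k).toNat else 0)
    else if i = 1 then (if j = 0 then (y2 k).toNat else if j = 1 then (w k).toNat else 0)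
    else if i = 2 then (if j = 0 then (y3 k).toNat else 0) else 0
  obtain ⟨f, hf1, hf2, hf3⟩ := fillG 3 n (tri p1 p2 p3) (tri c1 c2 c3) N
    (by
      intro k i j hij
      simp only [N]
      split_ifs <;> first | rfl | omega)
    (by
      intro k hk' i hi
      obtain ⟨t1, t2, t3, t4, t5, t6, t7, t8, t9, t10, t11, t12⟩ := hk k hk'
      interval_cases i <;> simp [N, tri, Finset.sum_range_succ] <;> omega)
    (by
      intro k hk' j hj
      obtain ⟨t1, t2, t3, t4, t5, t6, t7, t8, t9, t10, t11, t12⟩ := hk k hk'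
      interval_cases j <;> simp [N, tri, Finset.sum_range_succ] <;> omega)
    (by
      intro i j hij
      have hi : i < 3 := by omega
      have hj : j < 3 := by omega
      interval_cases i <;> interval_cases j <;> first
        | (exfalso; omega)
        | (simp only [N, tri, if_true, if_false, one_ne_zero, OfNat.ofNat_ne_zero,
            OfNat.ofNat_ne_one, OfNat.one_ne_ofNat]
           first | exact r1 | exact r2 | exact r3 | exact r4 | exact r5 | exact r6)
        | (simp [N, tri]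
           first | exact r1 | exact r2 | exact r3 | exact r4 | exact r5 | exact r6))
  rw [diag_eq] at hf1 hf2 hf3
  refine ⟨f, hf1, ?_⟩
  intro k hk0
  rcases le_or_gt k n with hkn | hkn
  · have h2 := hf3 k hkn
    have h3 : ((∑ l ∈ range k, ∑ i ∈ range 3, ∑ j ∈ range 3, N l i j : ℕ) : ℤ) =
        k * c1 + lin (SX (p1 : ℤ) p2 p3 c1 c2 c3) hX k := by
      rw [← hxi k hkn, Nat.cast_sum]
      have : ∀ l ∈ range k, ((∑ i ∈ range 3, ∑ j ∈ range 3, N l i j : ℕ) : ℤ) =
          (c1 : ℤ) + (u l + v l + w l) := by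
        intro l hl
        obtain ⟨t1, t2, t3, t4, t5, t6, t7, t8, t9, t10, t11, t12⟩ :=
          hk l (by have := Finset.mem_range.1 hl; omega)
        simp [N, Finset.sum_range_succ]
        omega
      rw [Finset.sum_congr rfl this, Finset.sum_add_distrib]
      simp
    rw [← h2] at h3
    obtain ⟨t, ht, et⟩ := lin_ex _ hX k
    rw [et] at h3
    simp only [SX, Finset.mem_insert, Finset.mem_singleton] at ht
    rcases ht with rfl | rfl | rfl | rfl | rfl | rfl | rfl | rfl
    · refine ⟨0, c1, ?_⟩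
      have h5 := card_two ((hook3 p1 p2 p3 c1 c2 c3).filter (fun x => 0 ≤ x.1 ∧ c1 ≤ x.2))
        0 p1 c1 (c2 + c3) p1 p2 c1 c2 (by
          intro x hx
          rw [Finset.mem_filter, mem_hook3] at hx
          omega)
      have h6 : ((hook3 p1 p2 p3 c1 c2 c3).filter (fun x => f x < k)).card =
          k * c1 + (p1 * (c2 + c3) + p2 * c2) := by
        have : (((hook3 p1 p2 p3 c1 c2 c3).filter (fun x => f x < k)).card : ℤ) =
            ((k * c1 + (p1 * (c2 + c3) + p2 * c2) : ℕ) : ℤ) := by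
          rw [h3]; push_cast; ring
        exact_mod_cast this
      rw [h6, Nat.zero_add]
      omega
    · refine ⟨0, c1 + c2, ?_⟩
      have h5 := card_two ((hook3 p1 p2 p3 c1 c2 c3).filter (fun x => 0 ≤ x.1 ∧ c1 + c2 ≤ x.2))
        0 p1 (c1 + c2) c3 0 0 0 0 (by
          intro x hx
          rw [Finset.mem_filter, mem_hook3] at hx
          omega)
      have h6 : ((hook3 p1 p2 p3 c1 c2 c3).filter (fun x => f x < k)).card =
          k * (c1 + c2) + p1 * c3 := by
        have : (((hook3 p1 p2 p3 c1 c2 c3).filter (fun x => f x < k)).card : ℤ) =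
            ((k * (c1 + c2) + p1 * c3 : ℕ) : ℤ) := by
          rw [h3]; push_cast; ring
        exact_mod_cast this
      rw [h6, Nat.zero_add]
      omega
    · refine ⟨0, c1 + c2 + c3, ?_⟩
      have h5 := card_two ((hook3 p1 p2 p3 c1 c2 c3).filter
          (fun x => 0 ≤ x.1 ∧ c1 + c2 + c3 ≤ x.2)) 0 0 0 0 0 0 0 0 (by
          intro x hx
          rw [Finset.mem_filter, mem_hook3] at hx
          omega)
      have h6 : ((hook3 p1 p2 p3 c1 c2 c3).filter (fun x => f x < k)).card =
          k * (c1 + c2 + c3) := by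
        have : (((hook3 p1 p2 p3 c1 c2 c3).filter (fun x => f x < k)).card : ℤ) =
            ((k * (c1 + c2 + c3) : ℕ) : ℤ) := by
          rw [h3]; push_cast; ring
        exact_mod_cast this
      rw [h6, Nat.zero_add]
      omega
    · refine ⟨p1, 0, ?_⟩
      have h5 := card_two ((hook3 p1 p2 p3 c1 c2 c3).filter (fun x => p1 ≤ x.1 ∧ 0 ≤ x.2))
        p1 p2 0 (c1 + c2) (p1 + p2) p3 0 c1 (by
          intro x hx
          rw [Finset.mem_filter, mem_hook3] at hx
          omega)
      have h6 : ((hook3 p1 p2 p3 c1 c2 c3).filter (fun x => f x < k)).card =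
          k * p1 + (p2 * (c1 + c2) + p3 * c1) := by
        have : (((hook3 p1 p2 p3 c1 c2 c3).filter (fun x => f x < k)).card : ℤ) =
            ((k * p1 + (p2 * (c1 + c2) + p3 * c1) : ℕ) : ℤ) := by
          rw [h3]; push_cast; ring
        exact_mod_cast this
      rw [h6, Nat.add_zero]
      omega
    · refine ⟨p1, c1, ?_⟩
      have h5 := card_two ((hook3 p1 p2 p3 c1 c2 c3).filter (fun x => p1 ≤ x.1 ∧ c1 ≤ x.2))
        p1 p2 c1 c2 0 0 0 0 (by
          intro x hx
          rw [Finset.mem_filter, mem_hook3] at hx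
          omega)
      have h6 : ((hook3 p1 p2 p3 c1 c2 c3).filter (fun x => f x < k)).card =
          k * (p1 + c1) + p2 * c2 := by
        have : (((hook3 p1 p2 p3 c1 c2 c3).filter (fun x => f x < k)).card : ℤ) =
            ((k * (p1 + c1) + p2 * c2 : ℕ) : ℤ) := by
          rw [h3]; push_cast; ring
        exact_mod_cast this
      rw [h6]
      omega
    · refine ⟨p1, c1 + c2, ?_⟩
      have h5 := card_two ((hook3 p1 p2 p3 c1 c2 c3).filter (fun x => p1 ≤ x.1 ∧ c1 + c2 ≤ x.2))
        0 0 0 0 0 0 0 0 (by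
          intro x hx
          rw [Finset.mem_filter, mem_hook3] at hx
          omega)
      have h6 : ((hook3 p1 p2 p3 c1 c2 c3).filter (fun x => f x < k)).card =
          k * (p1 + (c1 + c2)) := by
        have : (((hook3 p1 p2 p3 c1 c2 c3).filter (fun x => f x < k)).card : ℤ) =
            ((k * (p1 + (c1 + c2)) : ℕ) : ℤ) := by
          rw [h3]; push_cast; ring
        exact_mod_cast this
      rw [h6]
      omega
    · refine ⟨p1 + p2, 0, ?_⟩
      have h5 := card_two ((hook3 p1 p2 p3 c1 c2 c3).filter (fun x => p1 + p2 ≤ x.1 ∧ 0 ≤ x.2))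
        (p1 + p2) p3 0 c1 0 0 0 0 (by
          intro x hx
          rw [Finset.mem_filter, mem_hook3] at hx
          omega)
      have h6 : ((hook3 p1 p2 p3 c1 c2 c3).filter (fun x => f x < k)).card =
          k * (p1 + p2) + p3 * c1 := by
        have : (((hook3 p1 p2 p3 c1 c2 c3).filter (fun x => f x < k)).card : ℤ) =
            ((k * (p1 + p2) + p3 * c1 : ℕ) : ℤ) := by
          rw [h3]; push_cast; ring
        exact_mod_cast this
      rw [h6, Nat.add_zero]
      omega
    · refine ⟨p1 + p2, c1, ?_⟩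
      have h5 := card_two ((hook3 p1 p2 p3 c1 c2 c3).filter (fun x => p1 + p2 ≤ x.1 ∧ c1 ≤ x.2))
        0 0 0 0 0 0 0 0 (by
          intro x hx
          rw [Finset.mem_filter, mem_hook3] at hx
          omega)
      have h6 : ((hook3 p1 p2 p3 c1 c2 c3).filter (fun x => f x < k)).card =
          k * (p1 + p2 + c1) := by
        have : (((hook3 p1 p2 p3 c1 c2 c3).filter (fun x => f x < k)).card : ℤ) =
            ((k * (p1 + p2 + c1) : ℕ) : ℤ) := by
          rw [h3]; push_cast; ring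
        exact_mod_cast this
      rw [h6]
      omega
  · refine ⟨0, 0, ?_⟩
    have h2 : (hook3 p1 p2 p3 c1 c2 c3).filter (fun u => f u < k) = hook3 p1 p2 p3 c1 c2 c3 := by
      rw [Finset.filter_eq_self]
      intro x hx
      have := hf2 x hx
      omega
    rw [h2, Nat.add_zero, Nat.mul_zero, Nat.zero_add]
    exact Finset.card_filter_le _ _

theorem good_hook3 (p1 p2 p3 c1 c2 c3 : ℕ) : ∃ c, Good (hook3 p1 p2 p3 c1 c2 c3) c := by
  rcases le_total (c1 + c2 + c3) (p1 + p2 + p3) with h | h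
  · exact good_hook3_aux p1 p2 p3 c1 c2 c3 h
  · obtain ⟨c, hc⟩ := good_hook3_aux c1 c2 c3 p1 p2 p3 h
    refine ⟨_, good_swap (hook3 c1 c2 c3 p1 p2 p3) (hook3 p1 p2 p3 c1 c2 c3) c hc ?_⟩
    intro u
    rw [mem_hook3, mem_hook3]
    simp only [Prod.fst_swap, Prod.snd_swap]
    omega

theorem cells_eq_hook3 (μ : YoungDiagram) (a b c : ℕ) (hcb : c ≤ b) (hba : b ≤ a)
    (h : ∀ i, μ.rowLen i = 0 ∨ μ.rowLen i = a ∨ μ.rowLen i = b ∨ μ.rowLen i = c) :
    ∃ p1 p2 p3 c1 c2 c3, μ.cells = hook3 p1 p2 p3 c1 c2 c3 := by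
  refine ⟨μ.colLen b, μ.colLen c - μ.colLen b, μ.colLen 0 - μ.colLen c, c, b - c, a - b, ?_⟩
  have hcol : ∀ i j, j < μ.rowLen i ↔ i < μ.colLen j := by
    intro i j
    rw [← YoungDiagram.mem_iff_lt_rowLen, ← YoungDiagram.mem_iff_lt_colLen]
  have h1 : μ.colLen b ≤ μ.colLen c := μ.colLen_anti _ _ hcb
  have h2 : μ.colLen c ≤ μ.colLen 0 := μ.colLen_anti _ _ (Nat.zero_le c)
  ext ⟨i, j⟩
  rw [YoungDiagram.mem_cells, YoungDiagram.mem_iff_lt_rowLen, mem_hook3]
  simp only
  have e1 := hcol i b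
  have e2 := hcol i 0
  have e3 := hcol i c
  rcases h i with h3 | h3 | h3 | h3 <;> rw [h3] at e1 e2 e3 ⊢ <;> omega

end Pool.Agent.H997LT
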