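import Mathlib
import Pool.Agent.H997LT.Three

set_option autoImplicit false

/-! Adding a long first row to a diagram. -/

open Finset

namespace Pool.Agent.H997LT

/-- the diagram without its first row -/
def dropRow (μ : YoungDiagram) : YoungDiagram where
  cells := (μ.cells.filter (fun c => 1 ≤ c.1)).image (fun c => (c.1 - 1, c.2))
  isLowerSet := by
    intro a b hba ha
    rw [Finset.mem_coe, Finset.mem_image] at ha ⊢
    obtain ⟨x, hx, hxa⟩ := ha
    rw [Finset.mem_filter, YoungDiagram.mem_cells] at hx
    refine ⟨(b.1 + 1, b.2), ?_, by simp⟩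
    rw [Finset.mem_filter, YoungDiagram.mem_cells]
    refine ⟨?_, by simp⟩
    have h1 : b.1 ≤ a.1 := hba.1
    have h2 : b.2 ≤ a.2 := hba.2
    rw [← hxa] at h1 h2
    simp only at h1 h2
    have hx' : (x.1, x.2) ∈ μ := hx.1
    exact μ.up_left_mem (by omega) h2 hx'

theorem mem_dropRow (μ : YoungDiagram) (i j : ℕ) : (i, j) ∈ dropRow μ ↔ (i + 1, j) ∈ μ := by
  rw [← YoungDiagram.mem_cells]
  unfold dropRow
  simp only [Finset.mem_image, Finset.mem_filter, YoungDiagram.mem_cells]
  constructor
  · rintro ⟨x, ⟨h1, h2⟩, h3⟩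
    have h4 : x.1 - 1 = i := congrArg Prod.fst h3
    have h5 : x.2 = j := congrArg Prod.snd h3
    have : x = (i + 1, j) := Prod.ext (by simp only; omega) h5
    rwa [← this]
  · intro h
    exact ⟨(i + 1, j), ⟨h, by simp⟩, by simp⟩

theorem mem_dropRow' (μ : YoungDiagram) (x : ℕ × ℕ) :
    x ∈ (dropRow μ).cells ↔ (x.1 + 1, x.2) ∈ μ.cells := by
  rw [YoungDiagram.mem_cells, YoungDiagram.mem_cells]
  exact mem_dropRow μ x.1 x.2

theorem mem_iff' (μ : YoungDiagram) (x : ℕ × ℕ) : x ∈ μ.cells ↔ x.2 < μ.rowLen x.1 := by
  rw [YoungDiagram.mem_cells]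
  exact YoungDiagram.mem_iff_lt_rowLen

theorem mem_iff_col (μ : YoungDiagram) (x : ℕ × ℕ) : x ∈ μ.cells ↔ x.1 < μ.colLen x.2 := by
  rw [YoungDiagram.mem_cells]
  exact YoungDiagram.mem_iff_lt_colLen

theorem good_transpose (μ : YoungDiagram) (h : ∃ c, Good μ.transpose.cells c) :
    ∃ c, Good μ.cells c := by
  obtain ⟨c, hc⟩ := h
  refine ⟨_, good_swap μ.transpose.cells μ.cells c hc ?_⟩
  intro x
  rw [YoungDiagram.mem_cells, YoungDiagram.mem_cells, YoungDiagram.mem_transpose, Prod.swap_swap]

theorem peel (μ : YoungDiagram)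
    (H : ∀ b, 1 ≤ b → b < μ.colLen 0 → μ.rowLen 0 + 2 ≤ b + μ.colLen 0 →
      μ.rowLen b + b ≤ μ.rowLen 0) (h : ∃ c, Good (dropRow μ).cells c) :
    ∃ c, Good μ.cells c := by
  classical
  obtain ⟨c', hp, hcut⟩ := h
  set n := μ.rowLen 0 with hn
  set T := (dropRow μ).cells with hT
  have hTm : ∀ x : ℕ × ℕ, x ∈ T ↔ (x.1 + 1, x.2) ∈ μ.cells := mem_dropRow' μ
  -- allowed colours
  let t : Fin n → Finset ℕ := fun j =>
    (range n).filter (fun c => ∀ i, (i, (j : ℕ)) ∈ T → c' (i, (j : ℕ)) ≠ c)
  have hall : ∀ A : Finset (Fin n), A.card ≤ (A.biUnion t).card := by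
    intro A
    by_contra hcon
    have hcon := not_le.1 hcon
    have hUsub : A.biUnion t ⊆ range n := by
      intro c hc
      rw [Finset.mem_biUnion] at hc
      obtain ⟨j, _, hj⟩ := hc
      exact (Finset.mem_filter.1 hj).1
    set B := range n \ A.biUnion t with hB
    have hBcard : B.card = n - (A.biUnion t).card := by
      rw [hB, Finset.card_sdiff_of_subset hUsub, Finset.card_range]
    have hAn : A.card ≤ n := by
      have := Finset.card_le_univ A
      simpa using this
    have hUn : (A.biUnion t).card ≤ n := by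
      have := Finset.card_le_card hUsub
      simpa using this
    have hBspec : ∀ c ∈ B, ∀ j ∈ A, ∃ i, (i, (j : ℕ)) ∈ T ∧ c' (i, (j : ℕ)) = c := by
      intro c hc j hj
      rw [hB, Finset.mem_sdiff] at hc
      by_contra hno
      push Not at hno
      exact hc.2 (Finset.mem_biUnion.2 ⟨j, hj, Finset.mem_filter.2 ⟨hc.1, hno⟩⟩)
    have hBpos : 1 ≤ B.card := by omega
    have hApos : 0 < A.card := by omega
    -- columns of `A` are long
    have hlong : ∀ j ∈ A, (j : ℕ) < μ.rowLen B.card := by
      intro j hj
      have hch : ∀ c : {c // c ∈ B}, ∃ i, (i, (j : ℕ)) ∈ T ∧ c' (i, (j : ℕ)) = c.1 :=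
        fun c => hBspec c.1 c.2 j hj
      choose g hg1 hg2 using hch
      have hginj : Function.Injective g := by
        intro c1 c2 h12
        apply Subtype.ext
        rw [← hg2 c1, ← hg2 c2, h12]
      have hgm : ∀ c, g c < μ.colLen j - 1 := by
        intro c
        have h1 := hg1 c
        rw [hTm, mem_iff_col] at h1
        simp only at h1
        omega
      have h1 : B.card ≤ μ.colLen j - 1 := by
        have := Fintype.card_le_of_injective
          (fun c : {c // c ∈ B} => (⟨g c, hgm c⟩ : Fin (μ.colLen j - 1))) (by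
            intro c1 c2 h12
            exact hginj (congrArg Fin.val h12))
        simpa using this
      have h2 : (B.card, (j : ℕ)) ∈ μ.cells := by
        rw [mem_iff_col]
        simp only
        omega
      rw [mem_iff'] at h2
      exact h2
    have ha1 : A.card ≤ μ.rowLen B.card := by
      have := Finset.card_le_card_of_injOn (s := A) (t := range (μ.rowLen B.card))
        (fun j => (j : ℕ)) (by
          intro j hj
          exact Finset.mem_coe.2 (Finset.mem_range.2 (hlong j (Finset.mem_coe.1 hj)))) (by
          intro j _ j' _ hjj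
          exact Fin.ext hjj)
      simpa using this
    -- colours of `B` are frequent
    have ha2 : A.card ≤ μ.colLen 0 - 1 := by
      obtain ⟨c, hc⟩ := Finset.card_pos.1 (by omega : 0 < B.card)
      have hch : ∀ j : {j // j ∈ A}, ∃ i, (i, ((j.1 : Fin n) : ℕ)) ∈ T ∧
          c' (i, ((j.1 : Fin n) : ℕ)) = c := fun j => hBspec c hc j.1 j.2
      choose g hg1 hg2 using hch
      have hginj : Function.Injective g := by
        intro j1 j2 h12
        by_contra hne
        refine hp _ (hg1 j1) _ (hg1 j2) ?_ (Or.inl h12) (by rw [hg2, hg2])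
        intro heq
        exact hne (Subtype.ext (Fin.ext (congrArg Prod.snd heq)))
      have hgm : ∀ j, g j < μ.colLen 0 - 1 := by
        intro j
        have h1 := hg1 j
        rw [hTm, mem_iff_col] at h1
        simp only at h1
        have h2 := μ.colLen_anti 0 ((j.1 : Fin n) : ℕ) (Nat.zero_le _)
        omega
      have := Fintype.card_le_of_injective
        (fun j : {j // j ∈ A} => (⟨g j, hgm j⟩ : Fin (μ.colLen 0 - 1))) (by
          intro c1 c2 h12
          exact hginj (congrArg Fin.val h12))
      simpa using this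
    have hb : B.card < μ.colLen 0 := by
      obtain ⟨j, hj⟩ := Finset.card_pos.1 hApos
      have h1 := hlong j hj
      have h2 : (B.card, (j : ℕ)) ∈ μ.cells := by rw [mem_iff']; exact h1
      rw [mem_iff_col] at h2
      have h3 := μ.colLen_anti 0 (j : ℕ) (Nat.zero_le _)
      simp only at h2
      omega
    have := H B.card hBpos hb (by omega)
    omega
  obtain ⟨f, hf1, hf2⟩ := (Finset.all_card_le_biUnion_card_iff_exists_injective t).1 hall
  have hfn : ∀ j, f j < n := fun j => Finset.mem_range.1 (Finset.mem_filter.1 (hf2 j)).1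
  have hfc : ∀ j : Fin n, ∀ i, (i, (j : ℕ)) ∈ T → c' (i, (j : ℕ)) ≠ f j :=
    fun j => (Finset.mem_filter.1 (hf2 j)).2
  let F : ℕ → ℕ := fun j => if h : j < n then f ⟨j, h⟩ else 0
  have hF : ∀ j (h : j < n), F j = f ⟨j, h⟩ := fun j h => dif_pos h
  let c : ℕ × ℕ → ℕ := fun x => if x.1 = 0 then F x.2 else c' (x.1 - 1, x.2)
  have hc0 : ∀ j, c (0, j) = F j := fun j => if_pos rfl
  have hc1 : ∀ i j, c (i + 1, j) = c' (i, j) := fun i j => by
    show (if i + 1 = 0 then F j else c' (i + 1 - 1, j)) = c' (i, j)
    rw [if_neg (by omega)]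
    rfl
  have hrow0 : ∀ j, (0, j) ∈ μ.cells → j < n := fun j hj => by
    rw [mem_iff'] at hj
    exact hj
  have hrowT : ∀ i j, (i + 1, j) ∈ μ.cells → (i, j) ∈ T := fun i j hij => (hTm (i, j)).2 hij
  have hlt : ∀ x ∈ μ.cells, x.2 < n := by
    intro x hx
    rw [mem_iff'] at hx
    exact lt_of_lt_of_le hx (μ.rowLen_anti 0 x.1 (Nat.zero_le _))
  refine ⟨c, ?_, ?_⟩
  · rintro ⟨i, j⟩ ha ⟨i', j'⟩ hb hne hor
    rcases i with _ | i <;> rcases i' with _ | i'
    · rw [hc0, hc0, hF j (hrow0 j ha), hF j' (hrow0 j' hb)]
      intro h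
      have := congrArg Fin.val (hf1 h)
      exact hne (Prod.ext rfl this)
    · rw [hc0, hc1, hF j (hrow0 j ha)]
      rcases hor with h | h
      · exact absurd h (by simp)
      · have h' : j = j' := h
        subst h'
        exact (hfc ⟨j, hrow0 j ha⟩ i' (hrowT i' j hb)).symm
    · rw [hc0, hc1, hF j' (hrow0 j' hb)]
      rcases hor with h | h
      · exact absurd h (by simp)
      · have h' : j = j' := h
        subst h'
        exact hfc ⟨j, hrow0 j hb⟩ i (hrowT i j ha)
    · rw [hc1, hc1]
      refine hp (i, j) (hrowT i j ha) (i', j') (hrowT i' j' hb) ?_ ?_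
      · intro h
        have h1 : i = i' := congrArg Prod.fst h
        have h2 : j = j' := congrArg Prod.snd h
        exact hne (by rw [h1, h2])
      · rcases hor with h | h
        · left
          have h' : i + 1 = i' + 1 := h
          show i = i'
          omega
        · right; exact h
  · intro k hk
    obtain ⟨s, u, hsu⟩ := hcut k hk
    -- the cells of the first row with small colours
    have hfirst : min n k ≤ ((Finset.univ : Finset (Fin n)).filter (fun j => f j < k)).card := by
      have h1 : ((Finset.univ : Finset (Fin n)).filter (fun j => ¬ f j < k)).card ≤ n - k := by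
        have := Finset.card_le_card_of_injOn
          (s := (Finset.univ : Finset (Fin n)).filter (fun j => ¬ f j < k)) (t := Ico k n) f (by
            intro j hj
            have := (Finset.mem_filter.1 (Finset.mem_coe.1 hj)).2
            exact Finset.mem_coe.2 (Finset.mem_Ico.2 ⟨by omega, hfn j⟩)) (by
            intro j _ j' _ hjj
            exact hf1 hjj)
        simpa using this
      have h2 := Finset.card_filter_add_card_filter_not (s := (Finset.univ : Finset (Fin n)))
        (fun j => f j < k)
      rw [Finset.card_univ, Fintype.card_fin] at h2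
      omega
    have hcount : (T.filter (fun x => c' x < k)).card +
        ((Finset.univ : Finset (Fin n)).filter (fun j => f j < k)).card ≤
        (μ.cells.filter (fun x => c x < k)).card := by
      have h1 : (T.filter (fun x => c' x < k)).card ≤
          ((μ.cells.filter (fun x => c x < k)).filter (fun x => 1 ≤ x.1)).card := by
        refine Finset.card_le_card_of_injOn (fun x => (x.1 + 1, x.2)) ?_ ?_
        · intro x hx
          have hx' := Finset.mem_filter.1 (Finset.mem_coe.1 hx)
          rw [Finset.mem_coe, Finset.mem_filter, Finset.mem_filter]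
          refine ⟨⟨(hTm x).1 hx'.1, ?_⟩, by simp⟩
          rw [hc1]
          exact hx'.2
        · intro x _ y _ hxy
          have e1 : x.1 + 1 = y.1 + 1 := (Prod.ext_iff.1 hxy).1
          have e2 : x.2 = y.2 := (Prod.ext_iff.1 hxy).2
          exact Prod.ext (by omega) e2
      have h2 : ((Finset.univ : Finset (Fin n)).filter (fun j => f j < k)).card ≤
          ((μ.cells.filter (fun x => c x < k)).filter (fun x => ¬ 1 ≤ x.1)).card := by
        refine Finset.card_le_card_of_injOn (fun j => (0, (j : ℕ))) ?_ ?_
        · intro j hj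
          have hj' := (Finset.mem_filter.1 (Finset.mem_coe.1 hj)).2
          rw [Finset.mem_coe, Finset.mem_filter, Finset.mem_filter]
          refine ⟨⟨?_, ?_⟩, by simp⟩
          · rw [mem_iff']
            exact j.2
          · rw [hc0, hF _ j.2]
            exact hj'
        · intro x _ y _ hxy
          exact Fin.ext (congrArg Prod.snd hxy)
      have h3 := Finset.card_filter_add_card_filter_not
        (s := μ.cells.filter (fun x => c x < k)) (fun x => 1 ≤ x.1)
      omega
    have hrem : (μ.cells.filter (fun x => s + 1 ≤ x.1 ∧ u ≤ x.2)).card ≤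
        (T.filter (fun x => s ≤ x.1 ∧ u ≤ x.2)).card := by
      refine Finset.card_le_card_of_injOn (fun x => (x.1 - 1, x.2)) ?_ ?_
      · intro x hx
        have hx' := Finset.mem_filter.1 (Finset.mem_coe.1 hx)
        rw [Finset.mem_coe, Finset.mem_filter]
        refine ⟨?_, ?_⟩
        · rw [hTm]
          simp only
          rw [Nat.sub_add_cancel (by omega)]
          exact hx'.1
        · simp only
          omega
      · intro x hx y hy hxy
        have hx' := (Finset.mem_filter.1 (Finset.mem_coe.1 hx)).2
        have hy' := (Finset.mem_filter.1 (Finset.mem_coe.1 hy)).2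
        have e1 : x.1 - 1 = y.1 - 1 := (Prod.ext_iff.1 hxy).1
        have e2 : x.2 = y.2 := (Prod.ext_iff.1 hxy).2
        exact Prod.ext (by omega) e2
    rcases le_or_gt k n with hkn | hkn
    · refine ⟨s + 1, u, ?_⟩
      have e : k * (s + 1 + u) = k * (s + u) + k := by ring
      rw [e]
      rw [min_eq_right hkn] at hfirst
      omega
    · refine ⟨0, u, ?_⟩
      rw [min_eq_left hkn.le] at hfirst
      have h1 : (μ.cells.filter (fun x => 0 ≤ x.1 ∧ u ≤ x.2)).card ≤
          (μ.cells.filter (fun x => s + 1 ≤ x.1 ∧ u ≤ x.2)).card + (s + 1) * n := by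
        have h2 : μ.cells.filter (fun x => 0 ≤ x.1 ∧ u ≤ x.2) ⊆
            μ.cells.filter (fun x => s + 1 ≤ x.1 ∧ u ≤ x.2) ∪ (range (s + 1)) ×ˢ (range n) := by
          intro x hx
          rw [Finset.mem_filter] at hx
          rw [Finset.mem_union, Finset.mem_filter, Finset.mem_product, Finset.mem_range,
            Finset.mem_range]
          have := hlt x hx.1
          by_cases h3 : s + 1 ≤ x.1
          · exact Or.inl ⟨hx.1, h3, hx.2.2⟩
          · exact Or.inr ⟨by omega, this⟩
        refine le_trans (Finset.card_le_card h2) (le_trans (Finset.card_union_le _ _) ?_)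
        rw [Finset.card_product, Finset.card_range, Finset.card_range]
      have h4 : s * n ≤ s * k := Nat.mul_le_mul_left s hkn.le
      have e1 : (s + 1) * n = s * n + n := by ring
      have e2 : k * (s + u) = s * k + k * u := by ring
      rw [e1] at h1
      rw [e2] at hsu
      rw [Nat.zero_add]
      omega

end Pool.Agent.H997LT
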