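import Mathlib
import Pool.Agent.H997LT.Peel

set_option autoImplicit false

/-! A checker for explicit colourings, and its soundness. -/

open Finset

namespace Pool.Agent.H997LT

def digs : ℕ → ℕ → List ℕ
  | 0, _ => []
  | n + 1, c => (c % 16) :: digs n (c / 16)

def decRows : List ℕ → ℕ → List (List ℕ)
  | [], _ => []
  | L :: ls, c => digs L c :: decRows ls (c / 16 ^ L)

def notIn (a : ℕ) : List ℕ → Bool
  | [] => true
  | b :: bs => !(Nat.beq a b) && notIn a bs

def nodupB : List ℕ → Bool
  | [] => true
  | a :: as => notIn a as && nodupB as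

def diffB : List ℕ → List ℕ → Bool
  | a :: as, b :: bs => !(Nat.beq a b) && diffB as bs
  | [], _ => true
  | _, [] => true

def diffAll (r : List ℕ) : List (List ℕ) → Bool
  | [] => true
  | s :: ss => diffB r s && diffAll r ss

def colB : List (List ℕ) → Bool
  | [] => true
  | r :: rs => diffAll r rs && colB rs

def nodupAll : List (List ℕ) → Bool
  | [] => true
  | r :: rs => nodupB r && nodupAll rs

def cnt (k : ℕ) : List ℕ → ℕ
  | [] => 0
  | a :: as => (bif Nat.blt a k then 1 else 0) + cnt k as

def cntR (k : ℕ) : List (List ℕ) → ℕ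
  | [] => 0
  | r :: rs => cnt k r + cntR k rs

def remF : List ℕ → ℕ → ℕ → ℕ
  | [], _, _ => 0
  | a :: l, 0, t => (a - t) + remF l 0 t
  | _ :: l, s + 1, t => remF l s t

def cutsB (l : List ℕ) (rows : List (List ℕ)) : ℕ → ℕ → Bool
  | 0, _ => true
  | k + 1, c => Nat.ble ((k + 1) * (c % 16 + c / 16 % 16) + remF l (c % 16) (c / 16 % 16))
      (cntR (k + 1) rows) && cutsB l rows k (c / 256)

def ltRow (K : ℕ) : List ℕ → Bool
  | [] => true
  | a :: as => Nat.blt a K && ltRow K as

def ltAll (K : ℕ) : List (List ℕ) → Bool
  | [] => true
  | r :: rs => ltRow K r && ltAll K rs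

def chk (l : List ℕ) (K code cuts : ℕ) : Bool :=
  nodupAll (decRows l code) && (colB (decRows l code) && (ltAll K (decRows l code) &&
    cutsB l (decRows l code) K cuts))

theorem length_digs : ∀ (n c : ℕ), (digs n c).length = n := by
  intro n
  induction n with
  | zero => intro c; rfl
  | succ n ih => intro c; simp [digs, ih]

theorem length_decRows : ∀ (l : List ℕ) (c : ℕ), (decRows l c).length = l.length := by
  intro l
  induction l with
  | nil => intro c; rfl
  | cons a l ih => intro c; simp [decRows, ih]

theorem row_length : ∀ (l : List ℕ) (c i : ℕ), ((decRows l c).getD i []).length = l.getD i 0 := by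
  intro l
  induction l with
  | nil => intro c i; simp [decRows]
  | cons a l ih =>
    intro c i
    cases i with
    | zero => simp [decRows, length_digs]
    | succ i => simpa [decRows] using ih (c / 16 ^ a) i

theorem notIn_spec (a : ℕ) : ∀ l : List ℕ, notIn a l = true → a ∉ l := by
  intro l
  induction l with
  | nil => intro _; simp
  | cons b l ih =>
    intro h
    simp only [notIn, Bool.and_eq_true, Bool.not_eq_true'] at h
    rw [List.mem_cons, not_or]
    refine ⟨?_, ih h.2⟩
    intro hab
    subst hab
    simp [Nat.beq_refl] at h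

theorem nodupB_spec : ∀ l : List ℕ, nodupB l = true → l.Nodup := by
  intro l
  induction l with
  | nil => intro _; simp
  | cons a l ih =>
    intro h
    simp only [nodupB, Bool.and_eq_true] at h
    exact List.nodup_cons.2 ⟨notIn_spec a l h.1, ih h.2⟩

theorem nodup_getD (l : List ℕ) (h : l.Nodup) (i j : ℕ) (hi : i < l.length) (hj : j < l.length)
    (hij : l.getD i 0 = l.getD j 0) : i = j := by
  rw [List.getD_eq_getElem _ _ hi, List.getD_eq_getElem _ _ hj] at hij
  exact (List.Nodup.getElem_inj_iff h).1 hij

theorem diffB_spec : ∀ (l l' : List ℕ), diffB l l' = true → ∀ j, j < l.length → j < l'.length →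
    l.getD j 0 ≠ l'.getD j 0 := by
  intro l
  induction l with
  | nil => intro l' _ j hj; simp at hj
  | cons a l ih =>
    intro l'
    cases l' with
    | nil => intro _ j _ hj; simp at hj
    | cons b l' =>
      intro h j hj hj'
      simp only [diffB, Bool.and_eq_true, Bool.not_eq_true'] at h
      cases j with
      | zero =>
        simp only [List.getD_cons_zero]
        intro hab
        subst hab
        simp [Nat.beq_refl] at h
      | succ j =>
        simp only [List.getD_cons_succ]
        exact ih l' h.2 j (by simpa using hj) (by simpa using hj')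

theorem diffAll_spec (r : List ℕ) : ∀ rs : List (List ℕ), diffAll r rs = true →
    ∀ i, i < rs.length → diffB r (rs.getD i []) = true := by
  intro rs
  induction rs with
  | nil => intro _ i hi; simp at hi
  | cons s rs ih =>
    intro h i hi
    simp only [diffAll, Bool.and_eq_true] at h
    cases i with
    | zero => simpa using h.1
    | succ i => simpa using ih h.2 i (by simpa using hi)

theorem colB_spec : ∀ rs : List (List ℕ), colB rs = true → ∀ i i', i < i' → i' < rs.length →
    diffB (rs.getD i []) (rs.getD i' []) = true := by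
  intro rs
  induction rs with
  | nil => intro _ i i' _ hi; simp at hi
  | cons s rs ih =>
    intro h i i' hii hi
    simp only [colB, Bool.and_eq_true] at h
    cases i' with
    | zero => omega
    | succ i' =>
      cases i with
      | zero => simpa using diffAll_spec s rs h.1 i' (by simpa using hi)
      | succ i => simpa using ih h.2 i i' (by omega) (by simpa using hi)

theorem nodupAll_spec : ∀ rs : List (List ℕ), nodupAll rs = true → ∀ i,
    (rs.getD i []).Nodup := by
  intro rs
  induction rs with
  | nil => intro _ i; simp
  | cons s rs ih =>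
    intro h i
    simp only [nodupAll, Bool.and_eq_true] at h
    cases i with
    | zero => simpa using nodupB_spec s h.1
    | succ i => simpa using ih h.2 i

theorem ltRow_spec (K : ℕ) : ∀ l : List ℕ, ltRow K l = true → ∀ j, j < l.length →
    l.getD j 0 < K := by
  intro l
  induction l with
  | nil => intro _ j hj; simp at hj
  | cons a l ih =>
    intro h j hj
    simp only [ltRow, Bool.and_eq_true] at h
    cases j with
    | zero => simpa [Nat.blt_eq] using h.1
    | succ j => simpa using ih h.2 j (by simpa using hj)

theorem ltAll_spec (K : ℕ) : ∀ rs : List (List ℕ), ltAll K rs = true → ∀ i j,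
    j < (rs.getD i []).length → (rs.getD i []).getD j 0 < K := by
  intro rs
  induction rs with
  | nil => intro _ i j hj; simp at hj
  | cons s rs ih =>
    intro h i
    simp only [ltAll, Bool.and_eq_true] at h
    cases i with
    | zero => simpa using ltRow_spec K s h.1
    | succ i => simpa using ih h.2 i

theorem cnt_spec (k : ℕ) : ∀ l : List ℕ,
    cnt k l = ((range l.length).filter (fun j => l.getD j 0 < k)).card := by
  intro l
  induction l with
  | nil => simp [cnt]
  | cons a l ih =>
    rw [Finset.card_filter, List.length_cons, Finset.sum_range_succ']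
    simp only [cnt, List.getD_cons_succ, List.getD_cons_zero]
    rw [ih, Finset.card_filter, add_comm]
    congr 1
    by_cases h : a < k
    · have : Nat.blt a k = true := by simpa [Nat.blt_eq] using h
      rw [this, if_pos h]; rfl
    · have : Nat.blt a k = false := by
        rw [← Bool.not_eq_true]
        simpa [Nat.blt_eq] using h
      rw [this, if_neg h]; rfl

theorem cntR_spec (k : ℕ) : ∀ rs : List (List ℕ),
    cntR k rs = ∑ i ∈ range rs.length, cnt k (rs.getD i []) := by
  intro rs
  induction rs with
  | nil => simp [cntR]
  | cons s rs ih =>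
    rw [List.length_cons, Finset.sum_range_succ']
    simp only [cntR, List.getD_cons_succ, List.getD_cons_zero]
    rw [ih, add_comm]

theorem remF_spec : ∀ (l : List ℕ) (s t : ℕ),
    remF l s t = ∑ i ∈ range l.length, if s ≤ i then l.getD i 0 - t else 0 := by
  intro l
  induction l with
  | nil => intro s t; simp [remF]
  | cons a l ih =>
    intro s t
    rw [List.length_cons, Finset.sum_range_succ']
    cases s with
    | zero =>
      simp only [remF, List.getD_cons_succ, List.getD_cons_zero, Nat.zero_le, if_true]
      rw [ih]
      simp only [Nat.zero_le, if_true]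
      rw [add_comm]
    | succ s =>
      simp only [remF, List.getD_cons_succ, List.getD_cons_zero]
      rw [ih, if_neg (by omega), add_zero]
      refine Finset.sum_congr rfl (fun i _ => ?_)
      by_cases h : s ≤ i
      · rw [if_pos h, if_pos (by omega)]
      · rw [if_neg h, if_neg (by omega)]

theorem cutsB_spec (l : List ℕ) (rows : List (List ℕ)) : ∀ (K c : ℕ), cutsB l rows K c = true →
    ∀ k, 0 < k → k ≤ K → ∃ s t, k * (s + t) + remF l s t ≤ cntR k rows := by
  intro K
  induction K with
  | zero => intro c _ k h1 h2; omega
  | succ K ih =>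
    intro c h k h1 h2
    simp only [cutsB, Bool.and_eq_true, Nat.ble_eq] at h
    rcases Nat.lt_or_ge K k with hk | hk
    · have : k = K + 1 := by omega
      subst this
      exact ⟨_, _, h.1⟩
    · exact ih _ h.2 k h1 hk

/-- the number of cells with a property, row by row -/
theorem card_rows (μ : YoungDiagram) (r : ℕ) (hr : μ.colLen 0 ≤ r) (P : ℕ × ℕ → Prop)
    [DecidablePred P] : (μ.cells.filter P).card =
    ∑ i ∈ range r, ((range (μ.rowLen i)).filter (fun j => P (i, j))).card := by
  rw [← Finset.card_sigma (range r) (fun i => (range (μ.rowLen i)).filter (fun j => P (i, j)))]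
  refine Finset.card_bij (fun x _ => (⟨x.1, x.2⟩ : (_ : ℕ) × ℕ)) ?_ ?_ ?_
  · intro x hx
    rw [Finset.mem_filter] at hx
    have h1 := hx.1
    rw [mem_iff_col] at h1
    have h2 := μ.colLen_anti 0 x.2 (Nat.zero_le _)
    have h3 := hx.1
    rw [mem_iff'] at h3
    rw [Finset.mem_sigma, Finset.mem_range, Finset.mem_filter, Finset.mem_range]
    exact ⟨by simp only; omega, h3, hx.2⟩
  · intro x _ y _ hxy
    have h1 : x.1 = y.1 := congrArg Sigma.fst hxy
    have h2 : x.2 = y.2 := by
      have := (Sigma.mk.inj_iff.1 hxy).2
      exact eq_of_heq this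
    exact Prod.ext h1 h2
  · rintro ⟨i, j⟩ hy
    rw [Finset.mem_sigma, Finset.mem_range, Finset.mem_filter, Finset.mem_range] at hy
    exact ⟨(i, j), Finset.mem_filter.2 ⟨by rw [mem_iff']; exact hy.2.1, hy.2.2⟩, rfl⟩

theorem getD_rowLens (μ : YoungDiagram) (i : ℕ) : μ.rowLens.getD i 0 = μ.rowLen i := by
  by_cases h : i < μ.rowLens.length
  · rw [List.getD_eq_getElem _ _ h, YoungDiagram.get_rowLens]
  · rw [List.getD_eq_default _ _ (by omega)]
    rw [YoungDiagram.length_rowLens] at h
    by_contra hne
    have h1 : (i, 0) ∈ μ.cells := by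
      rw [mem_iff']
      exact Nat.pos_of_ne_zero (Ne.symm hne)
    rw [mem_iff_col] at h1
    exact h h1

theorem chk_sound (μ : YoungDiagram) (l : List ℕ) (hl : μ.rowLens = l) (K code cuts : ℕ)
    (h : chk l K code cuts = true) : ∃ c, Good μ.cells c := by
  simp only [chk, Bool.and_eq_true] at h
  obtain ⟨h1, h2, h3, h4⟩ := h
  set rows := decRows l code with hrows
  have hlen : rows.length = μ.colLen 0 := by
    rw [hrows, length_decRows, ← hl, YoungDiagram.length_rowLens]
  have hlen' : l.length = μ.colLen 0 := by
    rw [← hl, YoungDiagram.length_rowLens]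
  have hrl : ∀ i, (rows.getD i []).length = μ.rowLen i := by
    intro i
    rw [hrows, row_length, ← hl, getD_rowLens]
  have hcolr : ∀ x ∈ μ.cells, x.1 < rows.length := by
    intro x hx
    rw [mem_iff_col] at hx
    have := μ.colLen_anti 0 x.2 (Nat.zero_le _)
    omega
  refine ⟨fun x => (rows.getD x.1 []).getD x.2 0, ?_, ?_⟩
  · intro a ha b hb hab hor
    have ha' := hcolr a ha
    have hb' := hcolr b hb
    have ha2 := ha
    have hb2 := hb
    rw [mem_iff', ← hrl] at ha2 hb2
    simp only
    rcases hor with h | h
    · intro heq
      rw [← h] at heq hb2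
      have := nodup_getD _ (nodupAll_spec rows h1 a.1) a.2 b.2 ha2 hb2 heq
      exact hab (Prod.ext h this)
    · rcases lt_trichotomy a.1 b.1 with h5 | h5 | h5
      · rw [← h] at hb2 ⊢
        exact diffB_spec _ _ (colB_spec rows h2 a.1 b.1 h5 hb') a.2 ha2 hb2
      · exact absurd (Prod.ext h5 h) hab
      · rw [h] at ha2 ⊢
        exact (diffB_spec _ _ (colB_spec rows h2 b.1 a.1 h5 ha') b.2 hb2 ha2).symm
  · intro k hk
    have hcount : (μ.cells.filter (fun x => (rows.getD x.1 []).getD x.2 0 < k)).card =
        cntR k rows := by
      rw [card_rows μ rows.length (le_of_eq hlen.symm), cntR_spec]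
      refine Finset.sum_congr rfl (fun i _ => ?_)
      rw [cnt_spec, hrl]
    rcases le_or_gt k K with hkK | hkK
    · obtain ⟨s, t, hst⟩ := cutsB_spec l rows K cuts h4 k hk hkK
      refine ⟨s, t, ?_⟩
      rw [hcount]
      refine le_trans ?_ hst
      refine Nat.add_le_add_left ?_ _
      rw [card_rows μ l.length (le_of_eq hlen'.symm), remF_spec]
      refine Finset.sum_le_sum (fun i _ => ?_)
      by_cases hsi : s ≤ i
      · rw [if_pos hsi, ← hl, getD_rowLens]
        have h6 : (range (μ.rowLen i)).filter (fun j => s ≤ (i, j).1 ∧ t ≤ (i, j).2) ⊆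
            Ico t (μ.rowLen i) := by
          intro j hj
          rw [Finset.mem_filter, Finset.mem_range] at hj
          rw [Finset.mem_Ico]
          exact ⟨hj.2.2, hj.1⟩
        have := Finset.card_le_card h6
        rwa [Nat.card_Ico] at this
      · rw [if_neg hsi]
        refine le_of_eq ?_
        rw [Finset.card_eq_zero, Finset.filter_eq_empty_iff]
        intro j _ h7
        exact hsi h7.1
    · refine ⟨0, 0, ?_⟩
      have h6 : μ.cells.filter (fun x => (rows.getD x.1 []).getD x.2 0 < k) = μ.cells := by
        rw [Finset.filter_eq_self]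
        intro x hx
        rw [mem_iff', ← hrl] at hx
        have := ltAll_spec K rows h3 x.1 x.2 hx
        omega
      rw [h6, Nat.add_zero, Nat.mul_zero, Nat.zero_add]
      exact Finset.card_filter_le _ _

end Pool.Agent.H997LT
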