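import Mathlib
import Pool.Agent.H997LT.Chk

set_option autoImplicit false

/-! Diagrams with few rows: the reduction to finitely many diagrams. -/

open Finset

namespace Pool.Agent.H997LT

def vals : ℕ → List ℕ
  | 0 => []
  | n + 1 => (n + 1) :: vals n

def shapes : ℕ → ℕ → List (List ℕ)
  | 0, _ => [[]]
  | r + 1, n => (vals n).flatMap (fun v => (shapes r v).map (fun t => v :: t))

theorem mem_vals : ∀ (n v : ℕ), 1 ≤ v → v ≤ n → v ∈ vals n := by
  intro n
  induction n with
  | zero => intro v h1 h2; omega
  | succ n ih =>
    intro v h1 h2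
    rw [vals, List.mem_cons]
    rcases Nat.lt_or_ge n v with h | h
    · left; omega
    · right; exact ih v h1 h

theorem mem_shapes : ∀ (r n : ℕ) (l : List ℕ), l.length = r → (∀ x ∈ l, 1 ≤ x ∧ x ≤ n) →
    l.Pairwise (fun a b => b ≤ a) → l ∈ shapes r n := by
  intro r
  induction r with
  | zero =>
    intro n l h _ _
    rw [List.length_eq_zero_iff] at h
    rw [h, shapes]
    exact List.mem_singleton.2 rfl
  | succ r ih =>
    intro n l h1 h2 h3
    cases l with
    | nil => simp at h1
    | cons a l =>
      rw [shapes, List.mem_flatMap]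
      rw [List.pairwise_cons] at h3
      have ha := h2 a List.mem_cons_self
      refine ⟨a, mem_vals n a ha.1 ha.2, ?_⟩
      rw [List.mem_map]
      exact ⟨l, ih a l (by simpa using h1)
        (fun x hx => ⟨(h2 x (List.mem_cons_of_mem a hx)).1, h3.1 x hx⟩) h3.2, rfl⟩

def three (l : List ℕ) : Bool :=
  l.any (fun b => l.all (fun x => Nat.beq x (l.headD 0) || (Nat.beq x b || Nat.beq x (l.getLastD 0))))

def pr (l : List ℕ) : Bool :=
  (List.range l.length).all (fun b => !(Nat.ble 1 b && Nat.ble (l.headD 0 + 2) (b + l.length)) ||
    Nat.ble (l.getD b 0 + b) (l.headD 0))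

def gt (b : ℕ) : List ℕ → ℕ
  | [] => 0
  | a :: as => (bif Nat.blt b a then 1 else 0) + gt b as

def pc (l : List ℕ) : Bool :=
  (List.range (l.headD 0)).all (fun b => !(Nat.ble 1 b && Nat.ble (l.length + 2) (b + l.headD 0)) ||
    Nat.ble (gt b l + b) l.length)

def easy (l : List ℕ) : Bool := pr l || (pc l || three l)

def eqL : List ℕ → List ℕ → Bool
  | [], [] => true
  | a :: as, b :: bs => Nat.beq a b && eqL as bs
  | [], _ :: _ => false
  | _ :: _, [] => false

theorem eqL_spec : ∀ l l' : List ℕ, eqL l l' = true → l = l' := by
  intro l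
  induction l with
  | nil =>
    intro l' h
    cases l' with
    | nil => rfl
    | cons b l' => simp [eqL] at h
  | cons a l ih =>
    intro l' h
    cases l' with
    | nil => simp [eqL] at h
    | cons b l' =>
      simp only [eqL, Bool.and_eq_true] at h
      rw [ih l' h.2, Nat.eq_of_beq_eq_true h.1]

def cover : List (List ℕ) → List (List ℕ × ℕ × ℕ × ℕ) → Bool
  | [], _ => true
  | l :: ls, bs => bif easy l then cover ls bs else
      match bs with
      | [] => false
      | b :: bs' => eqL b.1 l && cover ls bs'

theorem cover_spec : ∀ (ls : List (List ℕ)) (bs : List (List ℕ × ℕ × ℕ × ℕ)),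
    cover ls bs = true → ∀ l ∈ ls, easy l = true ∨ ∃ b ∈ bs, b.1 = l := by
  intro ls
  induction ls with
  | nil => intro bs _ l hl; simp at hl
  | cons a ls ih =>
    intro bs h l hl
    unfold cover at h
    rcases he : easy a with _ | _
    · rw [he] at h
      simp only [cond_false] at h
      cases bs with
      | nil => simp at h
      | cons b bs =>
        simp only [Bool.and_eq_true] at h
        rw [List.mem_cons] at hl
        rcases hl with rfl | hl
        · exact Or.inr ⟨b, List.mem_cons_self, eqL_spec _ _ h.1⟩
        · rcases ih bs h.2 l hl with h1 | ⟨b', hb', h1⟩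
          · exact Or.inl h1
          · exact Or.inr ⟨b', List.mem_cons_of_mem b hb', h1⟩
    · rw [he] at h
      simp only [cond_true] at h
      rw [List.mem_cons] at hl
      rcases hl with rfl | hl
      · exact Or.inl he
      · exact ih bs h l hl

theorem three_spec (μ : YoungDiagram) (h : three μ.rowLens = true) : ∃ c, Good μ.cells c := by
  unfold three at h
  rw [List.any_eq_true] at h
  obtain ⟨b, hb, h⟩ := h
  rw [List.all_eq_true] at h
  set A := μ.rowLens.headD 0
  set C := μ.rowLens.getLastD 0
  have h' : ∀ i, μ.rowLen i = 0 ∨ μ.rowLen i = A ∨ μ.rowLen i = b ∨ μ.rowLen i = C := by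
    intro i
    rw [← getD_rowLens]
    by_cases hi : i < μ.rowLens.length
    · rw [List.getD_eq_getElem _ _ hi]
      have := h _ (List.getElem_mem hi)
      simp only [Bool.or_eq_true] at this
      rcases this with h1 | h1 | h1
      · exact Or.inr (Or.inl (Nat.eq_of_beq_eq_true h1))
      · exact Or.inr (Or.inr (Or.inl (Nat.eq_of_beq_eq_true h1)))
      · exact Or.inr (Or.inr (Or.inr (Nat.eq_of_beq_eq_true h1)))
    · rw [List.getD_eq_default _ _ (by omega)]
      exact Or.inl rfl
  clear_value A C
  have key : ∃ p1 p2 p3 c1 c2 c3, μ.cells = hook3 p1 p2 p3 c1 c2 c3 := by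
    rcases le_total A b with h12 | h12 <;> rcases le_total b C with h23 | h23 <;>
      rcases le_total A C with h13 | h13
    · exact cells_eq_hook3 μ C b A h12 h23 (fun i => by have := h' i; tauto)
    · exact cells_eq_hook3 μ C b A h12 h23 (fun i => by have := h' i; tauto)
    · exact cells_eq_hook3 μ b C A h13 h23 (fun i => by have := h' i; tauto)
    · exact cells_eq_hook3 μ b A C h13 h12 (fun i => by have := h' i; tauto)
    · exact cells_eq_hook3 μ C A b h12 h13 (fun i => by have := h' i; tauto)
    · exact cells_eq_hook3 μ A C b h23 h13 (fun i => by have := h' i; tauto)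
    · exact cells_eq_hook3 μ A b C h23 h12 (fun i => by have := h' i; tauto)
    · exact cells_eq_hook3 μ A b C h23 h12 (fun i => by have := h' i; tauto)
  obtain ⟨p1, p2, p3, c1, c2, c3, hμ⟩ := key
  rw [hμ]
  exact good_hook3 p1 p2 p3 c1 c2 c3

theorem headD_rowLens (μ : YoungDiagram) : μ.rowLens.headD 0 = μ.rowLen 0 := by
  rw [← getD_rowLens]
  cases μ.rowLens <;> rfl

theorem gt_spec (b : ℕ) : ∀ l : List ℕ,
    gt b l = ((range l.length).filter (fun i => b < l.getD i 0)).card := by
  intro l
  induction l with
  | nil => simp [gt]
  | cons a l ih =>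
    rw [Finset.card_filter, List.length_cons, Finset.sum_range_succ']
    simp only [gt, List.getD_cons_succ, List.getD_cons_zero]
    rw [ih, Finset.card_filter, add_comm]
    congr 1
    by_cases h : b < a
    · have : Nat.blt b a = true := by simpa [Nat.blt_eq] using h
      rw [this, if_pos h]; rfl
    · have : Nat.blt b a = false := by
        rw [← Bool.not_eq_true]
        simpa [Nat.blt_eq] using h
      rw [this, if_neg h]; rfl

theorem gt_rowLens (μ : YoungDiagram) (b : ℕ) : gt b μ.rowLens = μ.colLen b := by
  rw [gt_spec]
  have : (range μ.rowLens.length).filter (fun i => b < μ.rowLens.getD i 0) =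
      range (μ.colLen b) := by
    ext i
    rw [Finset.mem_filter, Finset.mem_range, Finset.mem_range, getD_rowLens,
      YoungDiagram.length_rowLens]
    have h1 : b < μ.rowLen i ↔ i < μ.colLen b := by
      rw [← YoungDiagram.mem_iff_lt_rowLen, ← YoungDiagram.mem_iff_lt_colLen]
    have h2 := μ.colLen_anti 0 b (Nat.zero_le _)
    rw [h1]
    omega
  rw [this, Finset.card_range]

theorem colLen_dropRow (μ : YoungDiagram) (j : ℕ) : (dropRow μ).colLen j = μ.colLen j - 1 := by
  have h : ∀ i, i < (dropRow μ).colLen j ↔ i < μ.colLen j - 1 := by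
    intro i
    rw [← YoungDiagram.mem_iff_lt_colLen, mem_dropRow, YoungDiagram.mem_iff_lt_colLen]
    omega
  have h1 := h ((dropRow μ).colLen j)
  have h2 := h (μ.colLen j - 1)
  omega

theorem rowLen_dropRow (μ : YoungDiagram) (i : ℕ) : (dropRow μ).rowLen i = μ.rowLen (i + 1) := by
  have h : ∀ j, j < (dropRow μ).rowLen i ↔ j < μ.rowLen (i + 1) := by
    intro j
    rw [← YoungDiagram.mem_iff_lt_rowLen, mem_dropRow, YoungDiagram.mem_iff_lt_rowLen]
  have h1 := h ((dropRow μ).rowLen i)
  have h2 := h (μ.rowLen (i + 1))
  omega

theorem rowLen_transpose' (μ : YoungDiagram) (i : ℕ) : μ.transpose.rowLen i = μ.colLen i :=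
  YoungDiagram.rowLen_transpose μ i

theorem card_dropRow (μ : YoungDiagram) (h : 0 < μ.colLen 0) :
    (dropRow μ).cells.card < μ.cells.card := by
  have h0 : (0, 0) ∈ μ.cells := by rw [mem_iff_col]; exact h
  have h1 : (dropRow μ).cells.card ≤ (μ.cells.erase (0, 0)).card := by
    refine Finset.card_le_card_of_injOn (fun x => (x.1 + 1, x.2)) ?_ ?_
    · intro x hx
      rw [Finset.mem_coe, mem_dropRow'] at hx
      rw [Finset.mem_coe, Finset.mem_erase]
      refine ⟨?_, hx⟩
      intro heq
      have := (Prod.ext_iff.1 heq).1
      simp at this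
    · intro x _ y _ hxy
      have e1 : x.1 + 1 = y.1 + 1 := (Prod.ext_iff.1 hxy).1
      have e2 : x.2 = y.2 := (Prod.ext_iff.1 hxy).2
      exact Prod.ext (by omega) e2
  rw [Finset.card_erase_of_mem h0] at h1
  have : 0 < μ.cells.card := Finset.card_pos.2 ⟨_, h0⟩
  omega

theorem card_transpose (μ : YoungDiagram) : μ.transpose.cells.card = μ.cells.card := by
  refine Finset.card_bij (fun x _ => x.swap) ?_ ?_ ?_
  · intro x hx
    rw [YoungDiagram.mem_cells, YoungDiagram.mem_transpose] at hx
    rw [YoungDiagram.mem_cells]
    exact hx
  · intro x _ y _ hxy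
    exact Prod.swap_injective hxy
  · intro y hy
    rw [YoungDiagram.mem_cells] at hy
    refine ⟨y.swap, ?_, Prod.swap_swap y⟩
    rw [YoungDiagram.mem_cells, YoungDiagram.mem_transpose, Prod.swap_swap]
    exact hy

theorem few_rows (R : ℕ)
    (base : List (List ℕ × ℕ × ℕ × ℕ))
    (hchk : ∀ e ∈ base, chk e.1 e.2.1 e.2.2.1 e.2.2.2 = true)
    (hcov : ∀ r, 1 ≤ r → r ≤ R → ∀ l ∈ shapes r (2 * r - 3),
      easy l = true ∨ ∃ e ∈ base, e.1 = l) :
    ∀ (m : ℕ) (μ : YoungDiagram), μ.cells.card ≤ m → μ.colLen 0 ≤ R → ∃ c, Good μ.cells c := by
  intro m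
  induction m with
  | zero =>
    intro μ hm _
    have h0 : μ.cells = ∅ := Finset.card_eq_zero.1 (by omega)
    rw [h0]
    refine ⟨fun _ => 0, ?_, ?_⟩
    · intro a ha
      simp at ha
    · intro k _
      exact ⟨0, 0, by simp⟩
  | succ m ih =>
    intro μ hm hR
    rcases Nat.eq_zero_or_pos (μ.colLen 0) with h0 | h0
    · have h1 : μ.cells = ∅ := by
        rw [Finset.eq_empty_iff_forall_notMem]
        intro x hx
        rw [mem_iff_col] at hx
        have := μ.colLen_anti 0 x.2 (Nat.zero_le _)
        omega
      exact ih μ (by rw [h1]; simp) hR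
    · have hrow : (∀ b, 1 ≤ b → b < μ.colLen 0 → μ.rowLen 0 + 2 ≤ b + μ.colLen 0 →
          μ.rowLen b + b ≤ μ.rowLen 0) → ∃ c, Good μ.cells c := by
        intro H
        refine peel μ H (ih (dropRow μ) ?_ ?_)
        · have := card_dropRow μ h0
          omega
        · rw [colLen_dropRow]
          omega
      rcases Nat.lt_or_ge (μ.rowLen 0 + 2) (2 * μ.colLen 0) with h1 | h1
      · -- a bounded diagram
        have hmem : μ.rowLens ∈ shapes (μ.colLen 0) (2 * μ.colLen 0 - 3) := by
          refine mem_shapes _ _ _ YoungDiagram.length_rowLens ?_ ?_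
          · intro x hx
            refine ⟨μ.pos_of_mem_rowLens x hx, ?_⟩
            rw [List.mem_iff_getElem] at hx
            obtain ⟨i, hi, rfl⟩ := hx
            rw [YoungDiagram.get_rowLens]
            have := μ.rowLen_anti 0 i (Nat.zero_le _)
            omega
          · rw [List.pairwise_iff_getElem]
            intro i j hi hj hij
            rw [YoungDiagram.get_rowLens, YoungDiagram.get_rowLens]
            exact μ.rowLen_anti i j hij.le
        rcases hcov _ h0 hR _ hmem with he | ⟨e, he, heq⟩
        · unfold easy at he
          simp only [Bool.or_eq_true] at he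
          rcases he with he | he | he
          · -- rows
            refine hrow ?_
            intro b hb1 hb2 hb3
            unfold pr at he
            rw [List.all_eq_true] at he
            have := he b (List.mem_range.2 (by rw [YoungDiagram.length_rowLens]; exact hb2))
            rw [headD_rowLens, YoungDiagram.length_rowLens, getD_rowLens] at this
            simp only [Bool.or_eq_true, Bool.not_eq_true', Bool.and_eq_false_iff, Nat.ble_eq] at this
            rcases this with (h2 | h2) | h2
            · have : Nat.ble 1 b = true := Nat.ble_eq_true_of_le hb1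
              rw [this] at h2
              exact absurd h2 (by simp)
            · have : Nat.ble (μ.rowLen 0 + 2) (b + μ.colLen 0) = true := Nat.ble_eq_true_of_le hb3
              rw [this] at h2
              exact absurd h2 (by simp)
            · exact h2
          · -- columns
            refine good_transpose μ (peel μ.transpose ?_ ?_)
            · intro b hb1 hb2 hb3
              rw [YoungDiagram.colLen_transpose] at hb2 hb3
              rw [rowLen_transpose'] at hb3
              rw [rowLen_transpose', rowLen_transpose']
              unfold pc at he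
              rw [List.all_eq_true] at he
              have := he b (List.mem_range.2 (by rw [headD_rowLens]; exact hb2))
              rw [headD_rowLens, YoungDiagram.length_rowLens, gt_rowLens] at this
              simp only [Bool.or_eq_true, Bool.not_eq_true', Bool.and_eq_false_iff, Nat.ble_eq]
                at this
              rcases this with (h2 | h2) | h2
              · have : Nat.ble 1 b = true := Nat.ble_eq_true_of_le hb1
                rw [this] at h2
                exact absurd h2 (by simp)
              · have : Nat.ble (μ.colLen 0 + 2) (b + μ.rowLen 0) = true := Nat.ble_eq_true_of_le hb3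
                rw [this] at h2
                exact absurd h2 (by simp)
              · exact h2
            · refine good_transpose (dropRow μ.transpose) (ih _ ?_ ?_)
              · rw [card_transpose]
                have hc : 0 < μ.transpose.colLen 0 := by
                  rw [YoungDiagram.colLen_transpose]
                  have : (0, 0) ∈ μ.cells := by rw [mem_iff_col]; exact h0
                  rw [mem_iff'] at this
                  exact this
                have := card_dropRow μ.transpose hc
                rw [card_transpose] at this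
                omega
              · rw [YoungDiagram.colLen_transpose, rowLen_dropRow, rowLen_transpose']
                have := μ.colLen_anti 0 (0 + 1) (Nat.zero_le _)
                omega
          · exact three_spec μ he
        · exact chk_sound μ e.1 heq.symm _ _ _ (hchk e he)
      · refine hrow ?_
        intro b hb1 hb2 hb3
        omega

end Pool.Agent.H997LT
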