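import Mathlib
import Pool.Agent.H997LT.Basic

set_option autoImplicit false

/-! The numbers of cells of each colour in the three blocks of a diagram with two row lengths. -/

open Finset

namespace Pool.Agent.H997LT

theorem exists_between (n : ℕ) : ∀ (L U : ℕ → ℕ) (Y : ℕ), (∀ k < n, L k ≤ U k) →
    ∑ k ∈ range n, L k ≤ Y → Y ≤ ∑ k ∈ range n, U k →
    ∃ y : ℕ → ℕ, (∀ k < n, L k ≤ y k ∧ y k ≤ U k) ∧ ∑ k ∈ range n, y k = Y := by
  induction n with
  | zero =>
    intro L U Y _ h1 h2
    refine ⟨fun _ => 0, fun k hk => absurd hk (by omega), ?_⟩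
    simp only [Finset.range_zero, Finset.sum_empty] at h1 h2 ⊢
    omega
  | succ n ih =>
    intro L U Y hLU h1 h2
    rw [Finset.sum_range_succ] at h1 h2
    have hn := hLU n (by omega)
    set A := ∑ k ∈ range n, L k with hA
    set B := ∑ k ∈ range n, U k with hB
    have hAB : A ≤ B := Finset.sum_le_sum (fun k hk => hLU k (by
      have := Finset.mem_range.1 hk; omega))
    obtain ⟨y, hy1, hy2⟩ := ih L U (Y - min (U n) (Y - A)) (fun k hk => hLU k (by omega))
      (by omega) (by omega)
    refine ⟨fun k => if k < n then y k else min (U n) (Y - A), ?_, ?_⟩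
    · intro k hk
      show L k ≤ (if k < n then y k else min (U n) (Y - A)) ∧
        (if k < n then y k else min (U n) (Y - A)) ≤ U k
      by_cases h : k < n
      · rw [if_pos h]; exact hy1 k h
      · rw [if_neg h]
        have : k = n := by omega
        subst this
        constructor <;> omega
    · rw [Finset.sum_range_succ, if_neg (by omega)]
      have : ∑ k ∈ range n, (if k < n then y k else min (U n) (Y - A)) = ∑ k ∈ range n, y k :=
        Finset.sum_congr rfl (fun k hk => if_pos (Finset.mem_range.1 hk))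
      rw [this, hy2]
      omega

/-- the number of cells outside the columns of full height in the first `k` colours -/
def xi (p q b d : ℤ) (k : ℕ) : ℤ :=
  min (min (p * d) (k * p)) (min (k * d) (k * (p - b) + q * b))

theorem xi_conc (p q b d : ℤ) (k : ℕ) :
    xi p q b d k + xi p q b d (k + 2) ≤ 2 * xi p q b d (k + 1) := by
  unfold xi
  push_cast
  have e1 : ((k : ℤ) + 1) * p = k * p + p := by ring
  have e2 : ((k : ℤ) + 2) * p = k * p + 2 * p := by ring
  have e3 : ((k : ℤ) + 1) * d = k * d + d := by ring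
  have e4 : ((k : ℤ) + 2) * d = k * d + 2 * d := by ring
  have e5 : ((k : ℤ) + 1) * (p - b) = k * (p - b) + (p - b) := by ring
  have e6 : ((k : ℤ) + 2) * (p - b) = k * (p - b) + 2 * (p - b) := by ring
  rw [e1, e2, e3, e4, e5, e6]
  generalize (k : ℤ) * p = a1
  generalize (k : ℤ) * d = a2
  generalize (k : ℤ) * (p - b) = a3
  generalize p * d = a4
  generalize q * b = a5
  omega

theorem seqs (p q b d : ℕ) (h : b + d ≤ p + q) : ∃ x y z : ℕ → ℕ,
    (∀ k < p + q, x k + y k ≤ p ∧ z k ≤ q ∧ y k + z k = b ∧ x k ≤ d) ∧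
    ∑ k ∈ range (p + q), x k = p * d ∧ ∑ k ∈ range (p + q), y k = p * b ∧
    ∑ k ∈ range (p + q), z k = q * b ∧
    ∀ k ≤ p + q, ((∑ j ∈ range k, x j : ℕ) : ℤ) = xi p q b d k := by
  set n := p + q with hn
  set ξ : ℕ → ℤ := xi p q b d with hξ
  have hconc : ∀ k, ξ k + ξ (k + 2) ≤ 2 * ξ (k + 1) := fun k => xi_conc _ _ _ _ k
  have h0 : ξ 0 = 0 := by
    rw [hξ]
    unfold xi
    have : (0 : ℤ) ≤ (p : ℤ) * d := by positivity
    have : (0 : ℤ) ≤ (q : ℤ) * b := by positivity
    push_cast
    simp only [zero_mul, zero_add]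
    omega
  have hle1 : ∀ k, ξ k ≤ p * d := fun k => le_trans (min_le_left _ _) (min_le_left _ _)
  have hle2 : ∀ k, ξ k ≤ k * p := fun k => le_trans (min_le_left _ _) (min_le_right _ _)
  have hle3 : ∀ k, ξ k ≤ k * d := fun k => le_trans (min_le_right _ _) (min_le_left _ _)
  have hle4 : ∀ k, ξ k ≤ k * ((p : ℤ) - b) + q * b :=
    fun k => le_trans (min_le_right _ _) (min_le_right _ _)
  have hge : ∀ (k : ℕ) (v : ℤ), v ≤ p * d → v ≤ k * p → v ≤ k * d →
      v ≤ k * ((p : ℤ) - b) + q * b → v ≤ ξ k := by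
    intro k v h1 h2 h3 h4
    exact le_min (le_min h1 h2) (le_min h3 h4)
  have hb : (b : ℤ) + d ≤ p + q := by exact_mod_cast h
  have hlast : ∀ k ≤ n, (p : ℤ) < b → (p : ℤ) * d ≤ k * ((p : ℤ) - b) + q * b := by
    intro k hk hpb
    have h1 : (k : ℤ) ≤ p + q := by rw [hn] at hk; exact_mod_cast hk
    have h2 : ((p : ℤ) + q - k) * (b - p) ≥ 0 := mul_nonneg (by linarith) (by linarith)
    have h3 : (p : ℤ) * ((p : ℤ) + q - b - d) ≥ 0 := mul_nonneg (by positivity) (by linarith)
    nlinarith [h2, h3]
  -- increments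
  set δ : ℕ → ℤ := fun k => ξ (k + 1) - ξ k with hδ
  have hδanti : Antitone δ := by
    refine antitone_nat_of_succ_le ?_
    intro k
    have := hconc k
    show ξ (k + 1 + 1) - ξ (k + 1) ≤ ξ (k + 1) - ξ k
    have e : k + 1 + 1 = k + 2 := rfl
    rw [e]
    linarith
  have hδ0 : ∀ k < n, 0 ≤ δ k := by
    intro k hk
    show 0 ≤ ξ (k + 1) - ξ k
    have : ξ k ≤ ξ (k + 1) := by
      refine hge (k + 1) (ξ k) (hle1 k) ?_ ?_ ?_
      · refine le_trans (hle2 k) ?_
        push_cast
        nlinarith
      · refine le_trans (hle3 k) ?_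
        push_cast
        nlinarith
      · rcases lt_or_ge (p : ℤ) b with hpb | hpb
        · exact le_trans (hle1 k) (hlast (k + 1) (by omega) hpb)
        · refine le_trans (hle4 k) ?_
          push_cast
          nlinarith
    linarith
  have hδp : ∀ k, δ k ≤ p := by
    intro k
    refine le_trans (hδanti (Nat.zero_le k)) ?_
    show ξ (0 + 1) - ξ 0 ≤ p
    have := hle2 1
    rw [h0]
    simp at this ⊢
    linarith
  have hδd : ∀ k, δ k ≤ d := by
    intro k
    refine le_trans (hδanti (Nat.zero_le k)) ?_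
    show ξ (0 + 1) - ξ 0 ≤ d
    have := hle3 1
    rw [h0]
    simp at this ⊢
    linarith
  have hξn : ξ n = p * d := by
    refine le_antisymm (hle1 n) (hge n _ le_rfl ?_ ?_ ?_)
    · have : (d : ℤ) ≤ n := by rw [hn]; push_cast; linarith [Int.natCast_nonneg b]
      nlinarith [Int.natCast_nonneg p]
    · have : (p : ℤ) ≤ n := by rw [hn]; push_cast; linarith [Int.natCast_nonneg q]
      nlinarith [Int.natCast_nonneg d]
    · have h3 : (p : ℤ) * ((p : ℤ) + q - b - d) ≥ 0 :=
        mul_nonneg (by positivity) (by linarith)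
      rw [hn]
      push_cast
      nlinarith [h3]
  -- the sum of the maxima
  have hmax : ∀ m : ℕ, ∃ j ≤ m, ∑ k ∈ range m, max ((p : ℤ) - b) (δ k) =
      ξ j + ((m : ℤ) - j) * ((p : ℤ) - b) := by
    intro m
    induction m with
    | zero => exact ⟨0, le_rfl, by simp [h0]⟩
    | succ m ih =>
      obtain ⟨j, hj, hs⟩ := ih
      rw [Finset.sum_range_succ, hs]
      rcases le_or_gt (δ m) ((p : ℤ) - b) with hm | hm
      · refine ⟨j, by omega, ?_⟩
        rw [max_eq_left hm]
        push_cast
        ring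
      · refine ⟨m + 1, le_rfl, ?_⟩
        have hall : ∀ k ∈ range m, max ((p : ℤ) - b) (δ k) = δ k := by
          intro k hk
          have := hδanti (le_of_lt (Finset.mem_range.1 hk))
          exact max_eq_right (by linarith)
        rw [max_eq_right hm.le, ← hs, Finset.sum_congr rfl hall]
        have : ∑ k ∈ range m, δ k = ξ m - ξ 0 := by
          rw [hδ]; exact Finset.sum_range_sub ξ m
        rw [this, h0]
        show ξ m - 0 + (ξ (m + 1) - ξ m) = _
        push_cast
        ring
  have hmaxn : ∑ k ∈ range n, max ((p : ℤ) - b) (δ k) ≤ n * p - p * b := by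
    obtain ⟨j, hj, hs⟩ := hmax n
    rw [hs]
    have := hle4 j
    have e : (n : ℤ) = p + q := by rw [hn]; push_cast; rfl
    rw [e]
    nlinarith
  -- the sequence x
  set x : ℕ → ℕ := fun k => (δ k).toNat with hx
  have hxδ : ∀ k < n, ((x k : ℕ) : ℤ) = δ k := fun k hk => Int.toNat_of_nonneg (hδ0 k hk)
  have hxsum : ∀ k ≤ n, ((∑ j ∈ range k, x j : ℕ) : ℤ) = ξ k := by
    intro k hk
    push_cast
    rw [Finset.sum_congr rfl (fun j hj => hxδ j (by
      have := Finset.mem_range.1 hj; omega))]
    have : ∑ j ∈ range k, δ j = ξ k - ξ 0 := by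
      rw [hδ]; exact Finset.sum_range_sub ξ k
    rw [this, h0, sub_zero]
  have hxp : ∀ k < n, x k ≤ p := by
    intro k hk
    have h1 := hxδ k hk
    have h2 := hδp k
    omega
  have hxd : ∀ k < n, x k ≤ d := by
    intro k hk
    have h1 := hxδ k hk
    have h2 := hδd k
    omega
  -- the sequence y
  obtain ⟨y, hy1, hy2⟩ := exists_between n (fun _ => b - q) (fun k => min b (p - x k)) (p * b)
    (by
      intro k hk
      have h1 := hxp k hk
      have h2 := hxd k hk
      show b - q ≤ min b (p - x k)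
      omega)
    (by
      rw [Finset.sum_const, Finset.card_range, smul_eq_mul]
      rcases le_total b q with hbq | hbq
      · rw [Nat.sub_eq_zero_of_le hbq]; simp
      · obtain ⟨r, rfl⟩ := Nat.exists_eq_add_of_le hbq
        have e : q + r - q = r := by omega
        rw [e, hn]
        have : r ≤ p := by omega
        nlinarith)
    (by
      have hU : ∀ k ∈ range n, ((min b (p - x k) : ℕ) : ℤ) = p - max ((p : ℤ) - b) (δ k) := by
        intro k hk
        have hk' := Finset.mem_range.1 hk
        have h1 := hxp k hk'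
        have h2 := hxδ k hk'
        omega
      have : ((p * b : ℕ) : ℤ) ≤ ((∑ k ∈ range n, min b (p - x k) : ℕ) : ℤ) := by
        rw [Nat.cast_sum, Finset.sum_congr rfl hU, Finset.sum_sub_distrib, Finset.sum_const,
          Finset.card_range, nsmul_eq_mul]
        push_cast
        linarith
      exact_mod_cast this)
  refine ⟨x, y, fun k => b - y k, ?_, ?_, hy2, ?_, hxsum⟩
  · intro k hk
    have h1 := hxp k hk
    have h2 := hxd k hk
    have h3 := hy1 k hk
    refine ⟨by omega, ?_, ?_, h2⟩
    · show b - y k ≤ q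
      omega
    · show y k + (b - y k) = b
      omega
  · have := hxsum n le_rfl
    rw [hξn] at this
    exact_mod_cast this
  · have hyb : ∀ k ∈ range n, b - y k + y k = b := by
      intro k hk
      have h3 := hy1 k (Finset.mem_range.1 hk)
      omega
    have h1 : ∑ k ∈ range n, (b - y k) + ∑ k ∈ range n, y k = n * b := by
      rw [← Finset.sum_add_distrib, Finset.sum_congr rfl hyb, Finset.sum_const,
        Finset.card_range, smul_eq_mul]
    rw [hy2] at h1
    have h2 : n * b = p * b + q * b := by rw [hn, Nat.add_mul]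
    show ∑ k ∈ range n, (b - y k) = q * b
    omega

end Pool.Agent.H997LT
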