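import Mathlib
import Pool.Agent.H997LT.Seqs

set_option autoImplicit false

/-! Diagrams with two row lengths. -/

open Finset

namespace Pool.Agent.H997LT

theorem good_hook_aux (p q b d : ℕ) (h : b + d ≤ p + q) : ∃ c, Good (hook p q b d) c := by
  obtain ⟨x, y, z, h1, Sx, Sy, Sz, hxi⟩ := seqs p q b d h
  obtain ⟨c, hc1, hc2, hc3⟩ := fill p q b d (p + q) x y z (fun k hk => (h1 k hk).1)
    (fun k hk => (h1 k hk).2.1) (fun k hk => le_of_eq (h1 k hk).2.2.1)
    (fun k hk => (h1 k hk).2.2.2) Sx Sy Sz
  refine ⟨c, hc1, ?_⟩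
  intro k hk
  rcases le_or_gt k (p + q) with hkn | hkn
  · have h2 := hc3 k hkn
    have h3 : ∑ j ∈ range k, y j + ∑ j ∈ range k, z j = k * b := by
      rw [← Finset.sum_add_distrib, Finset.sum_congr rfl (g := fun _ => b)
        (fun j hj => (h1 j (by have := Finset.mem_range.1 hj; omega)).2.2.1), Finset.sum_const,
        Finset.card_range, smul_eq_mul]
    have h4 := hxi k hkn
    rw [h3] at h2
    unfold xi at h4
    rcases min_choice (min ((p : ℤ) * d) (k * p)) (min ((k : ℤ) * d) (k * ((p : ℤ) - b) + q * b))
      with e | e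
    · rcases min_choice ((p : ℤ) * d) (k * p) with e' | e'
      · -- `p * d`
        refine ⟨0, b, ?_⟩
        have h5 : ((hook p q b d).filter (fun x => 0 ≤ x.1 ∧ b ≤ x.2)).card ≤ p * d := by
          have h6 : (hook p q b d).filter (fun x => 0 ≤ x.1 ∧ b ≤ x.2) ⊆
              (range p) ×ˢ (Ico b (b + d)) := by
            intro u hu
            rw [Finset.mem_filter, mem_hook] at hu
            simp only [Finset.mem_product, Finset.mem_range, Finset.mem_Ico]
            omega
          refine le_trans (Finset.card_le_card h6) ?_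
          simp
        have h7 : ∑ j ∈ range k, x j = p * d := by
          rw [e, e'] at h4
          exact_mod_cast h4
        rw [h2, h7]
        rw [Nat.zero_add]
        omega
      · -- `k * p`
        refine ⟨p, b, ?_⟩
        have h5 : ((hook p q b d).filter (fun x => p ≤ x.1 ∧ b ≤ x.2)).card = 0 := by
          rw [Finset.card_eq_zero, Finset.filter_eq_empty_iff]
          intro u hu
          rw [mem_hook] at hu
          omega
        have h7 : ∑ j ∈ range k, x j = k * p := by
          rw [e, e'] at h4
          exact_mod_cast h4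
        rw [h2, h7, h5, Nat.mul_add]
        omega
    · rcases min_choice ((k : ℤ) * d) (k * ((p : ℤ) - b) + q * b) with e' | e'
      · -- `k * d`
        refine ⟨0, b + d, ?_⟩
        have h5 : ((hook p q b d).filter (fun x => 0 ≤ x.1 ∧ b + d ≤ x.2)).card = 0 := by
          rw [Finset.card_eq_zero, Finset.filter_eq_empty_iff]
          intro u hu
          rw [mem_hook] at hu
          omega
        have h7 : ∑ j ∈ range k, x j = k * d := by
          rw [e, e'] at h4
          exact_mod_cast h4
        rw [h2, h7, h5, Nat.zero_add, Nat.mul_add]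
        omega
      · -- `k * (p - b) + q * b`
        refine ⟨p, 0, ?_⟩
        have h5 : ((hook p q b d).filter (fun x => p ≤ x.1 ∧ 0 ≤ x.2)).card ≤ q * b := by
          have h6 : (hook p q b d).filter (fun x => p ≤ x.1 ∧ 0 ≤ x.2) ⊆
              (Ico p (p + q)) ×ˢ (range b) := by
            intro u hu
            rw [Finset.mem_filter, mem_hook] at hu
            simp only [Finset.mem_product, Finset.mem_range, Finset.mem_Ico]
            omega
          refine le_trans (Finset.card_le_card h6) ?_
          simp
        have h7 : ∑ j ∈ range k, x j + k * b = k * p + q * b := by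
          rw [e, e'] at h4
          have h8 : ((∑ j ∈ range k, x j : ℕ) : ℤ) + k * b = k * p + q * b := by
            rw [h4]; ring
          exact_mod_cast h8
        rw [h2, Nat.add_zero, h7]
        omega
  · refine ⟨0, 0, ?_⟩
    have h2 : (hook p q b d).filter (fun u => c u < k) = hook p q b d := by
      rw [Finset.filter_eq_self]
      intro u hu
      have := hc2 u hu
      omega
    rw [h2, Nat.add_zero, Nat.mul_zero, Nat.zero_add]
    exact Finset.card_filter_le _ _

theorem good_hook (p q b d : ℕ) : ∃ c, Good (hook p q b d) c := by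
  rcases le_total (b + d) (p + q) with h | h
  · exact good_hook_aux p q b d h
  · obtain ⟨c, hc⟩ := good_hook_aux b d p q h
    refine ⟨_, good_swap (hook b d p q) (hook p q b d) c hc ?_⟩
    intro u
    rw [mem_hook, mem_hook]
    simp only [Prod.fst_swap, Prod.snd_swap]
    tauto

theorem cells_eq_hook (μ : YoungDiagram) (a b : ℕ) (hba : b ≤ a)
    (h : ∀ i, μ.rowLen i = 0 ∨ μ.rowLen i = a ∨ μ.rowLen i = b) :
    ∃ p q b' d, μ.cells = hook p q b' d := by
  refine ⟨μ.colLen b, μ.colLen 0 - μ.colLen b, b, a - b, ?_⟩
  have hcol : ∀ i j, j < μ.rowLen i ↔ i < μ.colLen j := by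
    intro i j
    rw [← YoungDiagram.mem_iff_lt_rowLen, ← YoungDiagram.mem_iff_lt_colLen]
  have hanti : μ.colLen b ≤ μ.colLen 0 := μ.colLen_anti _ _ (Nat.zero_le b)
  ext ⟨i, j⟩
  rw [YoungDiagram.mem_cells, YoungDiagram.mem_iff_lt_rowLen, mem_hook]
  show j < μ.rowLen i ↔ i < μ.colLen b + (μ.colLen 0 - μ.colLen b) ∧ j < b + (a - b) ∧
    (i < μ.colLen b ∨ j < b)
  have h1 := hcol i b
  have h2 := hcol i 0
  rcases h i with h3 | h3 | h3 <;> rw [h3] at h1 h2 ⊢ <;> omega

end Pool.Agent.H997LT
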